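import Pool.Agent.H77.SL.LawN

/-!
# Chain 2: two stars joined by a general star

`blk p zq zr N`: one star `(V 0 0, V 0 1)` over `zq` with the parallels `V (j + 1) 1`, `j < N`, of its
second sample (over `zr`). `chn p zq zp zr l c0 N` on `(block x star) x block`: block `A = w.1.1`
(`om0 = A 0 0`, `om2 = A 0 1`), general star `C = w.1.2` over `zp` (`C 0` over `(l, c0)` of `om2`),
block `B = w.2` (`om1 = B 0 0`, `om3 = B 0 1` over `(l, c0)` of `C 1`).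
`chn_low`: every datum of `om0` is as free given its line, the coarse time, the data `ell` of `om1`
and of the parallels of both lines, and a code `cc` of the time of `C`, as given its line and the
coarse time.
-/

set_option autoImplicit false

namespace Pool.NA55

open Finset Real
open Pool.Agent.H49.Ent Pool.Agent.H32.Dense Pool.STK
open Pool.BFL (Pb)
open Pool.K2S (cpn)
open Pool.CLU (cpn_law cpn_pos cpn_marg marg_cpn)
open Pool.H52.TIE (CH_cpn CH_cpn_zero)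
open Pool.ND54 (cpn_tail)
open Pool.SL77 (cpn_oth cpn_oth' star_low tail_ge)

section

variable {Ω Z Z' R Λ C F U E S T T' X G Y K : Type} [Fintype Ω]

/-- **One star with the parallels of its second sample.** -/
noncomputable def blk (p : Ω → ℝ) (zq : Ω → Z') (zr : Ω → R) (N : ℕ) :
    (Fin (N + 1) → Fin 2 → Ω) → ℝ :=
  cpn (cpn p zq 1) (fun v => zr (v 1)) N

theorem blk_law {p : Ω → ℝ} (hp : IsLaw p) (zq : Ω → Z') (zr : Ω → R) (N : ℕ) :
    IsLaw (blk p zq zr N) := cpn_law (cpn_law hp zq 1) _ N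

theorem blk_pos {p : Ω → ℝ} (hp : IsLaw p) (zq : Ω → Z') (zr : Ω → R) (N : ℕ)
    {V : Fin (N + 1) → Fin 2 → Ω} (h : 0 < blk p zq zr N V) :
    (∀ j k, 0 < p (V j k)) ∧ (∀ j, zq (V j 1) = zq (V j 0)) ∧ ∀ j, zr (V j 1) = zr (V 0 1) := by
  have k2 := cpn_pos (cpn_law hp zq 1).nonneg (fun v => zr (v 1)) N V h
  have k1 := fun j => cpn_pos hp.nonneg zq 1 (V j) (k2.1 j)
  exact ⟨fun j k => (k1 j).1 k, fun j => (k1 j).2 1, fun j => k2.2 j⟩

theorem blk_star {p : Ω → ℝ} (hp : IsLaw p) (zq : Ω → Z') (zr : Ω → R) (N : ℕ)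
    (j : Fin (N + 1)) : Marg (blk p zq zr N) (cpn p zq 1) (fun V => V j) :=
  cpn_marg (cpn_law hp zq 1).nonneg _ N j

theorem blk_one {p : Ω → ℝ} (hp : IsLaw p) (zq : Ω → Z') (zr : Ω → R) (N : ℕ)
    (j : Fin (N + 1)) (k : Fin 2) : Marg (blk p zq zr N) p (fun V => V j k) :=
  (blk_star hp zq zr N j).comp (cpn_marg hp.nonneg zq 1 k)

theorem blk_par {p : Ω → ℝ} (hp : IsLaw p) (zq : Ω → Z') (zr : Ω → R) (N : ℕ) :
    Marg (blk p zq zr N) (cpn p zr N) (fun V j => V j 1) :=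
  marg_cpn (cpn_marg hp.nonneg zq 1 1) zr N

/-- The parallels given the star. -/
theorem blk_tail {p : Ω → ℝ} (hp : IsLaw p) (zq : Ω → Z') (zr : Ω → R) (N : ℕ)
    (ufar : Ω → U) (ell : Ω → E) (T0 : Ω → T)
    (heu : Det p (fun ω => (ell ω, T0 ω)) ufar) (hrT : Det p zr T0) :
    N * CH p ufar zr ≤ CH (blk p zq zr N) (fun V (j : Fin N) => ell (V j.succ 1))
      (fun V => V 0) := by
  have hq1 := cpn_law hp zq 1
  have hb := blk_law hp zq zr N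
  have k2 : CH (cpn p zq 1) (fun v => ufar (v 1)) (fun v => zr (v 1)) = CH p ufar zr :=
    CH_cpn hp zq 1 1 ufar zr
  have k1 := tail_ge hq1 (fun v => zr (v 1)) (fun v => ufar (v 1)) N
    (B := fun V => V 0) (fun V V' _ _ h => h)
  rw [k2] at k1
  refine k1.trans (CH_mono_left hb.nonneg fun V V' hV hV' h => ?_)
  obtain ⟨g1, g2, g3⟩ := blk_pos hp zq zr N hV
  obtain ⟨g1', g2', g3'⟩ := blk_pos hp zq zr N hV'
  have h' := Prod.ext_iff.1 h
  simp only at h'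
  funext j
  refine heu _ _ (g1 j.succ 1) (g1' j.succ 1) (Prod.ext (congrFun h'.1 j) ?_)
  have a1 : T0 (V j.succ 1) = T0 (V 0 1) := hrT _ _ (g1 _ 1) (g1 0 1) (g3 _)
  have a2 : T0 (V' j.succ 1) = T0 (V' 0 1) := hrT _ _ (g1' _ 1) (g1' 0 1) (g3' _)
  show T0 (V j.succ 1) = T0 (V' j.succ 1)
  rw [a1, a2, h'.2]

/-- The parallels given the first sample of the star. -/
theorem blk_tup {p : Ω → ℝ} (hp : IsLaw p) (zq : Ω → Z') (zr : Ω → R) (N : ℕ) (hN : 1 ≤ N)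
    (f : Ω → F) (ufar : Ω → U) (ell : Ω → E) (T0 : Ω → T) {cF cU e₂ e₃ : ℝ}
    (hzf : Det p zr f) (hef : Det p ell f) (heu : Det p (fun ω => (ell ω, T0 ω)) ufar)
    (hpT : Det p zq T0) (hrT : Det p zr T0)
    (h3 : cF - e₂ ≤ CH p f zq) (h4 : cU - e₃ ≤ CH p ufar zr) :
    cF - e₂ + N * (cU - e₃) ≤
      CH (blk p zq zr N) (fun V (j : Fin N) => ell (V j.succ 1)) (fun V => V 0 0) := by
  have hq1 := cpn_law hp zq 1
  have hb := blk_law hp zq zr N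
  have q20 := hb.nonneg
  have b1 : CH (blk p zq zr N)
      (fun V => ((fun (j : Fin N) => ufar (V j.succ 1)), f (V 0 1))) (fun V => V 0 0) ≤
      CH (blk p zq zr N) (fun V (j : Fin N) => ell (V j.succ 1)) (fun V => V 0 0) := by
    refine CH_mono_left q20 fun V V' hV hV' h => ?_
    have h' := Prod.ext_iff.1 h
    simp only at h'
    obtain ⟨g1, g2, g3⟩ := blk_pos hp zq zr N hV
    obtain ⟨g1', g2', g3'⟩ := blk_pos hp zq zr N hV'
    have hkT : ∀ j, T0 (V j 1) = T0 (V 0 0) := fun j =>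
      (hrT _ _ (g1 j 1) (g1 0 1) (g3 j)).trans (hpT _ _ (g1 0 1) (g1 0 0) (g2 0))
    have hkT' : ∀ j, T0 (V' j 1) = T0 (V' 0 0) := fun j =>
      (hrT _ _ (g1' j 1) (g1' 0 1) (g3' j)).trans (hpT _ _ (g1' 0 1) (g1' 0 0) (g2' 0))
    refine Prod.ext ?_ ?_
    · funext j
      refine heu _ _ (g1 j.succ 1) (g1' j.succ 1) (Prod.ext (congrFun h'.1 j) ?_)
      show T0 (V j.succ 1) = T0 (V' j.succ 1)
      rw [hkT, hkT', h'.2]
    · obtain ⟨n, rfl⟩ : ∃ n, N = n + 1 := ⟨N - 1, by omega⟩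
      have kf : f (V (Fin.succ 0) 1) = f (V' (Fin.succ 0) 1) :=
        hef _ _ (g1 _ 1) (g1' _ 1) (congrFun h'.1 0)
      have kf1 : f (V (Fin.succ 0) 1) = f (V 0 1) := hzf _ _ (g1 _ 1) (g1 0 1) (g3 _)
      have kf2 : f (V' (Fin.succ 0) 1) = f (V' 0 1) := hzf _ _ (g1' _ 1) (g1' 0 1) (g3' _)
      show f (V 0 1) = f (V' 0 1)
      rw [← kf1, ← kf2, kf]
  have b2 := CH_chain q20 (fun V (j : Fin N) => ufar (V j.succ 1)) (fun V => f (V 0 1))
    (fun V => V 0 0)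
  have b3 : CH p f zq ≤ CH (blk p zq zr N) (fun V => f (V 0 1)) (fun V => V 0 0) := by
    refine (cpn_oth hp zq f).trans (le_of_eq ?_)
    exact (CH_cpn hq1 (fun v => zr (v 1)) N 0 (fun v => f (v 1)) (fun v => v 0)).symm
  have b4 : N * CH p ufar zr ≤ CH (blk p zq zr N)
      (fun V (j : Fin N) => ufar (V j.succ 1)) (fun V => (f (V 0 1), V 0 0)) := by
    have k2 : CH (cpn p zq 1) (fun v => ufar (v 1)) (fun v => zr (v 1)) = CH p ufar zr :=
      CH_cpn hp zq 1 1 ufar zr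
    have k1 := tail_ge hq1 (fun v => zr (v 1)) (fun v => ufar (v 1)) N
      (B := fun V => (f (V 0 1), V 0 0)) (fun V V' _ _ h => by
        have h' : V 0 = V' 0 := h
        show (f (V 0 1), V 0 0) = (f (V' 0 1), V' 0 0)
        rw [h'])
    rw [k2] at k1
    exact k1
  have b5 : (N : ℝ) * (cU - e₃) ≤ N * CH p ufar zr :=
    mul_le_mul_of_nonneg_left h4 (Nat.cast_nonneg N)
  linarith

/-- The first sample of the star given the line of the second one. -/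
theorem blk_low {p : Ω → ℝ} (hp : IsLaw p) (zq : Ω → Z') (zr : Ω → R) (N : ℕ) (l : Ω → Λ)
    (c0 : Ω → C) (f : Ω → F) (ell : Ω → E) (tl : Ω → T') {cF cU e₂ e₄ e₅ : ℝ}
    (hef : Det p ell f)
    (h3 : cF - e₂ ≤ CH p f zq)
    (h5 : cU - e₄ ≤ CH p tl (fun ω => (l ω, c0 ω)))
    (h6 : CH (cpn p zq 1) (fun v => tl (v 1)) (fun v => (ell (v 0), (l (v 1), c0 (v 1)))) ≤ e₅) :
    cF + cU - (e₂ + e₄ + e₅) ≤
      CH (blk p zq zr N) (fun V => ell (V 0 0)) (fun V => (l (V 0 1), c0 (V 0 1))) := by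
  refine (star_low hp zq l c0 f ell tl hef h3 h5 h6).trans (le_of_eq ?_)
  exact (CH_cpn (cpn_law hp zq 1) (fun v => zr (v 1)) N 0 (fun v => ell (v 0))
    (fun v => (l (v 1), c0 (v 1)))).symm

/-! ### The law of the chain -/

/-- Block `A` and the general star `C`. -/
noncomputable def chA (p : Ω → ℝ) (zq : Ω → Z') (zp : Ω → Z) (zr : Ω → R) (l : Ω → Λ) (c0 : Ω → C)
    (N : ℕ) : (Fin (N + 1) → Fin 2 → Ω) × (Fin 2 → Ω) → ℝ :=
  glue (blk p zq zr N) (cpn p zp 1) (fun V => (l (V 0 1), c0 (V 0 1)))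
    (fun v => (l (v 0), c0 (v 0)))

/-- **The law of the chain.** -/
noncomputable def chn (p : Ω → ℝ) (zq : Ω → Z') (zp : Ω → Z) (zr : Ω → R) (l : Ω → Λ) (c0 : Ω → C)
    (N : ℕ) : ((Fin (N + 1) → Fin 2 → Ω) × (Fin 2 → Ω)) × (Fin (N + 1) → Fin 2 → Ω) → ℝ :=
  glue (chA p zq zp zr l c0 N) (blk p zq zr N) (fun w => (l (w.2 1), c0 (w.2 1)))
    (fun V => (l (V 0 1), c0 (V 0 1)))

section laws

variable {p : Ω → ℝ} (hp : IsLaw p) (zq : Ω → Z') (zp : Ω → Z) (zr : Ω → R) (l : Ω → Λ)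
  (c0 : Ω → C) (N : ℕ)

include hp

theorem law_one (z : Λ × C) : law (blk p zq zr N) (fun V => (l (V 0 1), c0 (V 0 1))) z =
    law p (fun ω => (l ω, c0 ω)) z :=
  (blk_one hp zq zr N 0 1).law (fun ω => (l ω, c0 ω)) z

theorem law_two (k : Fin 2) (z : Λ × C) : law (cpn p zp 1) (fun v => (l (v k), c0 (v k))) z =
    law p (fun ω => (l ω, c0 ω)) z :=
  (cpn_marg hp.nonneg zp 1 k).law (fun ω => (l ω, c0 ω)) z

theorem chA_eq (z : Λ × C) : law (blk p zq zr N) (fun V => (l (V 0 1), c0 (V 0 1))) z =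
    law (cpn p zp 1) (fun v => (l (v 0), c0 (v 0))) z :=
  (law_one hp zq zr l c0 N z).trans (law_two hp zp l c0 0 z).symm

theorem chA_A : Marg (chA p zq zp zr l c0 N) (blk p zq zr N) (fun w => w.1) :=
  marg_fst (blk_law hp zq zr N).nonneg (chA_eq hp zq zp zr l c0 N)

theorem chA_C : Marg (chA p zq zp zr l c0 N) (cpn p zp 1) (fun w => w.2) :=
  marg_snd (cpn_law hp zp 1).nonneg (chA_eq hp zq zp zr l c0 N)

theorem chA_law : IsLaw (chA p zq zp zr l c0 N) :=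
  ⟨glue_nonneg (blk_law hp zq zr N).nonneg (cpn_law hp zp 1).nonneg,
    ((chA_A hp zq zp zr l c0 N).sum).trans (blk_law hp zq zr N).sum_one⟩

theorem chn_eq (z : Λ × C) :
    law (chA p zq zp zr l c0 N) (fun w => (l (w.2 1), c0 (w.2 1))) z =
      law (blk p zq zr N) (fun V => (l (V 0 1), c0 (V 0 1))) z :=
  (((chA_C hp zq zp zr l c0 N).law (fun v => (l (v 1), c0 (v 1))) z).trans
    (law_two hp zp l c0 1 z)).trans (law_one hp zq zr l c0 N z).symm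

theorem chn_AC : Marg (chn p zq zp zr l c0 N) (chA p zq zp zr l c0 N) (fun w => w.1) :=
  marg_fst (chA_law hp zq zp zr l c0 N).nonneg (chn_eq hp zq zp zr l c0 N)

/-- The marginal of block `B`. -/
theorem chn_B : Marg (chn p zq zp zr l c0 N) (blk p zq zr N) (fun w => w.2) :=
  marg_snd (blk_law hp zq zr N).nonneg (chn_eq hp zq zp zr l c0 N)

theorem chn_law : IsLaw (chn p zq zp zr l c0 N) :=
  ⟨glue_nonneg (chA_law hp zq zp zr l c0 N).nonneg (blk_law hp zq zr N).nonneg,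
    ((chn_AC hp zq zp zr l c0 N).sum).trans (chA_law hp zq zp zr l c0 N).sum_one⟩

/-- The marginal of block `A`. -/
theorem chn_A : Marg (chn p zq zp zr l c0 N) (blk p zq zr N) (fun w => w.1.1) :=
  (chn_AC hp zq zp zr l c0 N).comp (chA_A hp zq zp zr l c0 N)

/-- The marginal of the general star `C`. -/
theorem chn_C : Marg (chn p zq zp zr l c0 N) (cpn p zp 1) (fun w => w.1.2) :=
  (chn_AC hp zq zp zr l c0 N).comp (chA_C hp zq zp zr l c0 N)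

theorem chn_A1 (j : Fin (N + 1)) (k : Fin 2) :
    Marg (chn p zq zp zr l c0 N) p (fun w => w.1.1 j k) :=
  (chn_A hp zq zp zr l c0 N).comp (blk_one hp zq zr N j k)

theorem chn_B1 (j : Fin (N + 1)) (k : Fin 2) :
    Marg (chn p zq zp zr l c0 N) p (fun w => w.2 j k) :=
  (chn_B hp zq zp zr l c0 N).comp (blk_one hp zq zr N j k)

theorem chn_C1 (k : Fin 2) : Marg (chn p zq zp zr l c0 N) p (fun w => w.1.2 k) :=
  (chn_C hp zq zp zr l c0 N).comp (cpn_marg hp.nonneg zp 1 k)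

/-- The star `A` (or one of its copies over the parallels). -/
theorem chn_sA (j : Fin (N + 1)) :
    Marg (chn p zq zp zr l c0 N) (cpn p zq 1) (fun w => w.1.1 j) :=
  (chn_A hp zq zp zr l c0 N).comp (blk_star hp zq zr N j)

/-- The star `B`. -/
theorem chn_sB (j : Fin (N + 1)) :
    Marg (chn p zq zp zr l c0 N) (cpn p zq 1) (fun w => w.2 j) :=
  (chn_B hp zq zp zr l c0 N).comp (blk_star hp zq zr N j)

/-- `om2` and its parallels. -/
theorem chn_pA : Marg (chn p zq zp zr l c0 N) (cpn p zr N) (fun w j => w.1.1 j 1) :=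
  (chn_A hp zq zp zr l c0 N).comp (blk_par hp zq zr N)

/-- `om3` and its parallels. -/
theorem chn_pB : Marg (chn p zq zp zr l c0 N) (cpn p zr N) (fun w j => w.2 j 1) :=
  (chn_B hp zq zp zr l c0 N).comp (blk_par hp zq zr N)

/-- The relations of the samples. -/
theorem chn_pos {w : ((Fin (N + 1) → Fin 2 → Ω) × (Fin 2 → Ω)) × (Fin (N + 1) → Fin 2 → Ω)}
    (h : 0 < chn p zq zp zr l c0 N w) :
    ((∀ j k, 0 < p (w.1.1 j k)) ∧ (∀ k, 0 < p (w.1.2 k)) ∧ ∀ j k, 0 < p (w.2 j k)) ∧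
    ((∀ j, zq (w.1.1 j 1) = zq (w.1.1 j 0)) ∧ ∀ j, zr (w.1.1 j 1) = zr (w.1.1 0 1)) ∧
    zp (w.1.2 1) = zp (w.1.2 0) ∧
    ((∀ j, zq (w.2 j 1) = zq (w.2 j 0)) ∧ ∀ j, zr (w.2 j 1) = zr (w.2 0 1)) ∧
    (l (w.1.1 0 1) = l (w.1.2 0) ∧ c0 (w.1.1 0 1) = c0 (w.1.2 0)) ∧
    (l (w.1.2 1) = l (w.2 0 1) ∧ c0 (w.1.2 1) = c0 (w.2 0 1)) := by
  have hA := chA_law hp zq zp zr l c0 N
  have hb := blk_law hp zq zr N
  have hc := cpn_law hp zp 1
  obtain ⟨g1, g2, g3⟩ := (glue_pos_iff hA.nonneg hb.nonneg w).1 h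
  obtain ⟨k1, k2, k3⟩ := (glue_pos_iff hb.nonneg hc.nonneg w.1).1 g1
  obtain ⟨a1, a2, a3⟩ := blk_pos hp zq zr N k1
  obtain ⟨b1, b2, b3⟩ := blk_pos hp zq zr N g2
  have c1 := cpn_pos hp.nonneg zp 1 w.1.2 k2
  have e1 := Prod.ext_iff.1 k3
  have e2 := Prod.ext_iff.1 g3
  exact ⟨⟨a1, c1.1, b1⟩, ⟨a2, a3⟩, c1.2 1, ⟨b2, b3⟩, e1, e2⟩

end laws

/-- **Chain 2, law level.** -/
theorem chn_low {p : Ω → ℝ} (hp : IsLaw p) (zq : Ω → Z') (zp : Ω → Z) (zr : Ω → R) (l : Ω → Λ)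
    (c0 : Ω → C) (N : ℕ) (hN : 1 ≤ N) (f : Ω → F) (J : Ω → G) (ufar : Ω → U) (ell : Ω → E)
    (T0 : Ω → T) (tl : Ω → T') (xc : Ω → X) (xj : Ω → Y) (cc : Ω → K) (D : Ω → S)
    {cF cU cJ cm e₀ e₁ e₂ e₃ e₄ e₅ e₆ e₇ : ℝ}
    (hzf : Det p zr f) (hef : Det p ell f) (hzJ : Det p zr J) (heJ : Det p ell J)
    (hlJ : Det p l J) (heu : Det p (fun ω => (ell ω, T0 ω)) ufar)
    (hqT : Det p zq T0) (hrT : Det p zr T0) (hTc : Det p T0 c0)
    (h0 : CH p f xc ≤ cF) (h1 : CH p ell (fun ω => (f ω, xc ω)) ≤ cU + e₀)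
    (h0j : CH p J xj ≤ cJ) (h1j : CH p ell (fun ω => (J ω, xc ω)) ≤ cU + e₀)
    (h0m : CH p cc c0 ≤ cm)
    (h2 : ∀ v : (((Fin (N + 1) → Fin 2 → Ω) × (Fin 2 → Ω)) × (Fin (N + 1) → Fin 2 → Ω)) → Ω,
      (∃ j, v = fun w => w.1.1 j 1) →
      CH (chn p zq zp zr l c0 N) (fun w => xc (v w))
        (fun w => (cc (w.1.2 0), (l (w.1.1 0 0), c0 (w.1.1 0 0)))) ≤ e₁)
    (h2B : ∀ v : (((Fin (N + 1) → Fin 2 → Ω) × (Fin 2 → Ω)) × (Fin (N + 1) → Fin 2 → Ω)) → Ω,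
      (v = (fun w => w.2 0 0) ∨ ∃ j, v = fun w => w.2 j 1) →
      CH (chn p zq zp zr l c0 N) (fun w => xc (v w))
        (fun w => (J (w.1.2 1), (cc (w.1.2 0), (l (w.1.1 0 0), c0 (w.1.1 0 0))))) ≤ e₁)
    (h2j : CH (chn p zq zp zr l c0 N) (fun w => xj (w.1.2 1))
        (fun w => (cc (w.1.2 0), (l (w.1.1 0 0), c0 (w.1.1 0 0)))) ≤ e₁)
    (h3 : cF - e₂ ≤ CH p f zq) (h4 : cU - e₃ ≤ CH p ufar zr)
    (h5 : cU - e₄ ≤ CH p tl (fun ω => (l ω, c0 ω)))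
    (h6 : CH (cpn p zq 1) (fun v => tl (v 1)) (fun v => (ell (v 0), (l (v 1), c0 (v 1)))) ≤ e₅)
    (h7 : cm - e₆ ≤ CH p cc (fun ω => (l ω, c0 ω))) (h8 : cJ - e₇ ≤ CH p J zp) :
    CH p D (fun ω => (l ω, c0 ω)) -
        ((2 * N + 3) * e₁ + (2 * N + 1) * e₀ + 2 * e₂ + 2 * N * e₃ + e₄ + e₅ + e₆ + e₇) ≤
      CH (chn p zq zp zr l c0 N) (fun w => D (w.1.1 0 0))
        (fun w => (((ell (w.2 0 0), ((fun (j : Fin N) => ell (w.1.1 j.succ 1)),
          fun (j : Fin N) => ell (w.2 j.succ 1))), cc (w.1.2 0)),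
          (l (w.1.1 0 0), c0 (w.1.1 0 0)))) := by
  classical
  have p0 := hp.nonneg
  have hb := blk_law hp zq zr N
  have hc := cpn_law hp zp 1
  have hA := chA_law hp zq zp zr l c0 N
  have hQ := chn_law hp zq zp zr l c0 N
  have Q0 := hQ.nonneg
  obtain ⟨Q, hQd⟩ : ∃ Q, Q = chn p zq zp zr l c0 N := ⟨_, rfl⟩
  obtain ⟨tA, htA⟩ : ∃ tA : (((Fin (N + 1) → Fin 2 → Ω) × (Fin 2 → Ω)) ×
    (Fin (N + 1) → Fin 2 → Ω)) → Fin N → E, tA = fun w (j : Fin N) => ell (w.1.1 j.succ 1) :=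
    ⟨_, rfl⟩
  obtain ⟨tB, htB⟩ : ∃ tB : (((Fin (N + 1) → Fin 2 → Ω) × (Fin 2 → Ω)) ×
    (Fin (N + 1) → Fin 2 → Ω)) → Fin N → E, tB = fun w (j : Fin N) => ell (w.2 j.succ 1) :=
    ⟨_, rfl⟩
  obtain ⟨W0, hW0⟩ : ∃ W0 : (((Fin (N + 1) → Fin 2 → Ω) × (Fin 2 → Ω)) ×
    (Fin (N + 1) → Fin 2 → Ω)) → Λ × C, W0 = fun w => (l (w.1.1 0 0), c0 (w.1.1 0 0)) :=
    ⟨_, rfl⟩
  obtain ⟨W1, hW1⟩ : ∃ W1 : (((Fin (N + 1) → Fin 2 → Ω) × (Fin 2 → Ω)) ×
    (Fin (N + 1) → Fin 2 → Ω)) → K × (Λ × C),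
    W1 = fun w => (cc (w.1.2 0), (l (w.1.1 0 0), c0 (w.1.1 0 0))) := ⟨_, rfl⟩
  have hW1' : W1 = fun w => (cc (w.1.2 0), W0 w) := by rw [hW1, hW0]
  have hpos := fun w (h : 0 < chn p zq zp zr l c0 N w) => chn_pos hp zq zp zr l c0 N h
  have hgoal : (fun w : ((Fin (N + 1) → Fin 2 → Ω) × (Fin 2 → Ω)) × (Fin (N + 1) → Fin 2 → Ω) =>
      (((ell (w.2 0 0), ((fun (j : Fin N) => ell (w.1.1 j.succ 1)),
        fun (j : Fin N) => ell (w.2 j.succ 1))), cc (w.1.2 0)),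
        (l (w.1.1 0 0), c0 (w.1.1 0 0)))) =
      fun w => (((ell (w.2 0 0), (tA w, tB w)), cc (w.1.2 0)), W0 w) := by
    rw [htA, htB, hW0]
  rw [hgoal]
  rw [← hW1] at h2 h2j
  have hW1J : (fun w : ((Fin (N + 1) → Fin 2 → Ω) × (Fin 2 → Ω)) ×
      (Fin (N + 1) → Fin 2 → Ω) => (J (w.1.2 1), (cc (w.1.2 0), (l (w.1.1 0 0),
        c0 (w.1.1 0 0))))) = fun w => (J (w.1.2 1), W1 w) := by rw [hW1]
  rw [hW1J] at h2B
  have mA := fun j k => chn_A1 hp zq zp zr l c0 N j k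
  have mB := fun j k => chn_B1 hp zq zp zr l c0 N j k
  have mC := fun k => chn_C1 hp zq zp zr l c0 N k
  rw [← hQd] at Q0 h2 h2B h2j hpos mA mB mC ⊢
  -- the chain rules
  have c1 := CH_chain Q0 (fun w => D (w.1.1 0 0))
    (fun w => ((ell (w.2 0 0), (tA w, tB w)), cc (w.1.2 0))) W0
  have c2 := CH_chain Q0 (fun w => ((ell (w.2 0 0), (tA w, tB w)), cc (w.1.2 0)))
    (fun w => D (w.1.1 0 0)) W0
  have c3 : CH Q (fun w => (D (w.1.1 0 0), ((ell (w.2 0 0), (tA w, tB w)), cc (w.1.2 0)))) W0 =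
      CH Q (fun w => (((ell (w.2 0 0), (tA w, tB w)), cc (w.1.2 0)), D (w.1.1 0 0))) W0 :=
    Pool.MIC.CH_swl Q0 _ _ _
  have c4 : CH Q (fun w => D (w.1.1 0 0)) W0 = CH p D (fun ω => (l ω, c0 ω)) := by
    rw [hW0]
    exact (mA 0 0).CH D (fun ω => (l ω, c0 ω))
  -- the upper bound
  have u0 : CH Q (fun w => cc (w.1.2 0)) W0 ≤ cm := by
    refine le_trans (CH_mono_cond Q0 (W := fun w => c0 (w.1.2 0)) fun w w' hw hw' h => ?_) ?_
    · obtain ⟨⟨a1, -, -⟩, ⟨a2, -⟩, -, -, ⟨-, a3⟩, -⟩ := hpos w hw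
      obtain ⟨⟨b1, -, -⟩, ⟨b2, -⟩, -, -, ⟨-, b3⟩, -⟩ := hpos w' hw'
      have k1 : c0 (w.1.1 0 1) = c0 (w.1.1 0 0) :=
        hTc _ _ (a1 0 1) (a1 0 0) (hqT _ _ (a1 0 1) (a1 0 0) (a2 0))
      have k2 : c0 (w'.1.1 0 1) = c0 (w'.1.1 0 0) :=
        hTc _ _ (b1 0 1) (b1 0 0) (hqT _ _ (b1 0 1) (b1 0 0) (b2 0))
      rw [hW0] at h
      have h' := (Prod.ext_iff.1 h).2
      simp only at h'
      show c0 (w.1.2 0) = c0 (w'.1.2 0)
      rw [← a3, ← b3, k1, k2, h']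
    · exact ((mC 0).CH cc c0).le.trans h0m
  have hx : ∀ v : (((Fin (N + 1) → Fin 2 → Ω) × (Fin 2 → Ω)) ×
      (Fin (N + 1) → Fin 2 → Ω)) → Ω, Marg Q p v → CH Q (fun w => xc (v w)) W1 ≤ e₁ →
      ∀ {A : Type} (a : Ω → A) (c : ℝ), CH p ell (fun ω => (a ω, xc ω)) ≤ c →
      CH Q (fun w => ell (v w)) (fun w => (a (v w), W1 w)) ≤ e₁ + c := by
    intro v mv hv A a c hc'
    refine (CH_le_add Q0 _ (fun w => xc (v w)) _).trans (add_le_add ?_ ?_)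
    · exact le_trans (CH_mono_cond Q0 (W := W1) fun _ _ _ _ h => (Prod.ext_iff.1 h).2) hv
    · refine le_trans (CH_mono_cond Q0 (W := fun w => (a (v w), xc (v w))) fun w w' _ _ h => ?_) ?_
      · have h' := Prod.ext_iff.1 h
        have h'' := Prod.ext_iff.1 h'.2
        simp only at h' h''
        exact Prod.ext h''.1 h'.1
      · exact (mv.CH ell (fun ω => (a ω, xc ω))).le.trans hc'
  have u1 : CH Q (fun w => ell (w.2 0 0)) (fun w => (J (w.1.2 1), W1 w)) ≤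
      e₁ + (cF + (cU + e₀)) := by
    refine (CH_le_add Q0 _ (fun w => xc (w.2 0 0)) _).trans (add_le_add (h2B _ (Or.inl rfl)) ?_)
    refine le_trans (CH_mono_cond Q0 (W := fun w => xc (w.2 0 0)) fun _ _ _ _ h =>
      (Prod.ext_iff.1 h).1) ?_
    refine ((mB 0 0).CH ell xc).le.trans ?_
    exact (CH_le_add p0 ell f xc).trans (add_le_add h0 h1)
  have u2 : CH Q (fun w => f (w.1.1 0 1)) W1 ≤ e₁ + cF := by
    refine (CH_le_add Q0 _ (fun w => xc (w.1.1 0 1)) _).trans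
      (add_le_add (h2 _ ⟨0, rfl⟩) ?_)
    refine le_trans (CH_mono_cond Q0 (W := fun w => xc (w.1.1 0 1)) fun _ _ _ _ h =>
      (Prod.ext_iff.1 h).1) ?_
    exact ((mA 0 1).CH f xc).le.trans h0
  have u5 : CH Q (fun w => J (w.1.2 1)) W1 ≤ e₁ + cJ := by
    refine (CH_le_add Q0 _ (fun w => xj (w.1.2 1)) _).trans (add_le_add h2j ?_)
    refine le_trans (CH_mono_cond Q0 (W := fun w => xj (w.1.2 1)) fun _ _ _ _ h =>
      (Prod.ext_iff.1 h).1) ?_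
    exact ((mC 1).CH J xj).le.trans h0j
  have u4 : CH Q tA W1 ≤ (e₁ + cF) + N * (e₁ + (cU + e₀)) := by
    refine (CH_le_add Q0 _ (fun w => f (w.1.1 0 1)) _).trans (add_le_add u2 ?_)
    rw [htA]
    refine (Pool.KS3.CH_pi_le Q0 (fun (w : ((Fin (N + 1) → Fin 2 → Ω) × (Fin 2 → Ω)) ×
      (Fin (N + 1) → Fin 2 → Ω)) (j : Fin N) => ell (w.1.1 j.succ 1))
      (fun w => (f (w.1.1 0 1), W1 w))).trans ?_
    refine (Finset.sum_le_sum (g := fun _ => e₁ + (cU + e₀)) fun j _ => ?_).trans ?_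
    · refine le_trans (CH_mono_cond Q0 (W := fun w => (f (w.1.1 j.succ 1), W1 w))
        fun w w' hw hw' h => ?_) (hx _ (mA j.succ 1) (h2 _ ⟨j.succ, rfl⟩) f _ h1)
      obtain ⟨⟨a1, -, -⟩, ⟨-, a2⟩, -, -, -, -⟩ := hpos w hw
      obtain ⟨⟨b1, -, -⟩, ⟨-, b2⟩, -, -, -, -⟩ := hpos w' hw'
      have h' := Prod.ext_iff.1 h
      simp only at h'
      refine Prod.ext ?_ h'.2
      have k1 : f (w.1.1 j.succ 1) = f (w.1.1 0 1) := hzf _ _ (a1 _ 1) (a1 0 1) (a2 _)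
      have k2 : f (w'.1.1 j.succ 1) = f (w'.1.1 0 1) := hzf _ _ (b1 _ 1) (b1 0 1) (b2 _)
      show f (w.1.1 j.succ 1) = f (w'.1.1 j.succ 1)
      rw [k1, k2, h'.1]
    · rw [Finset.sum_const, Finset.card_univ, Fintype.card_fin, nsmul_eq_mul]
  have hJ3 : ∀ w, 0 < Q w → ∀ j, J (w.2 j 1) = J (w.1.2 1) := by
    intro w hw j
    obtain ⟨⟨-, a1, a2⟩, -, -, ⟨-, a3⟩, -, ⟨a4, -⟩⟩ := hpos w hw
    exact (hzJ _ _ (a2 j 1) (a2 0 1) (a3 j)).trans (hlJ _ _ (a1 1) (a2 0 1) a4).symm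
  have u7 : CH Q tB (fun w => (J (w.1.2 1), W1 w)) ≤ N * (e₁ + (cU + e₀)) := by
    rw [htB]
    refine (Pool.KS3.CH_pi_le Q0 (fun (w : ((Fin (N + 1) → Fin 2 → Ω) × (Fin 2 → Ω)) ×
      (Fin (N + 1) → Fin 2 → Ω)) (j : Fin N) => ell (w.2 j.succ 1))
      (fun w => (J (w.1.2 1), W1 w))).trans ?_
    refine (Finset.sum_le_sum (g := fun _ => e₁ + (cU + e₀)) fun j _ => ?_).trans ?_
    · refine (CH_le_add Q0 _ (fun w => xc (w.2 j.succ 1)) _).trans (add_le_add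
        (h2B _ (Or.inr ⟨j.succ, rfl⟩)) ?_)
      refine le_trans (CH_mono_cond Q0 (W := fun w => (J (w.2 j.succ 1), xc (w.2 j.succ 1)))
        fun w w' hw hw' h => ?_) (((mB j.succ 1).CH ell (fun ω => (J ω, xc ω))).le.trans h1j)
      have h' := Prod.ext_iff.1 h
      have h'' := Prod.ext_iff.1 h'.2
      simp only at h' h''
      refine Prod.ext ?_ h'.1
      show J (w.2 j.succ 1) = J (w'.2 j.succ 1)
      rw [hJ3 w hw, hJ3 w' hw', h''.1]
    · rw [Finset.sum_const, Finset.card_univ, Fintype.card_fin, nsmul_eq_mul]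
  have c5 : CH Q (fun w => ((ell (w.2 0 0), (tA w, tB w)), cc (w.1.2 0))) W0 ≤
      cm + ((e₁ + (cF + (cU + e₀))) + (((e₁ + cF) + N * (e₁ + (cU + e₀))) +
        ((e₁ + cJ) + N * (e₁ + (cU + e₀))))) := by
    have k1 := CH_chain Q0 (fun w => (ell (w.2 0 0), (tA w, tB w))) (fun w => cc (w.1.2 0)) W0
    have k0 : CH Q (fun w => (ell (w.2 0 0), tB w)) W1 ≤ (e₁ + cJ) +
        ((e₁ + (cF + (cU + e₀))) + N * (e₁ + (cU + e₀))) :=
      (CH_le_add Q0 _ (fun w => J (w.1.2 1)) _).trans (add_le_add u5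
        ((CH_subadd Q0 _ _ _).trans (add_le_add u1 u7)))
    have k3 : CH Q (fun w => (ell (w.2 0 0), (tA w, tB w))) W1 ≤
        CH Q (fun w => (tA w, (ell (w.2 0 0), tB w))) W1 :=
      CH_mono_left Q0 fun w w' _ _ h => by
        have h' := Prod.ext_iff.1 (Prod.ext_iff.1 h).1
        have h'' := Prod.ext_iff.1 h'.2
        simp only at h' h''
        exact Prod.ext h''.1 (Prod.ext h'.1 h''.2)
    have k2 : CH Q (fun w => (ell (w.2 0 0), (tA w, tB w))) W1 ≤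
        ((e₁ + cF) + N * (e₁ + (cU + e₀))) + ((e₁ + cJ) +
          ((e₁ + (cF + (cU + e₀))) + N * (e₁ + (cU + e₀)))) :=
      k3.trans ((CH_subadd Q0 _ _ _).trans (add_le_add u4 k0))
    rw [hW1'] at k2
    linarith
  -- the lower bound
  have c6 : CH Q (fun w => ((ell (w.2 0 0), (tA w, tB w)), cc (w.1.2 0))) (fun w => w.1.1 0 0) ≤
      CH Q (fun w => ((ell (w.2 0 0), (tA w, tB w)), cc (w.1.2 0)))
        (fun w => (D (w.1.1 0 0), W0 w)) :=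
    CH_mono_cond Q0 fun w w' _ _ h => by
      have h' : w.1.1 0 0 = w'.1.1 0 0 := h
      rw [hW0]
      show (D (w.1.1 0 0), (l (w.1.1 0 0), c0 (w.1.1 0 0))) =
        (D (w'.1.1 0 0), (l (w'.1.1 0 0), c0 (w'.1.1 0 0)))
      rw [h']
  have c7 : CH Q (fun w => ((tB w, ell (w.2 0 0)), (J (w.1.2 1), (cc (w.1.2 0), tA w))))
      (fun w => w.1.1 0 0) ≤
      CH Q (fun w => ((ell (w.2 0 0), (tA w, tB w)), cc (w.1.2 0))) (fun w => w.1.1 0 0) := by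
    refine CH_mono_left Q0 fun w w' hw hw' h => ?_
    have h' := Prod.ext_iff.1 h
    have h1' := Prod.ext_iff.1 h'.1
    have h2' := Prod.ext_iff.1 h1'.1
    have h3' := Prod.ext_iff.1 h2'.2
    simp only at h' h1' h2' h3'
    obtain ⟨⟨-, -, a2⟩, -, -, -, -, -⟩ := hpos w hw
    obtain ⟨⟨-, -, b2⟩, -, -, -, -, -⟩ := hpos w' hw'
    have kJ : J (w.1.2 1) = J (w'.1.2 1) := by
      obtain ⟨n, rfl⟩ : ∃ n, N = n + 1 := ⟨N - 1, by omega⟩
      have k1 : ell (w.2 (Fin.succ 0) 1) = ell (w'.2 (Fin.succ 0) 1) := by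
        have := congrFun h3'.2 0
        rw [htB] at this
        exact this
      rw [← hJ3 w hw (Fin.succ 0), ← hJ3 w' hw' (Fin.succ 0)]
      exact heJ _ _ (a2 _ 1) (b2 _ 1) k1
    show ((tB w, ell (w.2 0 0)), (J (w.1.2 1), (cc (w.1.2 0), tA w))) =
      ((tB w', ell (w'.2 0 0)), (J (w'.1.2 1), (cc (w'.1.2 0), tA w')))
    rw [kJ, h3'.1, h3'.2, h2'.1, h1'.2]
  have d1 := CH_chain Q0 (fun w => (tB w, ell (w.2 0 0)))
    (fun w => (J (w.1.2 1), (cc (w.1.2 0), tA w))) (fun w => w.1.1 0 0)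
  have d2 := CH_chain Q0 (fun w => J (w.1.2 1)) (fun w => (cc (w.1.2 0), tA w))
    (fun w => w.1.1 0 0)
  have d3 := CH_chain Q0 (fun w => cc (w.1.2 0)) tA (fun w => w.1.1 0 0)
  have l1 : cF - e₂ + N * (cU - e₃) ≤ CH Q tA (fun w => w.1.1 0 0) := by
    refine (blk_tup hp zq zr N hN f ufar ell T0 hzf hef heu hqT hrT h3 h4).trans (le_of_eq ?_)
    rw [htA, hQd]
    exact ((chn_A hp zq zp zr l c0 N).CH (fun V (j : Fin N) => ell (V j.succ 1))
      (fun V => V 0 0)).symm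
  have l2 : cm - e₆ ≤ CH Q (fun w => cc (w.1.2 0)) (fun w => (tA w, w.1.1 0 0)) := by
    have k1 : CH Q (fun w => cc (w.1.2 0)) (fun w => ((l (w.1.2 0), c0 (w.1.2 0)), w.1.1)) =
        CH p cc (fun ω => (l ω, c0 ω)) := by
      rw [hQd]
      refine ((chn_AC hp zq zp zr l c0 N).CH (fun w => cc (w.2 0))
        (fun w => ((l (w.2 0), c0 (w.2 0)), w.1))).trans ?_
      refine (CH_glue_snd hb.nonneg hc.nonneg (chA_eq hp zq zp zr l c0 N)
        (fun v : Fin 2 → Ω => cc (v 0)) (Y := fun v => (l (v 0), c0 (v 0)))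
        (fun V => V) (fun _ _ _ _ h => h)).trans ?_
      exact (cpn_marg hp.nonneg zp 1 0).CH cc (fun ω => (l ω, c0 ω))
    refine h7.trans (k1.symm.le.trans (CH_mono_cond Q0 fun w w' _ _ h => ?_))
    have h' : w.1.1 = w'.1.1 := (Prod.ext_iff.1 h).2
    rw [htA]
    show ((fun (j : Fin N) => ell (w.1.1 j.succ 1)), w.1.1 0 0) =
      ((fun (j : Fin N) => ell (w'.1.1 j.succ 1)), w'.1.1 0 0)
    rw [h']
  have l3 : cJ - e₇ ≤ CH Q (fun w => J (w.1.2 1))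
      (fun w => ((cc (w.1.2 0), tA w), w.1.1 0 0)) := by
    have k1 : CH Q (fun w => J (w.1.2 1)) (fun w => (w.1.2 0, w.1.1)) =
        CH (cpn p zp 1) (fun v => J (v 1)) (fun v => v 0) := by
      rw [hQd]
      refine ((chn_AC hp zq zp zr l c0 N).CH (fun w => J (w.2 1))
        (fun w => (w.2 0, w.1))).trans ?_
      exact CH_glue_snd hb.nonneg hc.nonneg (chA_eq hp zq zp zr l c0 N)
        (fun v : Fin 2 → Ω => J (v 1)) (Y := fun v => v 0)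
        (fun V => V) (fun v v' _ _ h => by
          have h' : v 0 = v' 0 := h
          show (l (v 0), c0 (v 0)) = (l (v' 0), c0 (v' 0))
          rw [h'])
    refine (h8.trans (cpn_oth hp zp J)).trans (k1.symm.le.trans
      (CH_mono_cond Q0 fun w w' _ _ h => ?_))
    have h' := Prod.ext_iff.1 h
    simp only at h'
    rw [htA]
    show ((cc (w.1.2 0), fun (j : Fin N) => ell (w.1.1 j.succ 1)), w.1.1 0 0) =
      ((cc (w'.1.2 0), fun (j : Fin N) => ell (w'.1.1 j.succ 1)), w'.1.1 0 0)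
    rw [h'.1, h'.2]
  have l4 : (cF + cU - (e₂ + e₄ + e₅)) + N * (cU - e₃) ≤
      CH Q (fun w => (tB w, ell (w.2 0 0)))
        (fun w => ((J (w.1.2 1), (cc (w.1.2 0), tA w)), w.1.1 0 0)) := by
    have k0 : CH Q (fun w => (tB w, ell (w.2 0 0))) (fun w => w.1) ≤
        CH Q (fun w => (tB w, ell (w.2 0 0)))
        (fun w => ((J (w.1.2 1), (cc (w.1.2 0), tA w)), w.1.1 0 0)) :=
      CH_mono_cond Q0 fun w w' _ _ h => by
        have h' : w.1 = w'.1 := h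
        rw [htA]
        show ((J (w.1.2 1), (cc (w.1.2 0), fun (j : Fin N) => ell (w.1.1 j.succ 1))),
            w.1.1 0 0) =
          ((J (w'.1.2 1), (cc (w'.1.2 0), fun (j : Fin N) => ell (w'.1.1 j.succ 1))),
            w'.1.1 0 0)
        rw [h']
    have k1 := CH_chain Q0 tB (fun w => ell (w.2 0 0)) (fun w => w.1)
    have k2 : CH Q (fun w => ell (w.2 0 0)) (fun w => ((l (w.2 0 1), c0 (w.2 0 1)), w.1)) =
        CH (blk p zq zr N) (fun V => ell (V 0 0)) (fun V => (l (V 0 1), c0 (V 0 1))) := by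
      rw [hQd]
      exact CH_glue_snd hA.nonneg hb.nonneg (chn_eq hp zq zp zr l c0 N)
        (fun V : Fin (N + 1) → Fin 2 → Ω => ell (V 0 0))
        (Y := fun V => (l (V 0 1), c0 (V 0 1))) (fun w => w) (fun _ _ _ _ h => h)
    have k3 : CH Q (fun w => ell (w.2 0 0)) (fun w => ((l (w.2 0 1), c0 (w.2 0 1)), w.1)) ≤
        CH Q (fun w => ell (w.2 0 0)) (fun w => w.1) :=
      CH_mono_cond Q0 fun _ _ _ _ h => (Prod.ext_iff.1 h).2
    have k4 := blk_low hp zq zr N l c0 f ell tl hef h3 h5 h6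
    have k5 : CH Q tB (fun w => (w.2 0, w.1)) =
        CH (blk p zq zr N) (fun V (j : Fin N) => ell (V j.succ 1)) (fun V => V 0) := by
      rw [hQd, htB]
      exact CH_glue_snd hA.nonneg hb.nonneg (chn_eq hp zq zp zr l c0 N)
        (fun (V : Fin (N + 1) → Fin 2 → Ω) (j : Fin N) => ell (V j.succ 1))
        (Y := fun V => V 0) (fun w => w) (fun V V' _ _ h => by
          have h' : V 0 = V' 0 := h
          show (l (V 0 1), c0 (V 0 1)) = (l (V' 0 1), c0 (V' 0 1))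
          rw [h'])
    have k6 : CH Q tB (fun w => (w.2 0, w.1)) ≤ CH Q tB (fun w => (ell (w.2 0 0), w.1)) :=
      CH_mono_cond Q0 fun w w' _ _ h => by
        have h' := Prod.ext_iff.1 h
        simp only at h'
        show (ell (w.2 0 0), w.1) = (ell (w'.2 0 0), w'.1)
        rw [h'.1, h'.2]
    have k7 := blk_tail hp zq zr N ufar ell T0 heu hrT
    have k8 : (N : ℝ) * (cU - e₃) ≤ N * CH p ufar zr :=
      mul_le_mul_of_nonneg_left h4 (Nat.cast_nonneg N)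
    linarith
  have e1 : (2 * (N : ℝ) + 3) * e₁ + (2 * N + 1) * e₀ + 2 * e₂ + 2 * N * e₃ + e₄ + e₅ + e₆ + e₇ =
      (cm + ((e₁ + (cF + (cU + e₀))) + (((e₁ + cF) + N * (e₁ + (cU + e₀))) +
        ((e₁ + cJ) + N * (e₁ + (cU + e₀)))))) -
      ((cF - e₂ + N * (cU - e₃)) + (cm - e₆) + (cJ - e₇) +
        ((cF + cU - (e₂ + e₄ + e₅)) + N * (cU - e₃))) := by ring
  rw [e1]
  linarith

end

end Pool.NA55
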