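import Pool.Agent.H55.NA.Fst
import Pool.Agent.H36.NA.Use2
import Pool.Agent.H60.NA.Pfr

/-!
# The probabilities of the relations of the star lemma

`sep_pair`: the first own jets of `c 2` of two samples over `rX` are separated. `sam_ev`, `star_ev`,
`nat_ev`: the hypotheses `SamR`, `StarR` and the natural relation of `Pool.SL77.sl_all` for the
record `slF`, from the letters `NaT` and the closeness of the own paths of `c 3`.
-/

set_option autoImplicit false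

namespace Pool.NA55

open Finset Real Polynomial
open Pool.Agent.H49.Ent Pool.Agent.H32.Dense Pool.STK Pool.KA Pool.KSAT Pool.K2S Pool.PB Pool.GEN
open Pool.S6C Pool.RCD Pool.LA91 Pool.OWN68 Pool.CHT
open Pool.BFL (Pb)
open Pool.STB (Pb_mono Pb_or)
open Pool.K2S (cpn)
open Pool.CLU (cpn_law cpn_pos cpn_marg)
open Pool.V0F (cR)
open Pool.NDC42 (hgC pcC x0 xn xg rP LbW)
open Pool.PB.Trl (rt rt_mem)
open Pool.AVG5 (jt jt_le jt_sub jt_zero jt_one of_fl)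
open Pool.NA36 (opl opl_deg f2C f1C tcd tct rX rG NaT)
open Pool.SL77

variable {m J : ℕ}

/-- The event of a sample of the conditioned law. -/
theorem cond_A {F : Fam m J} {A : F.Ω → Prop} {ω : F.Ω}
    (h : 0 < Pool.Agent.H49.Ent.cond F.p A True ω) : A ω := Pool.ND54.cond_A h

section

variable {F : Fam m J} {A : F.Ω → Prop} {c : ℕ → Fin m} {D : ℕ} {w t τ : ℝ} {n : ℕ → ℝ}
  {nt nτ s₀ β δm e : ℝ} {H : LnT F → ℕ → MvPolynomial (Option (Fin m)) ℝ}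

/-- **Separated velocities.** -/
theorem sep_pair (hw0 : 0 ≤ w) (hwJ : ⌊w * J⌋₊ ≤ J) (hA : 0 < Pe F.p A) (hδ : 0 < δm)
    (hN : NaT F A c D w t τ n nt nτ s₀ β δm e H) :
    Pb (cpn (Pool.Agent.H49.Ent.cond F.p A True) (rX F A c D w t τ n nt H) 1)
      (fun v => |(derivative (opl F c w H 2 (v 1))).eval (rt F ⌊w * J⌋₊ (v 0)) -
        (derivative (opl F c w H 2 (v 0))).eval (rt F ⌊w * J⌋₊ (v 0))| <
          2 ^ (-((nτ - (τ - w) + β) * J))) ≤ δm := by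
  have hcl := isLaw_cond F.isLaw hA
  have h0 : (0 : ℝ) < 2 ^ (-((nτ - τ + β) * J)) := Real.rpow_pos_of_pos (by norm_num) _
  have h1 := Pool.NA60.alive_sep hcl (rX F A c D w t τ n nt H)
    (fun ω => ojet F (c 2) 1 (H (slam F ⌊w * J⌋₊ ω) 2) ω) h0 hδ hN.al
  refine le_trans (Pb_mono (cpn_law hcl _ 1).nonneg fun v hv hbad => ?_) h1
  obtain ⟨-, hr⟩ := cpn_pos hcl.nonneg _ 1 v hv
  have hT : F.T (v 1) = F.T (v 0) := congrArg (fun x => x.1.1.2.1) (hr 1)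
  have hrt : rt F ⌊w * J⌋₊ (v 1) = rt F ⌊w * J⌋₊ (v 0) := Pool.NDD66.rt_congr hT
  have e0 := opl_jet (F := F) (c := c) (H := H) hwJ (l := 2) (v 0)
  have e1 := opl_jet (F := F) (c := c) (H := H) hwJ (l := 2) (v 1)
  rw [hrt] at e1
  have hp : (0 : ℝ) < 2 ^ ⌊w * J⌋₊ := by positivity
  rw [e0, e1, ← sub_div, abs_div, abs_of_pos hp, div_lt_iff₀ hp] at hbad
  refine hbad.trans_le ?_
  have e2 : (2 : ℝ) ^ ⌊w * J⌋₊ ≤ 2 ^ (w * J) := by
    rw [← Real.rpow_natCast]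
    exact Real.rpow_le_rpow_of_exponent_le (by norm_num)
      (Nat.floor_le (mul_nonneg hw0 (Nat.cast_nonneg J)))
  have e3 : (2 : ℝ) ^ (-((nτ - (τ - w) + β) * J)) * 2 ^ (w * J) =
      2 ^ (-((nτ - τ + β) * J)) := by
    rw [← Real.rpow_add (by norm_num)]
    congr 1
    ring
  rw [← e3]
  exact mul_le_mul_of_nonneg_left e2 (Real.rpow_pos_of_pos (by norm_num) _).le

end

/-- **The relations of one sample**, off a small event. -/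
theorem sam_ev (D : ℕ) : ∃ K : ℝ, 1 ≤ K ∧ ∀ {m J : ℕ} {F : Fam m J} {A : F.Ω → Prop}
    {c : ℕ → Fin m} {Xd : ℕ} {g w s : ℝ} {n : ℕ → ℝ} {M : ℕ}
    {H : LnT F → ℕ → MvPolynomial (Option (Fin m)) ℝ}
    {cP : LnT F → ℝ[X]} {ξ : Type} {le : LnT F → ξ × (Fin (D + 1 + 1) → ℤ)}
    {NR CR : ξ × (Fin (D + 1 + 1) → ℤ) → ℝ[X]} {gd : F.Ω → Prop} {κ : F.Ω → ℝ}
    {δ Bn Bu εg Y η : ℝ}, 0 < Pe F.p A →
    (∀ l ≤ 3, ∀ x, (H x l).totalDegree ≤ D) →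
    (∀ ω, A ω → (le (slam F ⌊w * J⌋₊ ω)).2 = pcC F c D w H 2 0 (n 2) ω) →
    (∀ x, (NR x).natDegree ≤ D + 1) →
    (∀ ω, A ω → gd ω → ∀ τ ∈ Set.Icc (0 : ℝ) 1, |(opl F c w H 3 ω).eval τ -
      (NR (le (slam F ⌊w * J⌋₊ ω))).eval τ - κ ω| ≤ δ) →
    (∀ ω, A ω → gd ω → ∀ τ ∈ Set.Icc (0 : ℝ) 1, |(opl F c w H 3 ω).eval τ| ≤ Bn) →
    (∀ ω, A ω → gd ω → ∀ τ ∈ Set.Icc (0 : ℝ) 1,
      2 ^ (g * J) * |(opl F c w H 2 ω).eval τ| ≤ Bu) →
    Pb (Pool.Agent.H49.Ent.cond F.p A True) (fun ω => ¬ gd ω) ≤ η →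
    K * (Bu + 1 / 2 ^ ((n 2 - g) * J)) ≤ 1 → K * 2 ^ Xd * δ ≤ εg →
    K * 2 ^ Xd * (Bn + δ) ≤ Y →
    Pb (Pool.Agent.H49.Ent.cond F.p A True)
      (fun ω => ¬ SamR (slF F c D Xd g w s n M H cP le NR CR) εg Y ω) ≤ η := by
  obtain ⟨K, hK, hs⟩ := sam_F D
  refine ⟨K, hK, ?_⟩
  intro m J F A c Xd g w s n M H cP ξ le NR CR gd κ δ Bn Bu εg Y η hA hdeg hle hN hcl hbn hbu
    hgd hB hεg hY
  have hp := isLaw_cond F.isLaw hA
  refine le_trans (Pb_mono hp.nonneg fun ω hω hbad => ?_) hgd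
  have hAω := cond_A hω
  by_contra hcon
  exact hbad (hs hdeg (hle ω hAω) (hN _) (hcl ω hAω hcon)
    (hbn ω hAω hcon) (hbu ω hAω hcon) hB hεg hY)

/-- **The relations of a star**, off a small event: `zp = rX` at the window `t`. -/
theorem star_ev (D : ℕ) : ∃ K : ℝ, 1 ≤ K ∧ ∀ {m J : ℕ} {F : Fam m J} {A : F.Ω → Prop}
    {c : ℕ → Fin m} {Xd : ℕ} {g w s t : ℝ} {n : ℕ → ℝ} {M : ℕ}
    {H : LnT F → ℕ → MvPolynomial (Option (Fin m)) ℝ}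
    {cP : LnT F → ℝ[X]} {ξ : Type} {le : LnT F → ξ × (Fin (D + 1 + 1) → ℤ)}
    {NR CR : ξ × (Fin (D + 1 + 1) → ℤ) → ℝ[X]} {gd : F.Ω → Prop}
    {nt s₀ β δm e ε₀ Bn ε εu θ η : ℝ}, 0 < Pe F.p A → 1 ≤ M → 0 ≤ s → 0 ≤ w →
    ⌊w * J⌋₊ ≤ J → 0 < δm → 0 ≤ β → 0 ≤ e →
    (∀ l ≤ 3, ∀ x, (H x l).totalDegree ≤ D) →
    (∀ ω, A ω → (le (slam F ⌊w * J⌋₊ ω)).2 = pcC F c D w H 2 0 (n 2) ω) →
    NaT F A c D w t t n nt nt s₀ β δm e H →
    (∀ ω ω', A ω → A ω' → gd ω → gd ω' →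
      rX F A c D w t t n nt H ω = rX F A c D w t t n nt H ω' →
      |(opl F c w H 3 ω).eval (rt F ⌊w * J⌋₊ ω) -
        (opl F c w H 3 ω').eval (rt F ⌊w * J⌋₊ ω)| ≤ ε₀) →
    (∀ ω, A ω → gd ω → ∀ τ ∈ Set.Icc (0 : ℝ) 1, |(opl F c w H 3 ω).eval τ| ≤ Bn) →
    Pb (Pool.Agent.H49.Ent.cond F.p A True) (fun ω => ¬ gd ω) ≤ η →
    2 * K ≤ 2 ^ ((n 2 - nt + (t - w) - β) * J) → 2 * 2 ^ (β * J) ≤ θ → 2 * 2 ^ (e * J) ≤ θ →
    2 ^ Xd * (ε₀ + K * Bn * (1 / 2 ^ (s * J) / M)) ≤ ε →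
    K * (1 / 2 ^ ((n 2 - g) * J)) +
      θ * 2 ^ ((g - nt + (t - w)) * J) * (1 / 2 ^ (s * J) / M) ≤ εu →
    Pb (cpn (Pool.Agent.H49.Ent.cond F.p A True) (rX F A c D w t t n nt H) 1)
      (fun v => ¬ StarR (slF F c D Xd g w s n M H cP le NR CR) (1 / 2 ^ (s * J)) M ε εu
        (2 ^ ((g - nt + (t - w)) * J)) θ v) ≤ 3 * δm + 2 * η := by
  obtain ⟨K, hK, hs⟩ := star_F D
  refine ⟨K, hK, ?_⟩
  intro m J F A c Xd g w s t n M H cP ξ le NR CR gd nt s₀ β δm e ε₀ Bn ε εu θ η hA hM hs0 hw0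
    hwJ hδm hβ he hdeg hle hN h3 hb hgd hKn hθ1 hθ2 hε hεu
  classical
  have hp := isLaw_cond F.isLaw hA
  have hq := cpn_law hp (rX F A c D w t t n nt H) 1
  have Q0 := hq.nonneg
  obtain ⟨gc, hgc1, hgc2⟩ := hN.cl
  have hsep := sep_pair (n := n) hw0 hwJ hA hδm hN
  have m1 := fun i => (Pool.MIC.Marg.Pb_eq (cpn_marg hp.nonneg (rX F A c D w t t n nt H) 1 i)
    (fun ω => ¬ gc ω)).le.trans hgc1
  have m2 := fun i => (Pool.MIC.Marg.Pb_eq (cpn_marg hp.nonneg (rX F A c D w t t n nt H) 1 i)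
    (fun ω => ¬ gd ω)).le.trans hgd
  have hG : ∀ x : ℝ, (0 : ℝ) < 2 ^ x := fun x => Real.rpow_pos_of_pos (by norm_num) _
  refine le_trans (Pb_mono Q0 (B := fun v =>
    (|(derivative (opl F c w H 2 (v 1))).eval (rt F ⌊w * J⌋₊ (v 0)) -
        (derivative (opl F c w H 2 (v 0))).eval (rt F ⌊w * J⌋₊ (v 0))| <
          2 ^ (-((nt - (t - w) + β) * J))) ∨ ((¬ gc (v 0)) ∨ ((¬ gc (v 1)) ∨
            ((¬ gd (v 0)) ∨ (¬ gd (v 1))))) ) fun v hv hbad => ?_) ?_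
  · by_contra hcon
    rw [not_or, not_or, not_or, not_or, not_lt, not_not, not_not, not_not, not_not] at hcon
    obtain ⟨k1, k2, k3, k4, k5⟩ := hcon
    obtain ⟨hpv, hr⟩ := cpn_pos hp.nonneg _ 1 v hv
    have hA0 := cond_A (hpv 0)
    have hA1 := cond_A (hpv 1)
    have hr1 := hr 1
    have hT : F.T (v 1) = F.T (v 0) := congrArg (fun x => x.1.1.2.1) hr1
    have hf : f2C F c D w n H (v 1) = f2C F c D w n H (v 0) :=
      congrArg (fun x => x.1.2.2.1) hr1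
    have hh : hgC F c w H 2 (n 2) (v 1) = hgC F c w H 2 (n 2) (v 0) :=
      congrArg (fun x => x.2.1.2) hr1
    have hrt : rt F ⌊w * J⌋₊ (v 1) = rt F ⌊w * J⌋₊ (v 0) := Pool.NDD66.rt_congr hT
    have hcl := hgc2 (v 0) (v 1) hA0 hA1 k2 k3 (Pool.NA36.rX_rG hr1.symm).1 1
    rw [jt_one, jt_one] at hcl
    apply hbad
    obtain ⟨dl, hdl⟩ : ∃ dl : ℝ, dl = 2 ^ ((g - nt + (t - w)) * J) := ⟨_, rfl⟩
    have hdl0 : 0 < dl := by rw [hdl]; exact hG _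
    have a1 : (2 : ℝ) ^ (g * J) * 2 ^ (-((nt - (t - w) + β) * J)) = dl * 2 ^ (-(β * J)) := by
      rw [hdl, ← Real.rpow_add (by norm_num), ← Real.rpow_add (by norm_num)]
      congr 1
      ring
    have a2 : (2 : ℝ) ^ (g * J) * 2 ^ (-((nt - ((1 : ℕ) : ℝ) * (t - w) - e) * J)) =
        dl * 2 ^ (e * J) := by
      rw [hdl, ← Real.rpow_add (by norm_num), ← Real.rpow_add (by norm_num)]
      congr 1
      push_cast
      ring
    have a3 : K * (1 / 2 ^ ((n 2 - g) * J)) ≤ dl * 2 ^ (-(β * J)) / 2 := by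
      rw [mul_one_div, div_le_div_iff₀ (hG _) (by norm_num)]
      have e1 : dl * 2 ^ (-(β * J)) * 2 ^ ((n 2 - g) * J) =
          2 ^ ((n 2 - nt + (t - w) - β) * J) := by
        rw [hdl, ← Real.rpow_add (by norm_num), ← Real.rpow_add (by norm_num)]
        congr 1
        ring
      rw [e1]
      linarith
    have a4 : (2 : ℝ) ^ (β * J) * 2 ^ (-(β * J)) = 1 := by
      rw [← Real.rpow_add (by norm_num), add_neg_cancel, Real.rpow_zero]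
    have a5 : (1 : ℝ) ≤ 2 ^ (e * J) :=
      Real.one_le_rpow (by norm_num) (mul_nonneg he (Nat.cast_nonneg J))
    have a6 : (2 : ℝ) ^ (-(β * J)) ≤ 1 :=
      Real.rpow_le_one_of_one_le_of_nonpos (by norm_num)
        (neg_nonpos.2 (mul_nonneg hβ (Nat.cast_nonneg J)))
    have hθ0 : 0 ≤ θ := le_trans (by positivity) hθ1
    have hJ0 : (0 : ℝ) ≤ J := Nat.cast_nonneg J
    rw [← hdl] at hεu ⊢
    refine hs (ε₀ := ε₀) (Bn := Bn) (s₀ := 2 ^ (-((nt - (t - w) + β) * J)))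
      (s₁ := 2 ^ (-((nt - ((1 : ℕ) : ℝ) * (t - w) - e) * J))) hM hs0 hwJ hdeg
      (fun i => hle _ (cond_A (hpv i))) hT hh.symm hf.symm (h3 _ _ hA0 hA1 k4 k5 hr1.symm)
      (fun i => ?_) hcl ?_ ?_ ?_ hθ0 hε hεu
    · fin_cases i
      · exact hb _ hA0 k4
      · exact hb _ hA1 k5
    · rw [abs_sub_comm]
      exact k1
    · rw [a1]
      have b1 : dl * 2 ^ (-(β * J)) / 2 ≤
          dl * 2 ^ (-(β * J)) - K * (1 / 2 ^ ((n 2 - g) * J)) := by linarith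
      refine le_trans ?_ (mul_le_mul_of_nonneg_left b1 hθ0)
      have b2 : 2 * 2 ^ (β * J) * (dl * 2 ^ (-(β * J)) / 2) = dl := by
        calc 2 * 2 ^ (β * J) * (dl * 2 ^ (-(β * J)) / 2) =
            dl * ((2 : ℝ) ^ (β * J) * 2 ^ (-(β * J))) := by ring
          _ = dl := by rw [a4, mul_one]
      rw [← b2]
      have b3 : 0 ≤ 2 * 2 ^ (β * J) * (dl * 2 ^ (-(β * J)) / 2) * 2 ^ (-(β * J)) / 2 := by
        positivity
      have b4 : (0 : ℝ) ≤ dl * 2 ^ (-(β * J)) / 2 := by positivity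
      have b5 := mul_le_mul_of_nonneg_right hθ1 b4
      rw [b2] at b5 ⊢
      exact b5
    · rw [a2]
      have b1 : dl * 2 ^ (-(β * J)) ≤ dl * 1 := mul_le_mul_of_nonneg_left a6 hdl0.le
      have b2 : dl * 1 ≤ dl * 2 ^ (e * J) := mul_le_mul_of_nonneg_left a5 hdl0.le
      have b3 := mul_le_mul_of_nonneg_right hθ2 hdl0.le
      linarith
  · have b4 := (Pb_or Q0 (fun v => ¬ gd (v 0)) (fun v => ¬ gd (v 1))).trans
      (add_le_add (m2 0) (m2 1))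
    have b3 := (Pb_or Q0 (fun v => ¬ gc (v 1)) _).trans (add_le_add (m1 1) b4)
    have b2 := (Pb_or Q0 (fun v => ¬ gc (v 0)) _).trans (add_le_add (m1 0) b3)
    have b1 := (Pb_or Q0 (fun v => |(derivative (opl F c w H 2 (v 1))).eval
      (rt F ⌊w * J⌋₊ (v 0)) - (derivative (opl F c w H 2 (v 0))).eval (rt F ⌊w * J⌋₊ (v 0))| <
          2 ^ (-((nt - (t - w) + β) * J))) _).trans (add_le_add hsep b2)
    refine b1.trans (le_of_eq ?_)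
    ring

/-- **The natural relation over a deeper record**, off a small event: `zd = rX` at the window `τ`. -/
theorem nat_ev (D : ℕ) : ∃ K : ℝ, 1 ≤ K ∧ ∀ {m J : ℕ} {F : Fam m J} {A : F.Ω → Prop}
    {c : ℕ → Fin m} {Xd : ℕ} {g w s t τ : ℝ} {n : ℕ → ℝ} {M : ℕ}
    {H : LnT F → ℕ → MvPolynomial (Option (Fin m)) ℝ}
    {cP : LnT F → ℝ[X]} {ξ : Type} {le : LnT F → ξ × (Fin (D + 1 + 1) → ℤ)}
    {NR CR : ξ × (Fin (D + 1 + 1) → ℤ) → ℝ[X]} {gd : F.Ω → Prop} {sl : F.Ω → ℝ}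
    {nt nτ s₀ β δm e e₀ Bn Sl nat η : ℝ}, 0 < Pe F.p A → 1 ≤ M → 0 ≤ s → 0 ≤ w →
    ⌊w * J⌋₊ ≤ J → 0 < δm →
    (∀ l ≤ 3, ∀ x, (H x l).totalDegree ≤ D) →
    (∀ ω, A ω → (le (slam F ⌊w * J⌋₊ ω)).2 = pcC F c D w H 2 0 (n 2) ω) →
    NaT F A c D w t τ n nt nτ s₀ β δm e H →
    (∀ ω ω', A ω → A ω' → gd ω → gd ω' →
      rX F A c D w t τ n nt H ω = rX F A c D w t τ n nt H ω' →
      |((derivative (opl F c w H 3 ω')).eval (rt F ⌊w * J⌋₊ ω) -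
        (derivative (opl F c w H 3 ω)).eval (rt F ⌊w * J⌋₊ ω)) -
        sl ω * ((derivative (opl F c w H 2 ω')).eval (rt F ⌊w * J⌋₊ ω) -
          (derivative (opl F c w H 2 ω)).eval (rt F ⌊w * J⌋₊ ω))| ≤ e₀) →
    (∀ ω, A ω → gd ω → |sl ω| ≤ Sl) →
    (∀ ω, A ω → gd ω → ∀ τ ∈ Set.Icc (0 : ℝ) 1, |(opl F c w H 3 ω).eval τ| ≤ Bn) →
    Pb (Pool.Agent.H49.Ent.cond F.p A True) (fun ω => ¬ gd ω) ≤ η →
    2 * K ≤ 2 ^ ((n 2 - nτ + (τ - w) - β) * J) →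
    2 ^ Xd * (e₀ + K * Sl / 2 ^ (n 2 * J) + K * Bn * (1 / 2 ^ (s * J) / M)) ≤ nat →
    Pb (cpn (Pool.Agent.H49.Ent.cond F.p A True) (rX F A c D w t τ n nt H) 1)
      (fun v => ¬ (|(slF F c D Xd g w s n M H cP le NR CR).vN (1 / 2 ^ (s * J)) M (v 1) -
          (slF F c D Xd g w s n M H cP le NR CR).vN (1 / 2 ^ (s * J)) M (v 0) -
          (2 ^ Xd * (sl (v 0) / 2 ^ (g * J))) *
            ((slF F c D Xd g w s n M H cP le NR CR).vU (1 / 2 ^ (s * J)) M (v 1) -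
            (slF F c D Xd g w s n M H cP le NR CR).vU (1 / 2 ^ (s * J)) M (v 0))| ≤ nat ∧
        2 ^ ((g - nτ + (τ - w) - β) * J) / 2 ≤
          |(slF F c D Xd g w s n M H cP le NR CR).vU (1 / 2 ^ (s * J)) M (v 1) -
            (slF F c D Xd g w s n M H cP le NR CR).vU (1 / 2 ^ (s * J)) M (v 0)|)) ≤
      δm + 2 * η := by
  obtain ⟨K, hK, hs⟩ := nat_F D
  refine ⟨K, hK, ?_⟩
  intro m J F A c Xd g w s t τ n M H cP ξ le NR CR gd sl nt nτ s₀ β δm e e₀ Bn Sl nat η hA hM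
    hs0 hw0 hwJ hδm hdeg hle hN hrel hsl hb hgd hKn hnat
  classical
  have hp := isLaw_cond F.isLaw hA
  have hq := cpn_law hp (rX F A c D w t τ n nt H) 1
  have Q0 := hq.nonneg
  have hsep := sep_pair (n := n) hw0 hwJ hA hδm hN
  have m2 := fun i => (Pool.MIC.Marg.Pb_eq (cpn_marg hp.nonneg (rX F A c D w t τ n nt H) 1 i)
    (fun ω => ¬ gd ω)).le.trans hgd
  have hG : ∀ x : ℝ, (0 : ℝ) < 2 ^ x := fun x => Real.rpow_pos_of_pos (by norm_num) _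
  refine le_trans (Pb_mono Q0 (B := fun v =>
    (|(derivative (opl F c w H 2 (v 1))).eval (rt F ⌊w * J⌋₊ (v 0)) -
        (derivative (opl F c w H 2 (v 0))).eval (rt F ⌊w * J⌋₊ (v 0))| <
          2 ^ (-((nτ - (τ - w) + β) * J))) ∨ ((¬ gd (v 0)) ∨ (¬ gd (v 1))))
            fun v hv hbad => ?_) ?_
  · by_contra hcon
    rw [not_or, not_or, not_lt, not_not, not_not] at hcon
    obtain ⟨k1, k4, k5⟩ := hcon
    obtain ⟨hpv, hr⟩ := cpn_pos hp.nonneg _ 1 v hv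
    have hA0 := cond_A (hpv 0)
    have hA1 := cond_A (hpv 1)
    have hr1 := hr 1
    have hT : F.T (v 1) = F.T (v 0) := congrArg (fun x => x.1.1.2.1) hr1
    have hf : f2C F c D w n H (v 1) = f2C F c D w n H (v 0) :=
      congrArg (fun x => x.1.2.2.1) hr1
    obtain ⟨j1, j2⟩ := hs (Xd := Xd) (g := g) (s := s) (M := M) (cP := cP) (le := le)
      (NR := NR) (CR := CR) (Bn := Bn) (s₀ := 2 ^ (-((nτ - (τ - w) + β) * J)))
      (sl := sl (v 0)) (Sl := Sl) (e₀ := e₀) hM hs0 hwJ hdeg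
      (fun i => hle _ (cond_A (hpv i))) hT hf.symm (fun i => by
        fin_cases i
        · exact hb _ hA0 k4
        · exact hb _ hA1 k5) (hrel _ _ hA0 hA1 k4 k5 hr1.symm) (hsl _ hA0 k4) k1
    refine hbad ⟨j1.trans hnat, le_trans ?_ j2⟩
    have a1 : (2 : ℝ) ^ (g * J) * 2 ^ (-((nτ - (τ - w) + β) * J)) =
        2 ^ ((g - nτ + (τ - w) - β) * J) := by
      rw [← Real.rpow_add (by norm_num)]
      congr 1
      ring
    have a3 : K * (1 / 2 ^ ((n 2 - g) * J)) ≤ 2 ^ ((g - nτ + (τ - w) - β) * J) / 2 := by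
      rw [mul_one_div, div_le_div_iff₀ (hG _) (by norm_num)]
      have e1 : (2 : ℝ) ^ ((g - nτ + (τ - w) - β) * J) * 2 ^ ((n 2 - g) * J) =
          2 ^ ((n 2 - nτ + (τ - w) - β) * J) := by
        rw [← Real.rpow_add (by norm_num)]
        congr 1
        ring
      rw [e1]
      linarith
    rw [a1]
    linarith
  · have b2 := (Pb_or Q0 (fun v => ¬ gd (v 0)) (fun v => ¬ gd (v 1))).trans
      (add_le_add (m2 0) (m2 1))
    have b1 := (Pb_or Q0 (fun v => |(derivative (opl F c w H 2 (v 1))).eval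
      (rt F ⌊w * J⌋₊ (v 0)) - (derivative (opl F c w H 2 (v 0))).eval (rt F ⌊w * J⌋₊ (v 0))| <
          2 ^ (-((nτ - (τ - w) + β) * J))) _).trans (add_le_add hsep b2)
    refine b1.trans (le_of_eq ?_)
    ring

end Pool.NA55
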