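import Pool.Agent.H55.NA.Sam
import Pool.Agent.H36.NA.Use
import Pool.Agent.H54.ND.Rla
import Pool.Agent.H57.AVG.HiJ

/-!
# The relations of the star lemma in the letters of the near-alive step

`uc_near`: the coded path of `c 2` is near the own path. `uc_aff`: with equal codes of the orders
`≥ 2` the difference of two coded paths is affine. `sam_F`, `star_F`, `nat_F`: `SamR`, `StarR` and the
relation of the velocities for the record `slF`.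
-/

set_option autoImplicit false

namespace Pool.NA55

open Finset Real Polynomial
open Pool.Agent.H49.Ent Pool.Agent.H32.Dense Pool.STK Pool.KA Pool.KSAT Pool.K2S Pool.PB Pool.GEN
open Pool.S6C Pool.RCD Pool.LA91 Pool.OWN68 Pool.CHT
open Pool.BFL (Pb)
open Pool.NDC42 (hgC pcC x0 xn xg rP LbW)
open Pool.PB.Trl (rt rt_mem)
open Pool.AVG5 (jt jt_le jt_sub jt_zero jt_one of_fl)
open Pool.NA36 (opl opl_deg f2C f1C tcd tct)
open Pool.SL77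

variable {m J : ℕ}

section

variable {F : Fam m J} {A : F.Ω → Prop} {c : ℕ → Fin m} {D : ℕ} {w : ℝ} {n : ℕ → ℝ}
  {H : LnT F → ℕ → MvPolynomial (Option (Fin m)) ℝ}

/-- **The coded path is near the own path.** -/
theorem uc_near (hdeg : ∀ l ≤ 3, ∀ x, (H x l).totalDegree ≤ D) (g : ℝ) (ω : F.Ω) {s : ℝ}
    (hs : |s| ≤ 1) :
    |(cpl (2 ^ ((n 2 - g) * J)) (pcC F c D w H 2 0 (n 2) ω)).eval s -
      2 ^ (g * J) * (opl F c w H 2 ω).eval s| ≤ 2 ^ (D + 2) * (1 / 2 ^ ((n 2 - g) * J)) ∧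
    |(derivative (cpl (2 ^ ((n 2 - g) * J)) (pcC F c D w H 2 0 (n 2) ω))).eval s -
      2 ^ (g * J) * (derivative (opl F c w H 2 ω)).eval s| ≤
        2 ^ (D + 2) * (1 / 2 ^ ((n 2 - g) * J)) := by
  obtain ⟨σ, hσ⟩ : ∃ σ : ℝ, σ = 2 ^ ((n 2 - g) * J) := ⟨_, rfl⟩
  have hσ0 : 0 < σ := by rw [hσ]; exact Real.rpow_pos_of_pos (by norm_num) _
  have hn0 : (0 : ℝ) < 2 ^ (n 2 * J) := Real.rpow_pos_of_pos (by norm_num) _
  have hg0 : (0 : ℝ) < 2 ^ (g * J) := Real.rpow_pos_of_pos (by norm_num) _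
  have hng : (2 : ℝ) ^ (n 2 * J) = σ * 2 ^ (g * J) := by
    rw [hσ, ← Real.rpow_add (by norm_num)]
    congr 1
    ring
  rw [← hσ]
  obtain ⟨P, hP⟩ : ∃ P : ℝ[X], P = cpl σ (pcC F c D w H 2 0 (n 2) ω) -
    C (2 ^ (g * J)) * opl F c w H 2 ω := ⟨_, rfl⟩
  have hod : (opl F c w H 2 ω).natDegree ≤ D + 1 := opl_deg hdeg (by norm_num) ω
  have hPd : P.natDegree ≤ D + 1 := by
    rw [hP]
    exact (natDegree_sub_le _ _).trans (max_le (cpl_deg _ _)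
      ((natDegree_C_mul_le _ _).trans hod))
  have hco : ∀ i, |P.coeff i| ≤ 1 / σ := by
    intro i
    rcases Nat.lt_or_ge (D + 1) i with h1 | h1
    · rw [coeff_eq_zero_of_natDegree_lt (hPd.trans_lt h1), abs_zero]
      positivity
    · have e1 : (cpl σ (pcC F c D w H 2 0 (n 2) ω)).coeff i =
          ((⌊(2 : ℝ) ^ (n 2 * J) * (opl F c w H 2 ω).coeff i⌋ : ℤ) : ℝ) / σ := by
        have h2 := cpl_coeff σ (pcC F c D w H 2 0 (n 2) ω) ⟨i, by omega⟩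
        rw [show ((⟨i, by omega⟩ : Fin (D + 1 + 1)) : ℕ) = i from rfl] at h2
        rw [h2]
        unfold pcC Pool.AVG71.cod
        dsimp only
        rw [if_pos (Nat.zero_le _)]
        rfl
      rw [hP, coeff_sub, coeff_C_mul, e1]
      obtain ⟨y, hy⟩ : ∃ y, y = (opl F c w H 2 ω).coeff i := ⟨_, rfl⟩
      rw [← hy, hng]
      have e2 := Int.floor_le (σ * 2 ^ (g * J) * y)
      have e3 := Int.lt_floor_add_one (σ * 2 ^ (g * J) * y)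
      have e4 : ((⌊σ * 2 ^ (g * J) * y⌋ : ℤ) : ℝ) / σ - 2 ^ (g * J) * y =
          (((⌊σ * 2 ^ (g * J) * y⌋ : ℤ) : ℝ) - σ * 2 ^ (g * J) * y) / σ := by
        field_simp
      rw [e4, abs_div, abs_of_pos hσ0]
      refine div_le_div_of_nonneg_right ?_ hσ0.le
      rw [abs_le]
      constructor <;> linarith
  have h0 := jt_le hPd hs (by positivity : (0 : ℝ) ≤ 1 / σ) (a := 0) fun i _ => hco i
  have h1 := jt_le hPd hs (by positivity : (0 : ℝ) ≤ 1 / σ) (a := 1) fun i _ => hco i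
  rw [jt_zero, hP, eval_sub, eval_mul, eval_C] at h0
  rw [jt_one, hP, derivative_sub, derivative_C_mul, eval_sub, eval_mul, eval_C] at h1
  exact ⟨h0, h1⟩

/-- **The difference of two coded paths is affine.** -/
theorem uc_aff {σ : ℝ} {ω ω' : F.Ω} (h : f2C F c D w n H ω = f2C F c D w n H ω') :
    derivative (derivative (cpl σ (pcC F c D w H 2 0 (n 2) ω) -
      cpl σ (pcC F c D w H 2 0 (n 2) ω'))) = 0 := by
  obtain ⟨P, hP⟩ : ∃ P : ℝ[X], P = cpl σ (pcC F c D w H 2 0 (n 2) ω) -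
    cpl σ (pcC F c D w H 2 0 (n 2) ω') := ⟨_, rfl⟩
  rw [← hP]
  have hPd : P.natDegree ≤ D + 1 := by
    rw [hP]
    exact (natDegree_sub_le _ _).trans (max_le (cpl_deg _ _) (cpl_deg _ _))
  have hco : ∀ i, 2 ≤ i → P.coeff i = 0 := by
    intro i hi
    rcases Nat.lt_or_ge (D + 1) i with h1 | h1
    · exact coeff_eq_zero_of_natDegree_lt (hPd.trans_lt h1)
    · have h2 := congrFun h ⟨i, by omega⟩
      unfold f2C pcC Pool.AVG71.cod at h2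
      dsimp only at h2
      rw [if_pos hi, if_pos hi] at h2
      have e1 : ∀ ν : F.Ω, (cpl σ (pcC F c D w H 2 0 (n 2) ν)).coeff i =
          ((pcC F c D w H 2 0 (n 2) ν ⟨i, by omega⟩ : ℤ) : ℝ) / σ := fun ν => by
        have h3 := cpl_coeff σ (pcC F c D w H 2 0 (n 2) ν) ⟨i, by omega⟩
        rwa [show ((⟨i, by omega⟩ : Fin (D + 1 + 1)) : ℕ) = i from rfl] at h3
      rw [hP, coeff_sub, e1, e1]
      unfold pcC Pool.AVG71.cod
      dsimp only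
      rw [if_pos (Nat.zero_le _), if_pos (Nat.zero_le _), h2, sub_self]
  ext i
  rw [coeff_derivative, coeff_derivative, hco (i + 1 + 1) (by omega), zero_mul, zero_mul,
    coeff_zero]

/-- The height of the own path at the time. -/
theorem opl_hg (hw : ⌊w * J⌋₊ ≤ J) {l : ℕ} {s : ℝ} {ω ω' : F.Ω}
    (h : hgC F c w H l s ω = hgC F c w H l s ω') (hT : F.T ω = F.T ω') :
    |(opl F c w H l ω).eval (rt F ⌊w * J⌋₊ ω) - (opl F c w H l ω').eval (rt F ⌊w * J⌋₊ ω)| ≤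
      1 / 2 ^ (s * J) := by
  have h1 := Pool.ND54.hg_near hw h
  have h2 : rt F ⌊w * J⌋₊ ω' = rt F ⌊w * J⌋₊ ω := Pool.NDD66.rt_congr hT.symm
  rw [h2] at h1
  exact h1

/-- The first Taylor coefficient of the own path. -/
theorem opl_jet (hw : ⌊w * J⌋₊ ≤ J) {l : ℕ} (ω : F.Ω) :
    (derivative (opl F c w H l ω)).eval (rt F ⌊w * J⌋₊ ω) =
      ojet F (c l) 1 (H (slam F ⌊w * J⌋₊ ω) l) ω / 2 ^ ⌊w * J⌋₊ := by
  rw [← jt_one]
  have h1 := Pool.AVG57.ojet_tay F hw ω (c l) (fun s (_ : Fin m) => H s l) 1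
  have h2 : ((Nat.factorial 1 : ℕ) : ℝ) * (2 ^ ⌊w * J⌋₊) ^ 1 = 2 ^ ⌊w * J⌋₊ := by
    rw [Nat.factorial_one, Nat.cast_one, one_mul, pow_one]
  rw [h2] at h1
  exact h1

end

/-- **The relations of one sample.** -/
theorem sam_F (D : ℕ) : ∃ K : ℝ, 1 ≤ K ∧ ∀ {m J : ℕ} {F : Fam m J} {c : ℕ → Fin m} {Xd : ℕ}
    {g w s : ℝ} {n : ℕ → ℝ} {M : ℕ} {H : LnT F → ℕ → MvPolynomial (Option (Fin m)) ℝ}
    {cP : LnT F → ℝ[X]} {ξ : Type} {le : LnT F → ξ × (Fin (D + 1 + 1) → ℤ)}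
    {NR CR : ξ × (Fin (D + 1 + 1) → ℤ) → ℝ[X]} {ω : F.Ω} {κ δ Bn Bu εg Y : ℝ},
    (∀ l ≤ 3, ∀ x, (H x l).totalDegree ≤ D) →
    (le (slam F ⌊w * J⌋₊ ω)).2 = pcC F c D w H 2 0 (n 2) ω →
    (NR (le (slam F ⌊w * J⌋₊ ω))).natDegree ≤ D + 1 →
    (∀ τ ∈ Set.Icc (0 : ℝ) 1, |(opl F c w H 3 ω).eval τ -
      (NR (le (slam F ⌊w * J⌋₊ ω))).eval τ - κ| ≤ δ) →
    (∀ τ ∈ Set.Icc (0 : ℝ) 1, |(opl F c w H 3 ω).eval τ| ≤ Bn) →
    (∀ τ ∈ Set.Icc (0 : ℝ) 1, 2 ^ (g * J) * |(opl F c w H 2 ω).eval τ| ≤ Bu) →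
    K * (Bu + 1 / 2 ^ ((n 2 - g) * J)) ≤ 1 → K * 2 ^ Xd * δ ≤ εg →
    K * 2 ^ Xd * (Bn + δ) ≤ Y →
    SamR (slF F c D Xd g w s n M H cP le NR CR) εg Y ω := by
  obtain ⟨K₀, hK₀, hs⟩ := samX (D + 1)
  obtain ⟨K, hK⟩ : ∃ K : ℝ, K = K₀ * 2 ^ (D + 2) := ⟨_, rfl⟩
  have h2D : (1 : ℝ) ≤ 2 ^ (D + 2) := one_le_pow₀ (by norm_num)
  have hK0 : K₀ ≤ K := by
    rw [hK]
    exact le_mul_of_one_le_right (by linarith) h2D
  refine ⟨K, by linarith, ?_⟩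
  intro m J F c Xd g w s n M H cP ξ le NR CR ω κ δ Bn Bu εg Y hdeg hle hN hcl hbn hbu hB hεg hY
  have hσ0 : (0 : ℝ) < 2 ^ ((n 2 - g) * J) := Real.rpow_pos_of_pos (by norm_num) _
  have hg0 : (0 : ℝ) < 2 ^ (g * J) := Real.rpow_pos_of_pos (by norm_num) _
  have hδ0 : 0 ≤ δ := (abs_nonneg _).trans (hcl 0 ⟨le_rfl, zero_le_one⟩)
  have hBn0 : 0 ≤ Bn := (abs_nonneg _).trans (hbn 0 ⟨le_rfl, zero_le_one⟩)
  have hBu0 : 0 ≤ Bu := le_trans (by positivity) (hbu 0 ⟨le_rfl, zero_le_one⟩)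
  refine hs (κ := κ) (δ := δ) (Bn := Bn) (Bu := Bu + 2 ^ (D + 2) * (1 / 2 ^ ((n 2 - g) * J)))
    (opl_deg hdeg le_rfl ω) hN (cpl_deg _ _) hcl hbn (fun τ hτ => ?_) ?_ ?_ ?_
  · have h1 := (uc_near (c := c) (w := w) (n := n) hdeg g ω (s := τ) (by
      rw [abs_of_nonneg hτ.1]
      exact hτ.2)).1
    have h2 := hbu τ hτ
    show |(cpl (2 ^ ((n 2 - g) * J)) (le (slam F ⌊w * J⌋₊ ω)).2).eval τ| ≤ _
    rw [hle]
    have h3 : |2 ^ (g * J) * (opl F c w H 2 ω).eval τ| ≤ Bu := by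
      rw [abs_mul, abs_of_pos hg0]
      exact h2
    obtain ⟨a, ha⟩ : ∃ a, a = (cpl (2 ^ ((n 2 - g) * J)) (pcC F c D w H 2 0 (n 2) ω)).eval τ :=
      ⟨_, rfl⟩
    obtain ⟨b, hb⟩ : ∃ b, b = 2 ^ (g * J) * (opl F c w H 2 ω).eval τ := ⟨_, rfl⟩
    rw [← ha, ← hb] at h1
    rw [← hb] at h3
    rw [← ha]
    have h4 := abs_add_le (a - b) b
    rw [sub_add_cancel] at h4
    linarith
  · refine le_trans ?_ hB
    rw [hK]
    have e1 : K₀ * (Bu + 2 ^ (D + 2) * (1 / 2 ^ ((n 2 - g) * J))) =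
        K₀ * Bu + K₀ * 2 ^ (D + 2) * (1 / 2 ^ ((n 2 - g) * J)) := by ring
    have e2 : K₀ * 2 ^ (D + 2) * (Bu + 1 / 2 ^ ((n 2 - g) * J)) =
        K₀ * 2 ^ (D + 2) * Bu + K₀ * 2 ^ (D + 2) * (1 / 2 ^ ((n 2 - g) * J)) := by ring
    rw [e1, e2]
    rw [← hK]
    have := mul_le_mul_of_nonneg_right hK0 hBu0
    linarith
  · refine le_trans ?_ hεg
    gcongr
  · refine le_trans ?_ hY
    gcongr

/-- **The relations of a star.** -/
theorem star_F (D : ℕ) : ∃ K : ℝ, 1 ≤ K ∧ ∀ {m J : ℕ} {F : Fam m J} {c : ℕ → Fin m} {Xd : ℕ}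
    {g w s : ℝ} {n : ℕ → ℝ} {M : ℕ} {H : LnT F → ℕ → MvPolynomial (Option (Fin m)) ℝ}
    {cP : LnT F → ℝ[X]} {ξ : Type} {le : LnT F → ξ × (Fin (D + 1 + 1) → ℤ)}
    {NR CR : ξ × (Fin (D + 1 + 1) → ℤ) → ℝ[X]} {v : Fin 2 → F.Ω}
    {ε₀ Bn s₀ s₁ ε εu δ θ : ℝ}, 1 ≤ M → 0 ≤ s → ⌊w * J⌋₊ ≤ J →
    (∀ l ≤ 3, ∀ x, (H x l).totalDegree ≤ D) →
    (∀ i, (le (slam F ⌊w * J⌋₊ (v i))).2 = pcC F c D w H 2 0 (n 2) (v i)) →
    F.T (v 1) = F.T (v 0) → hgC F c w H 2 (n 2) (v 0) = hgC F c w H 2 (n 2) (v 1) →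
    f2C F c D w n H (v 0) = f2C F c D w n H (v 1) →
    |(opl F c w H 3 (v 0)).eval (rt F ⌊w * J⌋₊ (v 0)) -
      (opl F c w H 3 (v 1)).eval (rt F ⌊w * J⌋₊ (v 0))| ≤ ε₀ →
    (∀ i, ∀ τ ∈ Set.Icc (0 : ℝ) 1, |(opl F c w H 3 (v i)).eval τ| ≤ Bn) →
    |(derivative (opl F c w H 2 (v 0))).eval (rt F ⌊w * J⌋₊ (v 0)) -
      (derivative (opl F c w H 2 (v 1))).eval (rt F ⌊w * J⌋₊ (v 0))| ≤ s₁ →
    s₀ ≤ |(derivative (opl F c w H 2 (v 0))).eval (rt F ⌊w * J⌋₊ (v 0)) -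
      (derivative (opl F c w H 2 (v 1))).eval (rt F ⌊w * J⌋₊ (v 0))| →
    δ ≤ θ * (2 ^ (g * J) * s₀ - K * (1 / 2 ^ ((n 2 - g) * J))) →
    2 ^ (g * J) * s₁ + K * (1 / 2 ^ ((n 2 - g) * J)) ≤ θ * δ → 0 ≤ θ →
    2 ^ Xd * (ε₀ + K * Bn * (1 / 2 ^ (s * J) / M)) ≤ ε →
    K * (1 / 2 ^ ((n 2 - g) * J)) + θ * δ * (1 / 2 ^ (s * J) / M) ≤ εu →
    StarR (slF F c D Xd g w s n M H cP le NR CR) (1 / 2 ^ (s * J)) M ε εu δ θ v := by
  obtain ⟨K₀, hK₀, hst⟩ := starX (D + 1)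
  obtain ⟨K, hK⟩ : ∃ K : ℝ, K = K₀ + 2 ^ (D + 3) + 1 := ⟨_, rfl⟩
  have h2D : (0 : ℝ) < 2 ^ (D + 3) := by positivity
  refine ⟨K, by linarith, ?_⟩
  intro m J F c Xd g w s n M H cP ξ le NR CR v ε₀ Bn s₀ s₁ ε εu δ θ hM hs hwJ hdeg hle hT hh hf
    h3 hb h1 h0 hδ0 hδ1 hθ hε hεu
  have hσ0 : (0 : ℝ) < 2 ^ ((n 2 - g) * J) := Real.rpow_pos_of_pos (by norm_num) _
  have hg0 : (0 : ℝ) < 2 ^ (g * J) := Real.rpow_pos_of_pos (by norm_num) _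
  have hM0 : (1 : ℝ) ≤ M := by exact_mod_cast hM
  obtain ⟨ec, hec⟩ : ∃ ec : ℝ, ec = 1 / 2 ^ ((n 2 - g) * J) := ⟨_, rfl⟩
  have hec0 : 0 < ec := by rw [hec]; positivity
  obtain ⟨x, hx⟩ : ∃ x, x = rt F ⌊w * J⌋₊ (v 0) := ⟨_, rfl⟩
  have hxm : |x| ≤ 1 := by
    have := rt_mem F ⌊w * J⌋₊ (v 0)
    rw [hx, abs_of_nonneg this.1]
    exact this.2
  have hBn0 : 0 ≤ Bn := (abs_nonneg _).trans (hb 0 0 ⟨le_rfl, zero_le_one⟩)
  have hζ : (1 : ℝ) / 2 ^ (s * J) / M ≤ 1 := by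
    have e1 : (1 : ℝ) ≤ 2 ^ (s * J) :=
      Real.one_le_rpow (by norm_num) (mul_nonneg hs (Nat.cast_nonneg J))
    rw [div_div, div_le_one (by positivity)]
    nlinarith
  have hrt : rt F ⌊w * J⌋₊ (v 1) = rt F ⌊w * J⌋₊ (v 0) := Pool.NDD66.rt_congr hT
  -- the coded paths at the time
  have u0 := uc_near (c := c) (w := w) (n := n) hdeg g (v 0) (s := x) hxm
  have u1 := uc_near (c := c) (w := w) (n := n) hdeg g (v 1) (s := x) hxm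
  have e2 : (2 : ℝ) ^ (D + 3) = 2 * 2 ^ (D + 2) := by rw [pow_succ]; ring
  rw [← hec] at u0 u1 hδ0 hδ1 hεu
  rw [← hx] at h3 h1 h0
  obtain ⟨p0, hp0⟩ : ∃ p0, p0 = cpl (2 ^ ((n 2 - g) * J)) (pcC F c D w H 2 0 (n 2) (v 0)) :=
    ⟨_, rfl⟩
  obtain ⟨p1, hp1⟩ : ∃ p1, p1 = cpl (2 ^ ((n 2 - g) * J)) (pcC F c D w H 2 0 (n 2) (v 1)) :=
    ⟨_, rfl⟩
  have hq0 : cpl (2 ^ ((n 2 - g) * J)) (le (slam F ⌊w * J⌋₊ (v 0))).2 = p0 := by rw [hle, hp0]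
  have hq1 : cpl (2 ^ ((n 2 - g) * J)) (le (slam F ⌊w * J⌋₊ (v 1))).2 = p1 := by rw [hle, hp1]
  rw [← hp0] at u0
  rw [← hp1] at u1
  have haff : derivative (derivative (p0 - p1)) = 0 := by
    rw [hp0, hp1]
    exact uc_aff hf
  have hval : |(p0 - p1).eval x| ≤ (2 ^ (D + 3) + 1) * ec := by
    have h4 := opl_hg (c := c) (H := H) hwJ hh hT.symm
    rw [← hx] at h4
    obtain ⟨a, ha⟩ : ∃ a, a = (opl F c w H 2 (v 0)).eval x := ⟨_, rfl⟩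
    obtain ⟨b, hb'⟩ : ∃ b, b = (opl F c w H 2 (v 1)).eval x := ⟨_, rfl⟩
    have u01 := u0.1
    have u11 := u1.1
    rw [← ha] at h4 u01
    rw [← hb'] at h4 u11
    have h5 : |2 ^ (g * J) * a - 2 ^ (g * J) * b| ≤ ec := by
      rw [← mul_sub, abs_mul, abs_of_pos hg0]
      refine (mul_le_mul_of_nonneg_left h4 hg0.le).trans (le_of_eq ?_)
      rw [hec, mul_one_div, div_eq_div_iff (Real.rpow_pos_of_pos (by norm_num) _).ne' hσ0.ne',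
        one_mul, ← Real.rpow_add (by norm_num)]
      congr 1
      ring
    have e3 : (2 ^ (D + 3) + 1) * ec = 2 ^ (D + 2) * ec + 2 ^ (D + 2) * ec + ec := by
      rw [e2]
      ring
    rw [eval_sub, e3]
    rw [abs_le] at u01 u11 h5 ⊢
    constructor <;> linarith [u01.1, u01.2, u11.1, u11.2, h5.1, h5.2]
  obtain ⟨a, ha⟩ : ∃ a, a = (derivative (opl F c w H 2 (v 0))).eval x := ⟨_, rfl⟩
  obtain ⟨b, hb'⟩ : ∃ b, b = (derivative (opl F c w H 2 (v 1))).eval x := ⟨_, rfl⟩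
  have u02 := u0.2
  have u12 := u1.2
  rw [← ha] at h1 h0 u02
  rw [← hb'] at h1 h0 u12
  have e4 : 2 ^ (D + 3) * ec = 2 ^ (D + 2) * ec + 2 ^ (D + 2) * ec := by
    rw [e2]
    ring
  have hder : |(derivative (p0 - p1)).eval x - 2 ^ (g * J) * (a - b)| ≤ 2 ^ (D + 3) * ec := by
    rw [derivative_sub, eval_sub, e4, mul_sub]
    rw [abs_le] at u02 u12 ⊢
    constructor <;> linarith [u02.1, u02.2, u12.1, u12.2]
  have hgab : |2 ^ (g * J) * (a - b)| = 2 ^ (g * J) * |a - b| := by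
    rw [abs_mul, abs_of_pos hg0]
  have hKec : 2 ^ (D + 3) * ec ≤ K * ec := mul_le_mul_of_nonneg_right (by linarith) hec0.le
  have hKec2 : (2 ^ (D + 3) + 1) * ec ≤ K * ec :=
    mul_le_mul_of_nonneg_right (by linarith) hec0.le
  refine hst (x := x) (ζ := 1 / 2 ^ (s * J) / M) (ε₀ := ε₀) (εx := (2 ^ (D + 3) + 1) * ec)
    (Bn := Bn) (fun i => opl_deg hdeg le_rfl (v i)) ?_ ?_ hxm hζ h3 hb ?_ ?_ ?_ ?_ ?_ ?_
  · -- the same time
    have e3 : tct F w s (v 1) = tct F w s (v 0) := by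
      unfold tct tcd
      rw [hrt]
    have e4 : tdg F w s M (v 1) = tdg F w s M (v 0) := by
      unfold tdg
      rw [hrt, e3]
    show tct F w s (v 1) + 1 / 2 ^ (s * J) * ((tdg F w s M (v 1) : ℝ) / M) =
      tct F w s (v 0) + 1 / 2 ^ (s * J) * ((tdg F w s M (v 0) : ℝ) / M)
    rw [e3, e4]
  · have := (slF_time (F := F) (c := c) (D := D) (Xd := Xd) (g := g) (w := w) (s := s) (n := n)
      (M := M) hM (H := H) (cP := cP) (le := le) (NR := NR) (CR := CR) (v 0)).1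
    rw [hx]
    exact this
  · show derivative (derivative (cpl (2 ^ ((n 2 - g) * J)) (le (slam F ⌊w * J⌋₊ (v 0))).2 -
      cpl (2 ^ ((n 2 - g) * J)) (le (slam F ⌊w * J⌋₊ (v 1))).2)) = 0
    rw [hq0, hq1]
    exact haff
  · show |(cpl (2 ^ ((n 2 - g) * J)) (le (slam F ⌊w * J⌋₊ (v 0))).2 -
      cpl (2 ^ ((n 2 - g) * J)) (le (slam F ⌊w * J⌋₊ (v 1))).2).eval x| ≤ _
    rw [hq0, hq1]
    exact hval
  · show δ ≤ θ * |(derivative (cpl (2 ^ ((n 2 - g) * J)) (le (slam F ⌊w * J⌋₊ (v 0))).2 -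
      cpl (2 ^ ((n 2 - g) * J)) (le (slam F ⌊w * J⌋₊ (v 1))).2)).eval x|
    rw [hq0, hq1]
    refine hδ0.trans (mul_le_mul_of_nonneg_left ?_ hθ)
    have h5 := abs_sub_abs_le_abs_sub (2 ^ (g * J) * (a - b)) ((derivative (p0 - p1)).eval x)
    rw [abs_sub_comm, hgab] at h5
    have h6 := mul_le_mul_of_nonneg_left h0 hg0.le
    linarith
  · show |(derivative (cpl (2 ^ ((n 2 - g) * J)) (le (slam F ⌊w * J⌋₊ (v 0))).2 -
      cpl (2 ^ ((n 2 - g) * J)) (le (slam F ⌊w * J⌋₊ (v 1))).2)).eval x| ≤ θ * δ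
    rw [hq0, hq1]
    refine le_trans ?_ hδ1
    have h5 := abs_sub_abs_le_abs_sub ((derivative (p0 - p1)).eval x) (2 ^ (g * J) * (a - b))
    rw [hgab] at h5
    have h6 := mul_le_mul_of_nonneg_left h1 hg0.le
    linarith
  · refine le_trans (mul_le_mul_of_nonneg_left ?_ (by positivity)) hε
    have : K₀ * Bn * (1 / 2 ^ (s * J) / M) ≤ K * Bn * (1 / 2 ^ (s * J) / M) := by
      refine mul_le_mul_of_nonneg_right (mul_le_mul_of_nonneg_right (by linarith) hBn0) ?_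
      positivity
    linarith
  · linarith

/-- **The relation of the velocities of a pair**, and the size of the difference. -/
theorem nat_F (D : ℕ) : ∃ K : ℝ, 1 ≤ K ∧ ∀ {m J : ℕ} {F : Fam m J} {c : ℕ → Fin m} {Xd : ℕ}
    {g w s : ℝ} {n : ℕ → ℝ} {M : ℕ} {H : LnT F → ℕ → MvPolynomial (Option (Fin m)) ℝ}
    {cP : LnT F → ℝ[X]} {ξ : Type} {le : LnT F → ξ × (Fin (D + 1 + 1) → ℤ)}
    {NR CR : ξ × (Fin (D + 1 + 1) → ℤ) → ℝ[X]} {v : Fin 2 → F.Ω} {Bn s₀ sl Sl e₀ : ℝ},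
    1 ≤ M → 0 ≤ s → ⌊w * J⌋₊ ≤ J → (∀ l ≤ 3, ∀ x, (H x l).totalDegree ≤ D) →
    (∀ i, (le (slam F ⌊w * J⌋₊ (v i))).2 = pcC F c D w H 2 0 (n 2) (v i)) →
    F.T (v 1) = F.T (v 0) → f2C F c D w n H (v 0) = f2C F c D w n H (v 1) →
    (∀ i, ∀ τ ∈ Set.Icc (0 : ℝ) 1, |(opl F c w H 3 (v i)).eval τ| ≤ Bn) →
    |((derivative (opl F c w H 3 (v 1))).eval (rt F ⌊w * J⌋₊ (v 0)) -
      (derivative (opl F c w H 3 (v 0))).eval (rt F ⌊w * J⌋₊ (v 0))) -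
      sl * ((derivative (opl F c w H 2 (v 1))).eval (rt F ⌊w * J⌋₊ (v 0)) -
        (derivative (opl F c w H 2 (v 0))).eval (rt F ⌊w * J⌋₊ (v 0)))| ≤ e₀ →
    |sl| ≤ Sl → s₀ ≤ |(derivative (opl F c w H 2 (v 1))).eval (rt F ⌊w * J⌋₊ (v 0)) -
      (derivative (opl F c w H 2 (v 0))).eval (rt F ⌊w * J⌋₊ (v 0))| →
    |(slF F c D Xd g w s n M H cP le NR CR).vN (1 / 2 ^ (s * J)) M (v 1) -
      (slF F c D Xd g w s n M H cP le NR CR).vN (1 / 2 ^ (s * J)) M (v 0) -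
      (2 ^ Xd * (sl / 2 ^ (g * J))) *
        ((slF F c D Xd g w s n M H cP le NR CR).vU (1 / 2 ^ (s * J)) M (v 1) -
        (slF F c D Xd g w s n M H cP le NR CR).vU (1 / 2 ^ (s * J)) M (v 0))| ≤
      2 ^ Xd * (e₀ + K * Sl / 2 ^ (n 2 * J) + K * Bn * (1 / 2 ^ (s * J) / M)) ∧
    2 ^ (g * J) * s₀ - K * (1 / 2 ^ ((n 2 - g) * J)) ≤
      |(slF F c D Xd g w s n M H cP le NR CR).vU (1 / 2 ^ (s * J)) M (v 1) -
        (slF F c D Xd g w s n M H cP le NR CR).vU (1 / 2 ^ (s * J)) M (v 0)| := by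
  obtain ⟨K₀, hK₀, hst⟩ := natX (D + 1)
  obtain ⟨K, hK⟩ : ∃ K : ℝ, K = K₀ + 2 ^ (D + 3) := ⟨_, rfl⟩
  have h2D : (0 : ℝ) < 2 ^ (D + 3) := by positivity
  refine ⟨K, by linarith, ?_⟩
  intro m J F c Xd g w s n M H cP ξ le NR CR v Bn s₀ sl Sl e₀ hM hs hwJ hdeg hle hT hf hb hrel
    hsl h0
  have hσ0 : (0 : ℝ) < 2 ^ ((n 2 - g) * J) := Real.rpow_pos_of_pos (by norm_num) _
  have hg0 : (0 : ℝ) < 2 ^ (g * J) := Real.rpow_pos_of_pos (by norm_num) _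
  have hn0 : (0 : ℝ) < 2 ^ (n 2 * J) := Real.rpow_pos_of_pos (by norm_num) _
  have hM0 : (1 : ℝ) ≤ M := by exact_mod_cast hM
  obtain ⟨ec, hec⟩ : ∃ ec : ℝ, ec = 1 / 2 ^ ((n 2 - g) * J) := ⟨_, rfl⟩
  have hec0 : 0 < ec := by rw [hec]; positivity
  have hgec : ec / 2 ^ (g * J) = 1 / 2 ^ (n 2 * J) := by
    rw [hec, div_div, ← Real.rpow_add (by norm_num)]
    congr 2
    ring
  obtain ⟨x, hx⟩ : ∃ x, x = rt F ⌊w * J⌋₊ (v 0) := ⟨_, rfl⟩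
  have hxm : |x| ≤ 1 := by
    have := rt_mem F ⌊w * J⌋₊ (v 0)
    rw [hx, abs_of_nonneg this.1]
    exact this.2
  have hBn0 : 0 ≤ Bn := (abs_nonneg _).trans (hb 0 0 ⟨le_rfl, zero_le_one⟩)
  have hSl0 : 0 ≤ Sl := (abs_nonneg _).trans hsl
  have hζ : (1 : ℝ) / 2 ^ (s * J) / M ≤ 1 := by
    have e1 : (1 : ℝ) ≤ 2 ^ (s * J) :=
      Real.one_le_rpow (by norm_num) (mul_nonneg hs (Nat.cast_nonneg J))
    rw [div_div, div_le_one (by positivity)]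
    nlinarith
  have hrt : rt F ⌊w * J⌋₊ (v 1) = rt F ⌊w * J⌋₊ (v 0) := Pool.NDD66.rt_congr hT
  have u0 := (uc_near (c := c) (w := w) (n := n) hdeg g (v 0) (s := x) hxm).2
  have u1 := (uc_near (c := c) (w := w) (n := n) hdeg g (v 1) (s := x) hxm).2
  have e2 : (2 : ℝ) ^ (D + 3) = 2 * 2 ^ (D + 2) := by rw [pow_succ]; ring
  rw [← hec] at u0 u1 ⊢
  rw [← hx] at hrel h0
  obtain ⟨p0, hp0⟩ : ∃ p0, p0 = cpl (2 ^ ((n 2 - g) * J)) (pcC F c D w H 2 0 (n 2) (v 0)) :=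
    ⟨_, rfl⟩
  obtain ⟨p1, hp1⟩ : ∃ p1, p1 = cpl (2 ^ ((n 2 - g) * J)) (pcC F c D w H 2 0 (n 2) (v 1)) :=
    ⟨_, rfl⟩
  have hq0 : cpl (2 ^ ((n 2 - g) * J)) (le (slam F ⌊w * J⌋₊ (v 0))).2 = p0 := by rw [hle, hp0]
  have hq1 : cpl (2 ^ ((n 2 - g) * J)) (le (slam F ⌊w * J⌋₊ (v 1))).2 = p1 := by rw [hle, hp1]
  rw [← hp0] at u0
  rw [← hp1] at u1
  have haff : derivative (derivative (p0 - p1)) = 0 := by
    rw [hp0, hp1]
    exact uc_aff hf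
  obtain ⟨a, ha⟩ : ∃ a, a = (derivative (opl F c w H 2 (v 0))).eval x := ⟨_, rfl⟩
  obtain ⟨b, hb'⟩ : ∃ b, b = (derivative (opl F c w H 2 (v 1))).eval x := ⟨_, rfl⟩
  rw [← ha, ← hb'] at hrel h0
  rw [← ha] at u0
  rw [← hb'] at u1
  obtain ⟨z, hz⟩ : ∃ z, z = (derivative p1).eval x - (derivative p0).eval x := ⟨_, rfl⟩
  have e4 : 2 ^ (D + 3) * ec = 2 ^ (D + 2) * ec + 2 ^ (D + 2) * ec := by
    rw [e2]
    ring
  have hder : |z - 2 ^ (g * J) * (b - a)| ≤ 2 ^ (D + 3) * ec := by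
    rw [hz, e4, mul_sub]
    rw [abs_le] at u0 u1 ⊢
    constructor <;> linarith [u0.1, u0.2, u1.1, u1.2]
  have hgab : |2 ^ (g * J) * (b - a)| = 2 ^ (g * J) * |b - a| := by
    rw [abs_mul, abs_of_pos hg0]
  have hKec : 2 ^ (D + 3) * ec ≤ K * ec := mul_le_mul_of_nonneg_right (by linarith) hec0.le
  have hmain := hst (Ω := F.Ω) (Λ := LnT F) (D := D) (Xd := Xd) (G := 2 ^ (g * J))
    (l := slam F ⌊w * J⌋₊) (le := le)
    (nP := fun x => dv ⌊w * J⌋₊ (fun s (_ : Fin m) => H s 3) (c 3) x) (cP := cP)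
    (uc := fun e => cpl (2 ^ ((n 2 - g) * J)) e.2) (NR := NR) (CR := CR) (c0 := tct F w s)
    (t := tdg F w s M) (v := v) (M := M) (ρ0 := 1 / 2 ^ (s * J)) (x := x)
    (ζ := 1 / 2 ^ (s * J) / M) (Bn := Bn) (s := sl / 2 ^ (g * J))
    (e := e₀ + 2 ^ (D + 3) * Sl / 2 ^ (n 2 * J))
    (fun i => opl_deg hdeg le_rfl (v i)) (by
      have e3 : tct F w s (v 1) = tct F w s (v 0) := by
        unfold tct tcd
        rw [hrt]
      have e4 : tdg F w s M (v 1) = tdg F w s M (v 0) := by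
        unfold tdg
        rw [hrt, e3]
      show tct F w s (v 1) + 1 / 2 ^ (s * J) * ((tdg F w s M (v 1) : ℝ) / M) =
        tct F w s (v 0) + 1 / 2 ^ (s * J) * ((tdg F w s M (v 0) : ℝ) / M)
      rw [e3, e4]) (by
      have := (slF_time (F := F) (c := c) (D := D) (Xd := Xd) (g := g) (w := w) (s := s)
        (n := n) (M := M) hM (H := H) (cP := cP) (le := le) (NR := NR) (CR := CR) (v 0)).1
      rw [hx]
      exact this) hxm hζ hb (by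
      show derivative (derivative (cpl (2 ^ ((n 2 - g) * J)) (le (slam F ⌊w * J⌋₊ (v 0))).2 -
        cpl (2 ^ ((n 2 - g) * J)) (le (slam F ⌊w * J⌋₊ (v 1))).2)) = 0
      rw [hq0, hq1]
      exact haff) (by
      show |((derivative (opl F c w H 3 (v 1))).eval x -
          (derivative (opl F c w H 3 (v 0))).eval x) - sl / 2 ^ (g * J) *
        ((derivative (cpl (2 ^ ((n 2 - g) * J)) (le (slam F ⌊w * J⌋₊ (v 1))).2)).eval x -
          (derivative (cpl (2 ^ ((n 2 - g) * J)) (le (slam F ⌊w * J⌋₊ (v 0))).2)).eval x)| ≤ _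
      rw [hq0, hq1, ← hz]
      obtain ⟨y, hy⟩ : ∃ y, y = (derivative (opl F c w H 3 (v 1))).eval x -
        (derivative (opl F c w H 3 (v 0))).eval x := ⟨_, rfl⟩
      rw [← hy] at hrel ⊢
      have e3 : y - sl / 2 ^ (g * J) * z = (y - sl * (b - a)) -
          sl * ((z - 2 ^ (g * J) * (b - a)) / 2 ^ (g * J)) := by
        field_simp
        ring
      rw [e3]
      refine (abs_sub _ _).trans (add_le_add hrel ?_)
      rw [abs_mul, abs_div, abs_of_pos hg0]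
      calc |sl| * (|z - 2 ^ (g * J) * (b - a)| / 2 ^ (g * J)) ≤
          Sl * (2 ^ (D + 3) * ec / 2 ^ (g * J)) := by
            refine mul_le_mul hsl (div_le_div_of_nonneg_right hder hg0.le) (by positivity) hSl0
        _ = Sl * (2 ^ (D + 3) * (ec / 2 ^ (g * J))) := by ring
        _ = _ := by
            rw [hgec]
            ring)
  obtain ⟨m1, m2⟩ := hmain
  refine ⟨?_, ?_⟩
  · refine le_trans (le_of_eq rfl) (m1.trans ?_)
    refine mul_le_mul_of_nonneg_left ?_ (by positivity)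
    have h5 : 2 ^ (D + 3) * Sl / 2 ^ (n 2 * J) ≤ K * Sl / 2 ^ (n 2 * J) :=
      div_le_div_of_nonneg_right (mul_le_mul_of_nonneg_right (by linarith) hSl0) hn0.le
    have h6 : K₀ * Bn * (1 / 2 ^ (s * J) / M) ≤ K * Bn * (1 / 2 ^ (s * J) / M) := by
      refine mul_le_mul_of_nonneg_right (mul_le_mul_of_nonneg_right (by linarith) hBn0) ?_
      positivity
    linarith
  · have m3 : (slF F c D Xd g w s n M H cP le NR CR).vU (1 / 2 ^ (s * J)) M (v 1) -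
        (slF F c D Xd g w s n M H cP le NR CR).vU (1 / 2 ^ (s * J)) M (v 0) = z := by
      refine m2.trans ?_
      show (derivative (cpl (2 ^ ((n 2 - g) * J)) (le (slam F ⌊w * J⌋₊ (v 1))).2)).eval x -
          (derivative (cpl (2 ^ ((n 2 - g) * J)) (le (slam F ⌊w * J⌋₊ (v 0))).2)).eval x = z
      rw [hq0, hq1, hz]
    rw [m3]
    have h5 := abs_sub_abs_le_abs_sub (2 ^ (g * J) * (b - a)) z
    rw [abs_sub_comm, hgab] at h5
    have h6 := mul_le_mul_of_nonneg_left h0 hg0.le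
    linarith

end Pool.NA55
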