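import Pool.Agent.H55.NA.Evs
import Pool.Agent.H17.NA.Chf

/-!
# The relations of a general star

`gen_F`: `GenR` for the record `slF`. `gen_ev`: off a small event, over `rG`.
-/

set_option autoImplicit false

namespace Pool.NA55

open Finset Real Polynomial
open Pool.Agent.H49.Ent Pool.Agent.H32.Dense Pool.STK Pool.KA Pool.KSAT Pool.K2S Pool.PB Pool.GEN
open Pool.S6C Pool.RCD Pool.LA91 Pool.OWN68 Pool.CHT
open Pool.BFL (Pb)
open Pool.STB (Pb_mono Pb_or)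
open Pool.K2S (cpn)
open Pool.CLU (cpn_law cpn_pos cpn_marg)
open Pool.V0F (cR)
open Pool.NDC42 (hgC pcC x0 xn xg rP LbW)
open Pool.PB.Trl (rt rt_mem)
open Pool.NA36 (opl opl_deg f2C f1C tcd tct rX rG NaT)
open Pool.SL77 Pool.NA17

/-- **The relations of a general star**, one pair. -/
theorem gen_F (D : ℕ) : ∃ K : ℝ, 1 ≤ K ∧ ∀ {m J : ℕ} {F : Fam m J} {c : ℕ → Fin m} {Xd : ℕ}
    {g w s : ℝ} {n : ℕ → ℝ} {M : ℕ} {H : LnT F → ℕ → MvPolynomial (Option (Fin m)) ℝ}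
    {cP : LnT F → ℝ[X]} {ξ : Type} {le : LnT F → ξ × (Fin (D + 1 + 1) → ℤ)}
    {NR CR : ξ × (Fin (D + 1 + 1) → ℤ) → ℝ[X]} {v : Fin 2 → F.Ω}
    {ε₀ Bn Bu ε εu : ℝ}, 1 ≤ M → 0 ≤ s → ⌊w * J⌋₊ ≤ J →
    (∀ l ≤ 3, ∀ x, (H x l).totalDegree ≤ D) →
    (∀ i, (le (slam F ⌊w * J⌋₊ (v i))).2 = pcC F c D w H 2 0 (n 2) (v i)) →
    F.T (v 1) = F.T (v 0) → hgC F c w H 2 (n 2) (v 0) = hgC F c w H 2 (n 2) (v 1) →
    |(opl F c w H 3 (v 0)).eval (rt F ⌊w * J⌋₊ (v 0)) -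
      (opl F c w H 3 (v 1)).eval (rt F ⌊w * J⌋₊ (v 0))| ≤ ε₀ →
    (∀ i, ∀ τ ∈ Set.Icc (0 : ℝ) 1, |(opl F c w H 3 (v i)).eval τ| ≤ Bn) →
    (∀ i, ∀ τ ∈ Set.Icc (0 : ℝ) 1, 2 ^ (g * J) * |(opl F c w H 2 (v i)).eval τ| ≤ Bu) →
    2 ^ Xd * (ε₀ + K * Bn * (1 / 2 ^ (s * J) / M)) ≤ ε →
    K * (1 / 2 ^ ((n 2 - g) * J)) + K * (Bu + 1 / 2 ^ ((n 2 - g) * J)) *
      (1 / 2 ^ (s * J) / M) ≤ εu →
    GenR (slF F c D Xd g w s n M H cP le NR CR) (1 / 2 ^ (s * J)) M ε εu v := by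
  obtain ⟨K₀, hK₀, hext⟩ := ext4 (D + 1)
  obtain ⟨K, hK⟩ : ∃ K : ℝ, K = 2 * K₀ * 2 ^ (D + 3) := ⟨_, rfl⟩
  have h2D : (2 : ℝ) ≤ 2 ^ (D + 3) := by
    calc (2 : ℝ) = 2 ^ 1 := by norm_num
      _ ≤ 2 ^ (D + 3) := pow_le_pow_right₀ (by norm_num) (by omega)
  have hK1 : 2 * K₀ ≤ K := by
    rw [hK]
    exact le_mul_of_one_le_right (by linarith) (by linarith)
  have hK2 : 2 ^ (D + 3) + 1 ≤ K := by
    rw [hK]
    nlinarith
  refine ⟨K, by linarith, ?_⟩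
  intro m J F c Xd g w s n M H cP ξ le NR CR v ε₀ Bn Bu ε εu hM hs hwJ hdeg hle hT hh h3 hb hbu
    hε hεu
  have hσ0 : (0 : ℝ) < 2 ^ ((n 2 - g) * J) := Real.rpow_pos_of_pos (by norm_num) _
  have hg0 : (0 : ℝ) < 2 ^ (g * J) := Real.rpow_pos_of_pos (by norm_num) _
  have hM0 : (1 : ℝ) ≤ M := by exact_mod_cast hM
  obtain ⟨ec, hec⟩ : ∃ ec : ℝ, ec = 1 / 2 ^ ((n 2 - g) * J) := ⟨_, rfl⟩
  have hec0 : 0 < ec := by rw [hec]; positivity
  obtain ⟨x, hx⟩ : ∃ x, x = rt F ⌊w * J⌋₊ (v 0) := ⟨_, rfl⟩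
  obtain ⟨y, hy⟩ : ∃ y, y = (slF F c D Xd g w s n M H cP le NR CR).tm (1 / 2 ^ (s * J)) M
    (v 0) := ⟨_, rfl⟩
  have hyx : |y - x| ≤ 1 / 2 ^ (s * J) / M := by
    have := (slF_time (F := F) (c := c) (D := D) (Xd := Xd) (g := g) (w := w) (s := s) (n := n)
      (M := M) hM (H := H) (cP := cP) (le := le) (NR := NR) (CR := CR) (v 0)).1
    rw [hy, hx]
    exact this
  have hxm : |x| ≤ 1 := by
    have := rt_mem F ⌊w * J⌋₊ (v 0)
    rw [hx, abs_of_nonneg this.1]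
    exact this.2
  have hBn0 : 0 ≤ Bn := (abs_nonneg _).trans (hb 0 0 ⟨le_rfl, zero_le_one⟩)
  have hBu0 : 0 ≤ Bu := le_trans (by positivity) (hbu 0 0 ⟨le_rfl, zero_le_one⟩)
  have hζ : (1 : ℝ) / 2 ^ (s * J) / M ≤ 1 := by
    have e1 : (1 : ℝ) ≤ 2 ^ (s * J) :=
      Real.one_le_rpow (by norm_num) (mul_nonneg hs (Nat.cast_nonneg J))
    rw [div_div, div_le_one (by positivity)]
    nlinarith
  have hζ0 : (0 : ℝ) ≤ 1 / 2 ^ (s * J) / M := by positivity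
  have e2 : (2 : ℝ) ^ (D + 3) = 2 * 2 ^ (D + 2) := by rw [pow_succ]; ring
  rw [← hec] at hεu
  rw [← hx] at h3
  have hseg : ∀ z : ℝ, |z - x| ≤ |y - x| → |z| ≤ 4 := by
    intro z hz
    have h2 := hz.trans (hyx.trans hζ)
    rw [abs_le] at h2 hxm ⊢
    constructor <;> linarith [h2.1, h2.2, hxm.1, hxm.2]
  have hX0 : (0 : ℝ) < 2 ^ Xd := by positivity
  refine ⟨?_, ?_⟩
  · obtain ⟨P, hP⟩ : ∃ P : ℝ[X], P = opl F c w H 3 (v 0) - opl F c w H 3 (v 1) := ⟨_, rfl⟩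
    have hPd : P.natDegree ≤ D + 1 := by
      rw [hP]
      exact (natDegree_sub_le _ _).trans (max_le (opl_deg hdeg le_rfl _)
        (opl_deg hdeg le_rfl _))
    have hPs := hext P (Bn + Bn) hPd (fun τ hτ => by
      rw [hP, eval_sub]
      exact (abs_sub _ _).trans (add_le_add (hb 0 τ hτ) (hb 1 τ hτ)))
    show |(C (2 ^ Xd) * opl F c w H 3 (v 0)).eval _ -
      (C (2 ^ Xd) * opl F c w H 3 (v 1)).eval _| ≤ ε
    rw [← hy, eval_mul, eval_mul, eval_C, ← mul_sub, abs_mul, abs_of_pos hX0]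
    refine le_trans (mul_le_mul_of_nonneg_left ?_ hX0.le) hε
    have e1 : (opl F c w H 3 (v 0)).eval y - (opl F c w H 3 (v 1)).eval y = P.eval x +
        (P.eval y - P.eval x) := by
      rw [hP, eval_sub, eval_sub]
      ring
    rw [e1]
    refine (abs_add_le _ _).trans (add_le_add ?_ ?_)
    · rw [hP, eval_sub]
      exact h3
    · have h1 := mvt P (a := x) (b := y) (M := K₀ * (Bn + Bn)) fun s hs =>
        (hPs s (hseg s hs)).2.1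
      refine h1.trans ?_
      calc K₀ * (Bn + Bn) * |y - x| ≤ K₀ * (Bn + Bn) * (1 / 2 ^ (s * J) / M) :=
            mul_le_mul_of_nonneg_left hyx (by positivity)
        _ = 2 * K₀ * Bn * (1 / 2 ^ (s * J) / M) := by ring
        _ ≤ K * Bn * (1 / 2 ^ (s * J) / M) :=
            mul_le_mul_of_nonneg_right (mul_le_mul_of_nonneg_right hK1 hBn0) hζ0
  · obtain ⟨p0, hp0⟩ : ∃ p0, p0 = cpl (2 ^ ((n 2 - g) * J))
      (pcC F c D w H 2 0 (n 2) (v 0)) := ⟨_, rfl⟩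
    obtain ⟨p1, hp1⟩ : ∃ p1, p1 = cpl (2 ^ ((n 2 - g) * J))
      (pcC F c D w H 2 0 (n 2) (v 1)) := ⟨_, rfl⟩
    have hq0 : cpl (2 ^ ((n 2 - g) * J)) (le (slam F ⌊w * J⌋₊ (v 0))).2 = p0 := by
      rw [hle, hp0]
    have hq1 : cpl (2 ^ ((n 2 - g) * J)) (le (slam F ⌊w * J⌋₊ (v 1))).2 = p1 := by
      rw [hle, hp1]
    show |(cpl (2 ^ ((n 2 - g) * J)) (le (slam F ⌊w * J⌋₊ (v 0))).2 -
      cpl (2 ^ ((n 2 - g) * J)) (le (slam F ⌊w * J⌋₊ (v 1))).2).eval _| ≤ εu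
    rw [hq0, hq1, ← hy]
    have hUd : (p0 - p1).natDegree ≤ D + 1 := by
      rw [hp0, hp1]
      exact (natDegree_sub_le _ _).trans (max_le (cpl_deg _ _) (cpl_deg _ _))
    have hub : ∀ i, ∀ τ ∈ Set.Icc (0 : ℝ) 1, |(cpl (2 ^ ((n 2 - g) * J))
        (pcC F c D w H 2 0 (n 2) (v i))).eval τ| ≤ Bu + 2 ^ (D + 2) * ec := by
      intro i τ hτ
      have h1 := (uc_near (c := c) (w := w) (n := n) hdeg g (v i) (s := τ) (by
        rw [abs_of_nonneg hτ.1]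
        exact hτ.2)).1
      rw [← hec] at h1
      have h4 : |2 ^ (g * J) * (opl F c w H 2 (v i)).eval τ| ≤ Bu := by
        rw [abs_mul, abs_of_pos hg0]
        exact hbu i τ hτ
      obtain ⟨a, ha⟩ : ∃ a, a = (cpl (2 ^ ((n 2 - g) * J))
        (pcC F c D w H 2 0 (n 2) (v i))).eval τ := ⟨_, rfl⟩
      obtain ⟨b, hb⟩ : ∃ b, b = 2 ^ (g * J) * (opl F c w H 2 (v i)).eval τ := ⟨_, rfl⟩
      rw [← ha, ← hb] at h1
      rw [← hb] at h4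
      rw [← ha]
      have h5 := abs_add_le (a - b) b
      rw [sub_add_cancel] at h5
      linarith
    have hUs := hext (p0 - p1) (2 * (Bu + 2 ^ (D + 2) * ec)) hUd (fun τ hτ => by
      rw [eval_sub, hp0, hp1]
      have h1 := (abs_sub _ _).trans (add_le_add (hub 0 τ hτ) (hub 1 τ hτ))
      linarith)
    have hval : |(p0 - p1).eval x| ≤ (2 ^ (D + 3) + 1) * ec := by
      have u01 := (uc_near (c := c) (w := w) (n := n) hdeg g (v 0) (s := x) hxm).1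
      have u11 := (uc_near (c := c) (w := w) (n := n) hdeg g (v 1) (s := x) hxm).1
      rw [← hec, ← hp0] at u01
      rw [← hec, ← hp1] at u11
      have h4 := opl_hg (c := c) (H := H) hwJ hh hT.symm
      rw [← hx] at h4
      obtain ⟨a, ha⟩ : ∃ a, a = (opl F c w H 2 (v 0)).eval x := ⟨_, rfl⟩
      obtain ⟨b, hb'⟩ : ∃ b, b = (opl F c w H 2 (v 1)).eval x := ⟨_, rfl⟩
      rw [← ha] at h4 u01
      rw [← hb'] at h4 u11
      have h5 : |2 ^ (g * J) * a - 2 ^ (g * J) * b| ≤ ec := by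
        rw [← mul_sub, abs_mul, abs_of_pos hg0]
        refine (mul_le_mul_of_nonneg_left h4 hg0.le).trans (le_of_eq ?_)
        rw [hec, mul_one_div, div_eq_div_iff (Real.rpow_pos_of_pos (by norm_num) _).ne' hσ0.ne',
          one_mul, ← Real.rpow_add (by norm_num)]
        congr 1
        ring
      have e3 : (2 ^ (D + 3) + 1) * ec = 2 ^ (D + 2) * ec + 2 ^ (D + 2) * ec + ec := by
        rw [e2]
        ring
      rw [eval_sub, e3]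
      rw [abs_le] at u01 u11 h5 ⊢
      constructor <;> linarith [u01.1, u01.2, u11.1, u11.2, h5.1, h5.2]
    have h1 := mvt (p0 - p1) (a := x) (b := y) (M := K₀ * (2 * (Bu + 2 ^ (D + 2) * ec)))
      fun s hs => (hUs s (hseg s hs)).2.1
    have h2 : |(p0 - p1).eval y| ≤ |(p0 - p1).eval x| + |(p0 - p1).eval y - (p0 - p1).eval x| := by
      have := abs_add_le ((p0 - p1).eval x) ((p0 - p1).eval y - (p0 - p1).eval x)
      rwa [add_sub_cancel] at this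
    have h4 : K₀ * (2 * (Bu + 2 ^ (D + 2) * ec)) * |y - x| ≤
        K * (Bu + ec) * (1 / 2 ^ (s * J) / M) := by
      refine mul_le_mul ?_ hyx (abs_nonneg _)
        (mul_nonneg (by linarith) (add_nonneg hBu0 hec0.le))
      have e5 : K * (Bu + ec) = K * Bu + K * ec := by ring
      have e6 : K₀ * (2 * (Bu + 2 ^ (D + 2) * ec)) = 2 * K₀ * Bu +
          K₀ * (2 * 2 ^ (D + 2)) * ec := by ring
      have e7 : K₀ * (2 * 2 ^ (D + 2)) ≤ K := by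
        rw [hK, ← e2]
        have : 0 ≤ K₀ * 2 ^ (D + 3) := by positivity
        linarith
      rw [e5, e6]
      exact add_le_add (mul_le_mul_of_nonneg_right hK1 hBu0)
        (mul_le_mul_of_nonneg_right e7 hec0.le)
    have h5 : (2 ^ (D + 3) + 1) * ec ≤ K * ec := mul_le_mul_of_nonneg_right hK2 hec0.le
    linarith

/-- **The relations of a general star**, off a small event: `zp = rG`. -/
theorem gen_ev (D : ℕ) : ∃ K : ℝ, 1 ≤ K ∧ ∀ {m J : ℕ} {F : Fam m J} {A : F.Ω → Prop}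
    {c : ℕ → Fin m} {Xd : ℕ} {g w s t τ : ℝ} {n : ℕ → ℝ} {M : ℕ}
    {H : LnT F → ℕ → MvPolynomial (Option (Fin m)) ℝ}
    {cP : LnT F → ℝ[X]} {ξ : Type} {le : LnT F → ξ × (Fin (D + 1 + 1) → ℤ)}
    {NR CR : ξ × (Fin (D + 1 + 1) → ℤ) → ℝ[X]} {gd : F.Ω → Prop}
    {nt ε₀ Bn Bu ε εu η : ℝ}, 0 < Pe F.p A → 1 ≤ M → 0 ≤ s → ⌊w * J⌋₊ ≤ J →
    (∀ l ≤ 3, ∀ x, (H x l).totalDegree ≤ D) →
    (∀ ω, A ω → (le (slam F ⌊w * J⌋₊ ω)).2 = pcC F c D w H 2 0 (n 2) ω) →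
    (∀ ω ω', A ω → A ω' → gd ω → gd ω' →
      rG F A c D w t τ n nt H ω = rG F A c D w t τ n nt H ω' →
      |(opl F c w H 3 ω).eval (rt F ⌊w * J⌋₊ ω) -
        (opl F c w H 3 ω').eval (rt F ⌊w * J⌋₊ ω)| ≤ ε₀) →
    (∀ ω, A ω → gd ω → ∀ τ ∈ Set.Icc (0 : ℝ) 1, |(opl F c w H 3 ω).eval τ| ≤ Bn) →
    (∀ ω, A ω → gd ω → ∀ τ ∈ Set.Icc (0 : ℝ) 1,
      2 ^ (g * J) * |(opl F c w H 2 ω).eval τ| ≤ Bu) →
    Pb (Pool.Agent.H49.Ent.cond F.p A True) (fun ω => ¬ gd ω) ≤ η →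
    2 ^ Xd * (ε₀ + K * Bn * (1 / 2 ^ (s * J) / M)) ≤ ε →
    K * (1 / 2 ^ ((n 2 - g) * J)) + K * (Bu + 1 / 2 ^ ((n 2 - g) * J)) *
      (1 / 2 ^ (s * J) / M) ≤ εu →
    Pb (cpn (Pool.Agent.H49.Ent.cond F.p A True) (rG F A c D w t τ n nt H) 1)
      (fun v => ¬ GenR (slF F c D Xd g w s n M H cP le NR CR) (1 / 2 ^ (s * J)) M ε εu v) ≤
      2 * η := by
  obtain ⟨K, hK, hs⟩ := gen_F D
  refine ⟨K, hK, ?_⟩
  intro m J F A c Xd g w s t τ n M H cP ξ le NR CR gd nt ε₀ Bn Bu ε εu η hA hM hs0 hwJ hdeg hle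
    h3 hb hbu hgd hε hεu
  classical
  have hp := isLaw_cond F.isLaw hA
  have hq := cpn_law hp (rG F A c D w t τ n nt H) 1
  have Q0 := hq.nonneg
  have m2 := fun i => (Pool.MIC.Marg.Pb_eq (cpn_marg hp.nonneg (rG F A c D w t τ n nt H) 1 i)
    (fun ω => ¬ gd ω)).le.trans hgd
  refine le_trans (Pb_mono Q0 (B := fun v => (¬ gd (v 0)) ∨ (¬ gd (v 1)))
    fun v hv hbad => ?_) ?_
  · by_contra hcon
    rw [not_or, not_not, not_not] at hcon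
    obtain ⟨k4, k5⟩ := hcon
    obtain ⟨hpv, hr⟩ := cpn_pos hp.nonneg _ 1 v hv
    have hA0 := cond_A (hpv 0)
    have hA1 := cond_A (hpv 1)
    have hr1 := hr 1
    have hT : F.T (v 1) = F.T (v 0) := congrArg (fun x => x.1.1.2.1) hr1
    have hh : hgC F c w H 2 (n 2) (v 1) = hgC F c w H 2 (n 2) (v 0) :=
      congrArg (fun x => x.2.1.2) hr1
    exact hbad (hs hM hs0 hwJ hdeg (fun i => hle _ (cond_A (hpv i))) hT hh.symm
      (h3 _ _ hA0 hA1 k4 k5 hr1.symm) (fun i => by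
        fin_cases i
        · exact hb _ hA0 k4
        · exact hb _ hA1 k5) (fun i => by
        fin_cases i
        · exact hbu _ hA0 k4
        · exact hbu _ hA1 k5) hε hεu)
  · have b4 := (Pb_or Q0 (fun v => ¬ gd (v 0)) (fun v => ¬ gd (v 1))).trans
      (add_le_add (m2 0) (m2 1))
    refine b4.trans (le_of_eq ?_)
    ring

end Pool.NA55
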