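import Pool.Agent.H55.NA.Sta
import Pool.Agent.H55.NA.Fst
import Pool.Agent.H66.NDD.Rrl
import Pool.Agent.H77.STB.Nwd
import Pool.Agent.H36.NA.Ded

/-!
# The closeness of the target and the natural relation, from the nodes of a record

`lc_opt`: the line in the relative time. `own_op`: own paths from the own line. `gnl_star`: over one
near record of the ball `t` the own paths of `c 3` agree at the time to the natural digits of `t`.
`gnl_nat`: over one near record of the ball `τ` the velocities of the own paths of `c 3` and of `c 2`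
satisfy the natural relation with the slope of the chart of the ball.
-/

set_option autoImplicit false

namespace Pool.NA55

open Finset Real MvPolynomial
open Pool.Agent.H49.Ent Pool.Agent.H32.Dense Pool.STK Pool.KA Pool.KSAT Pool.K2S Pool.PB Pool.GEN
open Pool.S6C Pool.RCD Pool.LA91 Pool.OWN68 Pool.CHT Pool.D2R Pool.NDD66 Pool.NA3
open Pool.V0F (cR)
open Pool.NDC42 (hgC pcC x0 xn xg rP LbW)
open Pool.PB.Trl (rt rt_mem t_rt)
open Pool.NA36 (opl opl_deg f2C f1C vpC tcd tct rX rG X0 dcR)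
open Pool.STB77 (Nls opt opt_none opt_some)

variable {m J : ℕ}

/-- **The line in the relative time.** -/
theorem lc_opt (F : Fam m J) (t : ℕ) (ν : F.Ω) (s : ℝ) :
    (fun o => (lc t (slam F t ν) o).eval s) = opt F ν ((((slam F t ν).2.2 : ℝ) + s) / 2 ^ t) := by
  funext o
  rw [eval_lc']
  cases o with
  | none =>
    rw [opt_none]
    rfl
  | some k =>
    rw [opt_some]
    have e1 : blo (slam F t ν) ((((slam F t ν).2.2 : ℝ) + s) / 2 ^ t) (some k) =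
        F.u ν k + F.d ν k * ((((slam F t ν).2.2 : ℝ) + s) / 2 ^ t) := rfl
    rw [e1]
    unfold Fam.x
    ring

/-- **Own paths from the own line.** -/
theorem own_op {F : Fam m J} {t : ℕ} (ht : t ≤ J) {c : ℕ → Fin m}
    {χ : ℕ → MvPolynomial (Option (Fin m)) ℝ} {ν : F.Ω} {l : ℕ} {b : ℝ}
    (h : ∀ t', |t' - F.t ν| ≤ 1 / 2 ^ t →
      |opt F ν t' (some (c l)) - eval (opt F ν t') (χ l)| ≤ b) :
    ∀ s ∈ Set.Icc (0 : ℝ) 1, |(op t c χ (slam F t ν) l).eval s| ≤ b := by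
  intro s hs
  have h1 := lc_opt F t ν s
  rw [op_eval, h1]
  have h2 : (lc t (slam F t ν) (some (c l))).eval s =
      opt F ν ((((slam F t ν).2.2 : ℝ) + s) / 2 ^ t) (some (c l)) := congrFun h1 (some (c l))
  rw [h2]
  refine h _ ?_
  have e1 : F.t ν = (((slam F t ν).2.2 : ℝ) + rt F t ν) / 2 ^ t := by
    have h3 := eval_lc F ht ν none
    rw [eval_lc'] at h3
    exact h3.symm
  have e2 : (((slam F t ν).2.2 : ℝ) + s) / 2 ^ t - F.t ν = (s - rt F t ν) / 2 ^ t := by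
    rw [e1]
    ring
  rw [e2, abs_div, abs_of_pos (show (0 : ℝ) < 2 ^ t by positivity)]
  refine div_le_div_of_nonneg_right ?_ (by positivity)
  have h1 := rt_mem F t ν
  rw [abs_le]
  constructor <;> linarith [hs.1, hs.2, h1.1, h1.2]

/-- The own path only depends on one chart. -/
theorem op_congr {ζ : Type} (w : ℕ) (c : ℕ → Fin m) {ψ ψ' : ℕ → MvPolynomial (Option (Fin m)) ℝ}
    (s : ((Fin m → ℝ) × (Fin m → ℝ)) × ζ × ℕ) {l : ℕ} (h : ψ l = ψ' l) :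
    op w c ψ s l = op w c ψ' s l := by
  unfold op
  rw [h]

/-- **Two samples with the same charts of the ball `t`**, from a list of nodes. -/
theorem gnl_a (D : ℕ) : ∃ C : ℕ, 1 ≤ C ∧ ∀ {m J : ℕ} {F : Fam m J} {c : ℕ → Fin m}
    {Dr Nn s q Bx iw it : ℕ} {R : ℕ → ℕ → Prop} {a w : ℕ → ℕ} {e E : ℕ} {g : ℕ → ℕ → ℕ} {h : ℕ}
    {κ : ℝ} {A : F.Ω → Prop} {G : ℕ → PtT F → ℕ → MvPolynomial (Option (Fin m)) ℝ}
    {H : ℕ → LnT F → ℕ → MvPolynomial (Option (Fin m)) ℝ} {ω ω' : F.Ω},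
    Set.InjOn c (Set.Iio 3) → Nls F c 3 D Dr Nn s R a w e E g h κ A G H →
    iw < Nn → it < Nn → R iw it → a iw = w iw → a it = w it → a iw ≤ a it → a it ≤ J →
    (∀ l ≤ 2, g it l ≤ g iw l + q) → A ω → A ω' → F.T ω' = F.T ω →
    (∀ l ≤ 3, H iw (slam F (w iw) ω') l = H iw (slam F (w iw) ω) l) →
    (∀ l ≤ 3, G it (ptr F J ω') l = G it (ptr F J ω) l) →
    (∀ l ≤ 2, |(F.x ω' (c l) - eval (bt F ω') (H iw (slam F (w iw) ω) l)) -
      (F.x ω (c l) - eval (bt F ω) (H iw (slam F (w iw) ω) l))| ≤ 1 / 2 ^ (g iw l + Bx)) →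
    3 * (q + C * (s + 1)) ≤ Bx → g it 3 + 3 * (q + C * (s + 1)) ≤ g iw 3 + Bx →
    |(op (w iw) c (H iw (slam F (w iw) ω)) (slam F (w iw) ω') 3).eval (rt F (w iw) ω) -
      (op (w iw) c (H iw (slam F (w iw) ω)) (slam F (w iw) ω) 3).eval (rt F (w iw) ω)| ≤
        2 ^ (C * (s + 1)) / 2 ^ g it 3 := by
  obtain ⟨C, hC, hst⟩ := star_geo D 2
  refine ⟨C, hC, ?_⟩
  intro m J F c Dr Nn s q Bx iw it R a w e E g h κ A G H ω ω' hc hN hiw hit hR haw hat hwt htJ hgq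
    hω hω' hT hψ hχ hh hB1 hB2
  obtain ⟨t, ht⟩ : ∃ t, t = a it := ⟨_, rfl⟩
  have k1 : ∀ l ≤ 2 + 1, ∀ σ ∈ Set.Icc (0 : ℝ) 1,
      |(op (a it) c (G it (ptr F J ω)) (slam F (a it) ω) l).eval σ| ≤ 2 ^ s / 2 ^ g it l :=
    fun l hl => own_op htJ (fun t' ht' => hN.own it hit hat ω hω l hl t' ht')
  have k2 : ∀ l ≤ 2 + 1, ∀ σ ∈ Set.Icc (0 : ℝ) 1,
      |(op (a it) c (G it (ptr F J ω)) (slam F (a it) ω') l).eval σ| ≤ 2 ^ s / 2 ^ g it l :=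
    fun l hl => by
      rw [op_congr (a it) c (slam F (a it) ω') (hχ l hl).symm]
      exact own_op htJ (fun t' ht' => hN.own it hit hat ω' hω' l hl t' ht')
  have h1 := (hst (F := F) (c := c) (w := w iw) (t := a it) (k := s) (q := q) (B := Bx)
    (gw := g iw) (gt := g it) (χ := G it (ptr F J ω)) (ψ := H iw (slam F (w iw) ω)) (ω := ω)
    (ω' := ω') hc (by rw [← haw]; exact hwt) htJ hgq (fun l => (hN.nod it hit).top.degG _ l)
    (fun l => (hN.nod it hit).top.depG _ l) (fun l => (hN.nod iw hiw).top.degH _ l)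
    (fun l => (hN.nod iw hiw).top.depH _ l) (fun l hl => ⟨0, fun b hb => by
      rw [sub_zero, abs_sub_comm]
      exact hN.two iw hiw it hit hR ω hω l hl b hb⟩) k1 k2 hT hh hB1 hB2).1
  exact h1

/-- **The natural relation of two samples with the same charts of the ball** of the node `id`. -/
theorem gnl_c (m D : ℕ) : ∃ C : ℕ, 1 ≤ C ∧ ∀ {J : ℕ} {F : Fam m J} {c : ℕ → Fin m}
    {Dr Nn s q Bx iw jd : ℕ} {R : ℕ → ℕ → Prop} {a w : ℕ → ℕ} {e E : ℕ} {g : ℕ → ℕ → ℕ} {h : ℕ}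
    {κ : ℝ} {A : F.Ω → Prop} {G : ℕ → PtT F → ℕ → MvPolynomial (Option (Fin m)) ℝ}
    {H : ℕ → LnT F → ℕ → MvPolynomial (Option (Fin m)) ℝ} {ω ω' : F.Ω},
    Set.InjOn c (Set.Iio 4) → Nls F c 3 D Dr Nn s R a w e E g h κ A G H →
    iw < Nn → jd < Nn → R iw jd → a jd = w jd → w iw ≤ a jd → a jd + 1 ≤ J →
    (∀ l ≤ 3, E + g jd l + C * (s + 1) ≤ J) →
    (∀ l ≤ 2, g jd l ≤ g iw l + q) → g iw 3 ≤ g jd 3 → 3 * q + C * (s + 1) ≤ Bx →
    A ω → A ω' → F.T ω' = F.T ω →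
    (∀ l ≤ 3, H iw (slam F (w iw) ω') l = H iw (slam F (w iw) ω) l) →
    (∀ l ≤ 3, G jd (ptr F J ω') l = G jd (ptr F J ω) l) →
    (∀ l ≤ 2, |(F.x ω' (c l) - eval (bt F ω') (H iw (slam F (w iw) ω) l)) -
      (F.x ω (c l) - eval (bt F ω) (H iw (slam F (w iw) ω) l))| ≤ 1 / 2 ^ (g iw l + Bx)) →
    ∀ {ε₀ ε₁ sl₀ sl₁ : ℝ},
    |ncp c 3 (H iw (slam F (w iw) ω)) (H jd (slam F (w jd) ω) 3 - H iw (slam F (w iw) ω) 3)
      (bt F ω) 0| ≤ sl₀ →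
    |ncp c 3 (H iw (slam F (w iw) ω)) (H jd (slam F (w jd) ω) 3 - H iw (slam F (w iw) ω) 3)
      (bt F ω) 1| ≤ sl₁ →
    |(Polynomial.derivative (op (w iw) c (H iw (slam F (w iw) ω)) (slam F (w iw) ω') 0)).eval
        (rt F (w iw) ω) -
      (Polynomial.derivative (op (w iw) c (H iw (slam F (w iw) ω)) (slam F (w iw) ω) 0)).eval
        (rt F (w iw) ω)| ≤ ε₀ →
    |(Polynomial.derivative (op (w iw) c (H iw (slam F (w iw) ω)) (slam F (w iw) ω') 1)).eval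
        (rt F (w iw) ω) -
      (Polynomial.derivative (op (w iw) c (H iw (slam F (w iw) ω)) (slam F (w iw) ω) 1)).eval
        (rt F (w iw) ω)| ≤ ε₁ →
    |((Polynomial.derivative (op (w iw) c (H iw (slam F (w iw) ω)) (slam F (w iw) ω') 3)).eval
        (rt F (w iw) ω) -
      (Polynomial.derivative (op (w iw) c (H iw (slam F (w iw) ω)) (slam F (w iw) ω) 3)).eval
        (rt F (w iw) ω)) -
      ncp c 3 (H iw (slam F (w iw) ω)) (H jd (slam F (w jd) ω) 3 - H iw (slam F (w iw) ω) 3)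
        (bt F ω) 2 *
      ((Polynomial.derivative (op (w iw) c (H iw (slam F (w iw) ω)) (slam F (w iw) ω') 2)).eval
        (rt F (w iw) ω) -
      (Polynomial.derivative (op (w iw) c (H iw (slam F (w iw) ω)) (slam F (w iw) ω) 2)).eval
        (rt F (w iw) ω))| ≤ sl₀ * ε₀ + sl₁ * ε₁ +
        2 ^ (C * (s + 1)) * 2 ^ (a jd - w iw) *
          (1 / 2 ^ g jd 3 + 2 ^ (3 * q) / 2 ^ (g iw 3 + Bx)) := by
  obtain ⟨C₁, hC₁, hrel⟩ := row_rel m D 2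
  refine ⟨C₁ + 1, by omega, ?_⟩
  intro J F c Dr Nn s q Bx iw jd R a w e E g h κ A G H ω ω' hc hN hiw hjd hR had hwd hdJ hJ hgq
    hg3 hBx hω hω' hT hψ hχ hh ε₀ ε₁ sl₀ sl₁ hs0 hs1 he0 he1
  have hCk : (C₁ + 1) * (s + 1) = C₁ * (s + 1) + (s + 1) := by ring
  obtain ⟨W, hW⟩ : ∃ W, W = w iw := ⟨_, rfl⟩
  obtain ⟨ψ, hψd⟩ : ∃ ψ, ψ = H iw (slam F (w iw) ω) := ⟨_, rfl⟩
  obtain ⟨Δ, hΔ⟩ : ∃ Δ, Δ = H jd (slam F (w jd) ω) 3 - ψ 3 := ⟨_, rfl⟩
  rw [← hψd] at hs0 hs1 he0 he1 hh hψ ⊢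
  rw [← hΔ] at hs0 hs1 ⊢
  have hWJ : W ≤ J := by rw [hW]; omega
  have htt : F.t ω' = F.t ω := by
    unfold Fam.t
    rw [hT]
  have hrt : rt F (w iw) ω' = rt F (w iw) ω := rt_congr hT
  have hψ1 : ∀ l, (ψ l).totalDegree ≤ D := fun l => by
    rw [hψd]
    exact (hN.nod iw hiw).top.degH _ l
  have hψ2 : ∀ l, DepC c l (ψ l) := fun l => by
    rw [hψd]
    exact (hN.nod iw hiw).top.depH _ l
  have key : ∀ ν : F.Ω, A ν → F.T ν = F.T ω → (∀ l ≤ 3, G jd (ptr F J ν) l = G jd (ptr F J ω) l) →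
      (∀ l ≤ 3, H iw (slam F (w iw) ν) l = ψ l) →
      (∀ l ≤ 2, |(F.x ω (c l) - eval (bt F ω) (ψ l)) - (F.x ν (c l) - eval (bt F ν) (ψ l))| ≤
        1 / 2 ^ (g iw l + Bx)) →
      |ov F c ψ ν 3 - (nct c 3 ψ Δ (bt F ω) + ∑ l ∈ range 3, ncp c 3 ψ Δ (bt F ω) l *
        ov F c ψ ν l)| ≤ 2 ^ (C₁ * (s + 1)) * 2 ^ a jd *
      (1 / 2 ^ g jd 3 + 2 ^ (3 * q) / 2 ^ (g iw 3 + Bx)) := by
    intro ν hν hTν hχν hψν hhν
    have htν : F.t ν = F.t ω := by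
      unfold Fam.t
      rw [hTν]
    have h1 := hrel (F := F) (c := c) (w := w jd) (a := a jd) (e := E) (k := s) (q := q)
      (X := Bx) (g := g jd) (gw := g iw) (A := A) (G := G jd) (H := H jd) (ψ := ψ)
      (by simpa using hc) had.ge (by omega) (hN.nod jd hjd).top (fun l hl => by
        have := hJ l (by omega)
        omega) hψ1 hψ2 hgq hg3 (by omega) ω ν hω hν
      (fun l hl => (hχν l (by omega)).symm) htν.symm (fun l hl => by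
        have := own_op (F := F) (t := w jd) (c := c) (χ := H jd (slam F (w jd) ν)) (ν := ν)
          (l := l) (b := 2 ^ s / 2 ^ g jd l) (by omega)
          (fun t' ht' => hN.ow jd hjd ν hν l (by omega) t' ht')
        exact this) (fun l hl => ⟨0, fun b hb => by
        rw [sub_zero, abs_sub_comm, ← hψν l (by omega)]
        exact hN.two iw hiw jd hjd hR ν hν l (by omega) b hb⟩) hhν
    rw [← hΔ] at h1
    exact h1
  have k0 := key ω hω rfl (fun _ _ => rfl) (fun l _ => by rw [hψd]) (fun l _ => by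
    rw [sub_self, abs_zero]
    positivity)
  have k1 := key ω' hω' hT hχ hψ (fun l hl => by
    rw [abs_sub_comm]
    exact hh l hl)
  -- the derivatives
  have hW0 : (0 : ℝ) < 2 ^ W := by positivity
  have d0 : ∀ l, (Polynomial.derivative (op (w iw) c ψ (slam F (w iw) ω) l)).eval
      (rt F (w iw) ω) = 1 / 2 ^ W * ov F c ψ ω l := fun l => by
    rw [hW]
    exact op_der (by omega) c ψ ω l
  have d1 : ∀ l, (Polynomial.derivative (op (w iw) c ψ (slam F (w iw) ω') l)).eval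
      (rt F (w iw) ω) = 1 / 2 ^ W * ov F c ψ ω' l := fun l => by
    rw [hW, ← hrt]
    exact op_der (by omega) c ψ ω' l
  rw [d0, d1] at he0 he1 ⊢
  rw [d0, d1]
  obtain ⟨err, herr⟩ : ∃ err : ℝ, err = 2 ^ (C₁ * (s + 1)) * 2 ^ a jd *
      (1 / 2 ^ g jd 3 + 2 ^ (3 * q) / 2 ^ (g iw 3 + Bx)) := ⟨_, rfl⟩
  rw [← herr] at k0 k1
  rw [Finset.sum_range_succ, Finset.sum_range_succ, Finset.sum_range_one] at k0 k1
  obtain ⟨n0, hn0⟩ : ∃ n0, n0 = ncp c 3 ψ Δ (bt F ω) 0 := ⟨_, rfl⟩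
  obtain ⟨n1, hn1⟩ : ∃ n1, n1 = ncp c 3 ψ Δ (bt F ω) 1 := ⟨_, rfl⟩
  obtain ⟨n2, hn2⟩ : ∃ n2, n2 = ncp c 3 ψ Δ (bt F ω) 2 := ⟨_, rfl⟩
  obtain ⟨nt, hnt⟩ : ∃ nt, nt = nct c 3 ψ Δ (bt F ω) := ⟨_, rfl⟩
  rw [← hn0, ← hn1, ← hn2, ← hnt] at k0 k1
  rw [← hn0] at hs0
  rw [← hn1] at hs1
  rw [← hn2]
  obtain ⟨x0, hx0⟩ : ∃ x0, x0 = ov F c ψ ω 0 := ⟨_, rfl⟩
  obtain ⟨x1, hx1⟩ : ∃ x1, x1 = ov F c ψ ω 1 := ⟨_, rfl⟩
  obtain ⟨x2, hx2⟩ : ∃ x2, x2 = ov F c ψ ω 2 := ⟨_, rfl⟩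
  obtain ⟨x3, hx3⟩ : ∃ x3, x3 = ov F c ψ ω 3 := ⟨_, rfl⟩
  obtain ⟨y0, hy0⟩ : ∃ y0, y0 = ov F c ψ ω' 0 := ⟨_, rfl⟩
  obtain ⟨y1, hy1⟩ : ∃ y1, y1 = ov F c ψ ω' 1 := ⟨_, rfl⟩
  obtain ⟨y2, hy2⟩ : ∃ y2, y2 = ov F c ψ ω' 2 := ⟨_, rfl⟩
  obtain ⟨y3, hy3⟩ : ∃ y3, y3 = ov F c ψ ω' 3 := ⟨_, rfl⟩
  rw [← hx0, ← hx1, ← hx2, ← hx3] at k0
  rw [← hy0, ← hy1, ← hy2, ← hy3] at k1
  rw [← hx0, ← hy0] at he0
  rw [← hx1, ← hy1] at he1
  rw [← hx2, ← hx3, ← hy2, ← hy3]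
  have e1 : 1 / 2 ^ W * y3 - 1 / 2 ^ W * x3 - n2 * (1 / 2 ^ W * y2 - 1 / 2 ^ W * x2) =
      n0 * (1 / 2 ^ W * y0 - 1 / 2 ^ W * x0) + n1 * (1 / 2 ^ W * y1 - 1 / 2 ^ W * x1) +
      1 / 2 ^ W * ((y3 - (nt + (n0 * y0 + n1 * y1 + n2 * y2))) -
        (x3 - (nt + (n0 * x0 + n1 * x1 + n2 * x2)))) := by ring
  rw [e1]
  have hsl0 : 0 ≤ sl₀ := (abs_nonneg _).trans hs0
  have hsl1 : 0 ≤ sl₁ := (abs_nonneg _).trans hs1
  refine (abs_add_le _ _).trans (add_le_add ((abs_add_le _ _).trans (add_le_add ?_ ?_)) ?_)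
  · rw [abs_mul]
    exact mul_le_mul hs0 he0 (abs_nonneg _) hsl0
  · rw [abs_mul]
    exact mul_le_mul hs1 he1 (abs_nonneg _) hsl1
  · rw [abs_mul, abs_of_pos (show (0 : ℝ) < 1 / 2 ^ W by positivity)]
    have h1 := (abs_sub (y3 - (nt + (n0 * y0 + n1 * y1 + n2 * y2)))
      (x3 - (nt + (n0 * x0 + n1 * x1 + n2 * x2)))).trans (add_le_add k1 k0)
    refine (mul_le_mul_of_nonneg_left h1 (by positivity)).trans ?_
    have e2 : (2 : ℝ) ^ a jd = 2 ^ W * 2 ^ (a jd - w iw) := by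
      rw [← pow_add, hW]
      congr 1
      omega
    have e3 : 1 / 2 ^ W * (err + err) = 2 * 2 ^ (C₁ * (s + 1)) * 2 ^ (a jd - w iw) *
        (1 / 2 ^ g jd 3 + 2 ^ (3 * q) / 2 ^ (g iw 3 + Bx)) := by
      rw [herr, e2]
      field_simp
      ring
    rw [e3]
    refine mul_le_mul_of_nonneg_right (mul_le_mul_of_nonneg_right ?_ (by positivity))
      (by positivity)
    rw [mul_comm 2, ← pow_succ]
    exact pow_le_pow_right₀ (by norm_num) (by omega)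

end Pool.NA55
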