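import Pool.Agent.H55.NA.Gnl
import Pool.Agent.H55.NA.Gen

/-!
# The relations of the star lemma, from the nodes of a record

`cR_lab`: closed labels are determined by the record. `gnr_a`, `gnr_c`: the closeness of the own paths
of `c 3` over `rG` and the natural relation over `rX`, over the labels `H iw` of a closed node.
`own_nls`: the own paths of a closed node on the window.
-/

set_option autoImplicit false

namespace Pool.NA55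

open Finset Real MvPolynomial
open Pool.Agent.H49.Ent Pool.Agent.H32.Dense Pool.STK Pool.KA Pool.KSAT Pool.K2S Pool.PB Pool.GEN
open Pool.S6C Pool.RCD Pool.LA91 Pool.OWN68 Pool.CHT Pool.D2R Pool.NDD66 Pool.NA3
open Pool.BFL (Pb)
open Pool.K2S (cpn)
open Pool.V0F (cR)
open Pool.NDC42 (hgC pcC x0 xn xg rP LbW)
open Pool.PB.Trl (rt rt_mem t_rt)
open Pool.AVG5 (jt jt_le jt_sub jt_one)
open Pool.NA36 (opl opl_deg opl_cf f2C f1C vpC tcd tct rX rG X0 dcR rX_rG NaT)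
open Pool.STB77 (Nls opt opt_none opt_some)
open Pool.SL77 Pool.NA17

/-- **Closed labels are determined by the record.** -/
theorem cR_lab {m J : ℕ} {F : Fam m J} {A : F.Ω → Prop} {w : ℝ} {W : ℕ} (hW : W = ⌊w * J⌋₊)
    {G0 : PtT F → ℕ → MvPolynomial (Option (Fin m)) ℝ}
    {H0 : LnT F → ℕ → MvPolynomial (Option (Fin m)) ℝ}
    (hcl : ∀ ω, A ω → ∀ l ≤ 3, G0 (ptr F J ω) l = H0 (slam F W ω) l) {ω ω' : F.Ω}
    (h : cR F A w ω = cR F A w ω') : ∀ l ≤ 3, H0 (slam F W ω) l = H0 (slam F W ω') l := by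
  intro l hl
  subst hW
  have h1 := dcR (F := F) (A := A) (w := w)
    (z := fun ω => fun l : Fin 4 => H0 (slam F ⌊w * J⌋₊ ω) l)
    ⟨⟨fun y => fun l : Fin 4 => G0 y l, fun ω hω => funext fun l =>
      (hcl ω hω l (by omega)).symm⟩, ⟨fun x => fun l : Fin 4 => H0 x l, fun ω _ => rfl⟩⟩
    (fun _ => (1 : ℝ)) ω ω' one_pos one_pos h
  exact congrFun h1 ⟨l, by omega⟩

section

variable {m J : ℕ} {F : Fam m J} {A : F.Ω → Prop} {c : ℕ → Fin m} {D : ℕ} {w : ℝ} {n : ℕ → ℝ}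
  {H : LnT F → ℕ → MvPolynomial (Option (Fin m)) ℝ}

/-- The heights over the label of the first sample. -/
theorem hgt_ab (hwJ : ⌊w * J⌋₊ ≤ J) (hH : ∀ s l, (H s l).totalDegree ≤ D) {ω ω' : F.Ω}
    (hT : F.T ω' = F.T ω)
    (hψ : ∀ l ≤ 3, H (slam F ⌊w * J⌋₊ ω') l = H (slam F ⌊w * J⌋₊ ω) l)
    (hv : vpC F c D w n H ω = vpC F c D w n H ω')
    (hh : hgC F c w H 2 (n 2) ω = hgC F c w H 2 (n 2) ω') {P : ℕ → ℕ}
    (h01 : ∀ l ≤ 1, ((D : ℝ) + 2) * 2 ^ P l ≤ 2 ^ (n l * J)) (h2 : (2 : ℝ) ^ P 2 ≤ 2 ^ (n 2 * J)) :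
    ∀ l ≤ 2, |(F.x ω' (c l) - eval (bt F ω') (H (slam F ⌊w * J⌋₊ ω) l)) -
      (F.x ω (c l) - eval (bt F ω) (H (slam F ⌊w * J⌋₊ ω) l))| ≤ 1 / 2 ^ P l := by
  intro l hl
  have hp : ∀ x : ℝ, (0 : ℝ) < 2 ^ x := fun x => Real.rpow_pos_of_pos (by norm_num) _
  have e1 := op_at hwJ c (H (slam F ⌊w * J⌋₊ ω)) ω l
  have e2 := op_at hwJ c (H (slam F ⌊w * J⌋₊ ω)) ω' l
  rw [op_congr ⌊w * J⌋₊ c (slam F ⌊w * J⌋₊ ω') (hψ l (by omega)).symm] at e2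
  have e3 : rt F ⌊w * J⌋₊ ω' = rt F ⌊w * J⌋₊ ω := rt_congr hT
  rw [← e1, ← e2, e3, abs_sub_comm]
  rcases Nat.lt_or_ge l 2 with h1 | h1
  · have hpc : pcC F c D w H l 0 (n l) ω = pcC F c D w H l 0 (n l) ω' :=
      congrFun hv ⟨l, h1⟩
    have h3 := Pool.ND54.pc_near hH hpc (rt_mem F ⌊w * J⌋₊ ω)
    refine h3.trans ?_
    rw [div_le_div_iff₀ (hp _) (by positivity), one_mul]
    exact h01 l (by omega)
  · have h4 : l = 2 := by omega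
    subst h4
    have h3 := Pool.ND54.hg_near hwJ hh
    rw [e3] at h3
    refine h3.trans ?_
    exact one_div_le_one_div_of_le (by positivity) h2

/-- The derivatives of own paths with the same codes. -/
theorem der_cod (hdeg : ∀ l ≤ 3, ∀ x, (H x l).totalDegree ≤ D) {ω ω' : F.Ω}
    (hv : vpC F c D w n H ω = vpC F c D w n H ω') {x : ℝ} (hx : |x| ≤ 1) {l : ℕ} (hl : l ≤ 1) :
    |(Polynomial.derivative (opl F c w H l ω')).eval x -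
      (Polynomial.derivative (opl F c w H l ω)).eval x| ≤ 2 ^ (D + 2) * (1 / 2 ^ (n l * J)) := by
  have hp : (0 : ℝ) < 2 ^ (n l * J) := Real.rpow_pos_of_pos (by norm_num) _
  have hpc : pcC F c D w H l 0 (n l) ω' = pcC F c D w H l 0 (n l) ω :=
    (congrFun hv ⟨l, by omega⟩).symm
  have hPd : (opl F c w H l ω' - opl F c w H l ω).natDegree ≤ D + 1 :=
    (Polynomial.natDegree_sub_le _ _).trans (max_le (opl_deg hdeg (by omega) _)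
      (opl_deg hdeg (by omega) _))
  have h1 := jt_le hPd hx (by positivity : (0 : ℝ) ≤ 1 / 2 ^ (n l * J)) (a := 1) fun i _ => by
    rcases Nat.lt_or_ge (D + 1) i with h2 | h2
    · rw [Polynomial.coeff_eq_zero_of_natDegree_lt (hPd.trans_lt h2), abs_zero]
      positivity
    · exact opl_cf hpc (Nat.zero_le _) h2
  rw [jt_one, Polynomial.derivative_sub, Polynomial.eval_sub] at h1
  exact h1

end

/-- **Closeness of the own paths of `c 3`** over the record of a general pair. -/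
theorem gnr_a (D : ℕ) : ∃ C : ℕ, 1 ≤ C ∧ ∀ {m J : ℕ} {F : Fam m J} {c : ℕ → Fin m}
    {Dr Nn s q Bx iw it : ℕ} {R : ℕ → ℕ → Prop} {a wn : ℕ → ℕ} {e E : ℕ} {g : ℕ → ℕ → ℕ} {h : ℕ}
    {κ : ℝ} {A : F.Ω → Prop} {G : ℕ → PtT F → ℕ → MvPolynomial (Option (Fin m)) ℝ}
    {H : ℕ → LnT F → ℕ → MvPolynomial (Option (Fin m)) ℝ} {w t τ nt : ℝ} {n : ℕ → ℝ},
    Set.InjOn c (Set.Iio 3) → Nls F c 3 D Dr Nn s R a wn e E g h κ A G H →
    iw < Nn → it < Nn → R iw it → a iw = wn iw → a it = wn it → a iw ≤ a it → a it ≤ J →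
    wn iw = ⌊w * J⌋₊ → wn it = ⌊t * J⌋₊ →
    (∀ ω, A ω → ∀ l ≤ 3, G iw (ptr F J ω) l = H iw (slam F (wn iw) ω) l) →
    (∀ ω, A ω → ∀ l ≤ 3, G it (ptr F J ω) l = H it (slam F (wn it) ω) l) →
    (∀ l ≤ 2, g it l ≤ g iw l + q) →
    (∀ l ≤ 1, ((D : ℝ) + 2) * 2 ^ (g iw l + Bx) ≤ 2 ^ (n l * J)) →
    (2 : ℝ) ^ (g iw 2 + Bx) ≤ 2 ^ (n 2 * J) →
    3 * (q + C * (s + 1)) ≤ Bx → g it 3 + 3 * (q + C * (s + 1)) ≤ g iw 3 + Bx →
    ∀ ω ω', A ω → A ω' →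
      rG F A c D w t τ n nt (H iw) ω = rG F A c D w t τ n nt (H iw) ω' →
    |(opl F c w (H iw) 3 ω).eval (rt F ⌊w * J⌋₊ ω) -
      (opl F c w (H iw) 3 ω').eval (rt F ⌊w * J⌋₊ ω)| ≤ 2 ^ (C * (s + 1)) / 2 ^ g it 3 := by
  obtain ⟨C, hC, hga⟩ := gnl_a D
  refine ⟨C, hC, ?_⟩
  intro m J F c Dr Nn s q Bx iw it R a wn e E g h κ A G H w t τ nt n hc hN hiw hit hR haw hat hwt
    htJ hwn htn hcw hct hgq h01 h2 hB1 hB2 ω ω' hω hω' hrec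
  have r1 : cR F A w ω = cR F A w ω' := congrArg (fun x => x.1.1.1) hrec
  have r2 : F.T ω = F.T ω' := congrArg (fun x => x.1.1.2.1) hrec
  have r3 : vpC F c D w n (H iw) ω = vpC F c D w n (H iw) ω' := congrArg (fun x => x.1.2.1) hrec
  have r4 : cR F A t ω = cR F A t ω' := congrArg (fun x => x.1.2.2) hrec
  have r5 : hgC F c w (H iw) 2 (n 2) ω = hgC F c w (H iw) 2 (n 2) ω' :=
    congrArg (fun x => x.2.1.2) hrec
  have hψ := cR_lab hwn hcw r1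
  have hχ := cR_lab htn hct r4
  have hwJ : ⌊w * J⌋₊ ≤ J := by rw [← hwn]; omega
  have hH : ∀ s l, (H iw s l).totalDegree ≤ D := (hN.nod iw hiw).top.degH
  have hψ' : ∀ l ≤ 3, H iw (slam F ⌊w * J⌋₊ ω') l = H iw (slam F ⌊w * J⌋₊ ω) l := fun l hl => by
    rw [← hwn]
    exact (hψ l hl).symm
  have hh := hgt_ab (c := c) (n := n) (P := fun l => g iw l + Bx) hwJ hH r2.symm hψ' r3 r5 h01 h2
  have h1 := hga (w := wn) hc hN hiw hit hR haw hat hwt htJ hgq hω hω' r2.symm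
    (fun l hl => (hψ l hl).symm) (fun l hl => by
      rw [hct ω' hω' l hl, hct ω hω l hl]
      exact (hχ l hl).symm) (by rw [hwn]; exact hh) hB1 hB2
  rw [hwn] at h1
  rw [op_congr ⌊w * J⌋₊ c (slam F ⌊w * J⌋₊ ω') (hψ' 3 le_rfl).symm, abs_sub_comm] at h1
  exact h1

/-- The slope of the chart of the node `jd` over the labels of the node `iw`. -/
noncomputable def slN {m J : ℕ} (F : Fam m J) (c : ℕ → Fin m) (W V : ℕ)
    (H0 H1 : LnT F → ℕ → MvPolynomial (Option (Fin m)) ℝ) (l : ℕ) (ω : F.Ω) : ℝ :=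
  ncp c 3 (H0 (slam F W ω)) (H1 (slam F V ω) 3 - H0 (slam F W ω) 3) (bt F ω) l

/-- **The natural relation** over the record of a pair; its slope is `slN .. 2`. -/
theorem gnr_c (m D : ℕ) : ∃ C : ℕ, 1 ≤ C ∧ ∀ {J : ℕ} {F : Fam m J} {c : ℕ → Fin m}
    {Dr Nn s q Bx iw jd : ℕ} {R : ℕ → ℕ → Prop} {a wn : ℕ → ℕ} {e E : ℕ} {g : ℕ → ℕ → ℕ} {h : ℕ}
    {κ : ℝ} {A : F.Ω → Prop} {G : ℕ → PtT F → ℕ → MvPolynomial (Option (Fin m)) ℝ}
    {H : ℕ → LnT F → ℕ → MvPolynomial (Option (Fin m)) ℝ} {w t τ nt : ℝ} {n : ℕ → ℝ}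
    {nb : ℕ → ℝ},
    Set.InjOn c (Set.Iio 4) → Nls F c 3 D Dr Nn s R a wn e E g h κ A G H →
    iw < Nn → jd < Nn → R iw jd → a jd = wn jd → wn iw ≤ a jd → a jd + 1 ≤ J →
    wn iw = ⌊w * J⌋₊ → wn jd = ⌊τ * J⌋₊ →
    (∀ ω, A ω → ∀ l ≤ 3, G iw (ptr F J ω) l = H iw (slam F (wn iw) ω) l) →
    (∀ ω, A ω → ∀ l ≤ 3, G jd (ptr F J ω) l = H jd (slam F (wn jd) ω) l) →
    (∀ l ≤ 3, E + g jd l + C * (s + 1) ≤ J) →
    (∀ l ≤ 2, g jd l ≤ g iw l + q) → g iw 3 ≤ g jd 3 → 3 * q + C * (s + 1) ≤ Bx →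
    (∀ l ≤ 1, ((D : ℝ) + 2) * 2 ^ (g iw l + Bx) ≤ 2 ^ (n l * J)) →
    (2 : ℝ) ^ (g iw 2 + Bx) ≤ 2 ^ (n 2 * J) →
    (∀ ω, A ω → ∀ l ≤ 1, |slN F c (wn iw) (wn jd) (H iw) (H jd) l ω| ≤ nb l) →
    ∀ ω ω', A ω → A ω' →
      rX F A c D w t τ n nt (H iw) ω = rX F A c D w t τ n nt (H iw) ω' →
    |((Polynomial.derivative (opl F c w (H iw) 3 ω')).eval (rt F ⌊w * J⌋₊ ω) -
        (Polynomial.derivative (opl F c w (H iw) 3 ω)).eval (rt F ⌊w * J⌋₊ ω)) -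
        slN F c (wn iw) (wn jd) (H iw) (H jd) 2 ω *
        ((Polynomial.derivative (opl F c w (H iw) 2 ω')).eval (rt F ⌊w * J⌋₊ ω) -
          (Polynomial.derivative (opl F c w (H iw) 2 ω)).eval (rt F ⌊w * J⌋₊ ω))| ≤
      nb 0 * (2 ^ (D + 2) * (1 / 2 ^ (n 0 * J))) + nb 1 * (2 ^ (D + 2) * (1 / 2 ^ (n 1 * J))) +
        2 ^ (C * (s + 1)) * 2 ^ (a jd - wn iw) *
          (1 / 2 ^ g jd 3 + 2 ^ (3 * q) / 2 ^ (g iw 3 + Bx)) := by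
  obtain ⟨C, hC, hgc⟩ := gnl_c m D
  refine ⟨C, hC, ?_⟩
  intro J F c Dr Nn s q Bx iw jd R a wn e E g h κ A G H w t τ nt n nb hc hN hiw hjd hR had hwd
    hdJ hwn htn hcw hct hJ hgq hg3 hBx h01 h2 hnb ω ω' hω hω' hrec
  obtain ⟨hrG, -⟩ := rX_rG hrec
  have r1 : cR F A w ω = cR F A w ω' := congrArg (fun x => x.1.1.1) hrG
  have r2 : F.T ω = F.T ω' := congrArg (fun x => x.1.1.2.1) hrG
  have r3 : vpC F c D w n (H iw) ω = vpC F c D w n (H iw) ω' := congrArg (fun x => x.1.2.1) hrG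
  have r4 : cR F A τ ω = cR F A τ ω' := congrArg (fun x => x.2.2) hrG
  have r5 : hgC F c w (H iw) 2 (n 2) ω = hgC F c w (H iw) 2 (n 2) ω' :=
    congrArg (fun x => x.2.1.2) hrG
  have hψ := cR_lab hwn hcw r1
  have hχ := cR_lab htn hct r4
  have hwJ : ⌊w * J⌋₊ ≤ J := by rw [← hwn]; omega
  have hH : ∀ s l, (H iw s l).totalDegree ≤ D := (hN.nod iw hiw).top.degH
  have hψ' : ∀ l ≤ 3, H iw (slam F ⌊w * J⌋₊ ω') l = H iw (slam F ⌊w * J⌋₊ ω) l := fun l hl => by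
    rw [← hwn]
    exact (hψ l hl).symm
  have hh := hgt_ab (c := c) (n := n) (P := fun l => g iw l + Bx) hwJ hH r2.symm hψ' r3 r5 h01 h2
  have hxm : |rt F ⌊w * J⌋₊ ω| ≤ 1 := by
    have := rt_mem F ⌊w * J⌋₊ ω
    rw [abs_of_nonneg this.1]
    exact this.2
  have hdc := fun l (hl : l ≤ 1) => der_cod (c := c) (n := n) (fun l _ x => hH x l) r3 hxm hl
  have ho : ∀ l ≤ 3, op ⌊w * J⌋₊ c (H iw (slam F ⌊w * J⌋₊ ω)) (slam F ⌊w * J⌋₊ ω') l =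
      opl F c w (H iw) l ω' := fun l hl =>
    op_congr ⌊w * J⌋₊ c (slam F ⌊w * J⌋₊ ω') (hψ' l hl).symm
  have h1 := hgc (w := wn) hc hN hiw hjd hR had hwd hdJ hJ hgq hg3 hBx hω hω' r2.symm
    (fun l hl => (hψ l hl).symm) (fun l hl => by
      rw [hct ω' hω' l hl, hct ω hω l hl]
      exact (hχ l hl).symm) (by rw [hwn]; exact hh) (sl₀ := nb 0) (sl₁ := nb 1)
    (ε₀ := 2 ^ (D + 2) * (1 / 2 ^ (n 0 * J))) (ε₁ := 2 ^ (D + 2) * (1 / 2 ^ (n 1 * J)))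
    (hnb ω hω 0 (by norm_num)) (hnb ω hω 1 le_rfl) (by
      rw [hwn, ho 0 (by norm_num)]
      exact hdc 0 (by norm_num)) (by
      rw [hwn, ho 1 (by norm_num)]
      exact hdc 1 le_rfl)
  have h2' : wn iw = ⌊w * J⌋₊ := hwn
  rw [show op (wn iw) c (H iw (slam F (wn iw) ω)) (slam F (wn iw) ω') 3 = opl F c w (H iw) 3 ω' by
      rw [hwn]; exact ho 3 le_rfl,
    show op (wn iw) c (H iw (slam F (wn iw) ω)) (slam F (wn iw) ω') 2 = opl F c w (H iw) 2 ω' by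
      rw [hwn]; exact ho 2 (by norm_num),
    show op (wn iw) c (H iw (slam F (wn iw) ω)) (slam F (wn iw) ω) 3 = opl F c w (H iw) 3 ω by
      rw [hwn]; rfl,
    show op (wn iw) c (H iw (slam F (wn iw) ω)) (slam F (wn iw) ω) 2 = opl F c w (H iw) 2 ω by
      rw [hwn]; rfl] at h1
  have h3 : rt F (wn iw) ω = rt F ⌊w * J⌋₊ ω := by rw [hwn]
  rw [h3] at h1
  exact h1

/-- The own paths of a closed node are natural on the window. -/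
theorem own_nls {m J D : ℕ} {F : Fam m J} {c : ℕ → Fin m} {Dr Nn s iw : ℕ} {R : ℕ → ℕ → Prop}
    {a wn : ℕ → ℕ} {e E : ℕ} {g : ℕ → ℕ → ℕ} {h : ℕ} {κ : ℝ} {A : F.Ω → Prop}
    {G : ℕ → PtT F → ℕ → MvPolynomial (Option (Fin m)) ℝ}
    {H : ℕ → LnT F → ℕ → MvPolynomial (Option (Fin m)) ℝ} {w : ℝ}
    (hN : Nls F c 3 D Dr Nn s R a wn e E g h κ A G H) (hiw : iw < Nn) (hwn : wn iw = ⌊w * J⌋₊)
    (hwJ : ⌊w * J⌋₊ ≤ J) {l : ℕ} (hl : l ≤ 3) {ω : F.Ω} (hω : A ω) :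
    ∀ τ ∈ Set.Icc (0 : ℝ) 1, |(opl F c w (H iw) l ω).eval τ| ≤ 2 ^ s / 2 ^ g iw l := by
  have h1 := own_op (F := F) (t := wn iw) (by rw [hwn]; exact hwJ) (c := c)
    (χ := H iw (slam F (wn iw) ω)) (ν := ω) (l := l) (b := 2 ^ s / 2 ^ g iw l)
    (fun t' ht' => hN.ow iw hiw ω hω l hl t' ht')
  rw [hwn] at h1
  exact h1

end Pool.NA55
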