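import Pool.Agent.H77.SL.Ins

/-!
# The relations of the star lemma, from own paths

`ext4`: a polynomial which is small on the unit interval. `samX`: the relations `SamR` of one sample.
`starX`: the relations `StarR` of a star, from the values at the time. `natX`: the relation of the
velocities of a pair.
-/

set_option autoImplicit false

namespace Pool.NA55

open Finset Polynomial
open Pool.SL77

/-- **A polynomial which is small on the unit interval**, on a larger interval. -/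
theorem ext4 (d : ℕ) : ∃ K : ℝ, 1 ≤ K ∧ ∀ (q : ℝ[X]) (S : ℝ), q.natDegree ≤ d →
    (∀ τ ∈ Set.Icc (0 : ℝ) 1, |q.eval τ| ≤ S) → ∀ s : ℝ, |s| ≤ 4 → |q.eval s| ≤ K * S ∧
      |(derivative q).eval s| ≤ K * S ∧ |(derivative (derivative q)).eval s| ≤ K * S := by
  obtain ⟨C₁, hC₁, hmk⟩ := mkv d
  refine ⟨2 * (C₁ * C₁), by nlinarith, ?_⟩
  intro q S hq hS s hs
  have hS0 : 0 ≤ S := (abs_nonneg _).trans (hS 0 ⟨le_rfl, zero_le_one⟩)
  have hqd : (derivative q).natDegree ≤ d := (natDegree_derivative_le q).trans (by omega)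
  have h1 : ∀ s : ℝ, |s - 1 / 2| ≤ 3 / 2 → |q.eval s| ≤ C₁ * S ∧
      |(derivative q).eval s| ≤ 2 * (C₁ * S) := by
    intro s hs
    have h2 := hmk q (1 / 2) (1 / 2) S hq (by norm_num) (fun s hs => hS s (by
      rw [abs_le] at hs
      constructor <;> linarith [hs.1, hs.2])) s (by linarith)
    refine ⟨h2.1, h2.2.trans (le_of_eq ?_)⟩
    ring
  have hs' : |s - 1 / 2| ≤ 3 * (3 / 2) := by
    rw [abs_le] at hs ⊢
    constructor <;> linarith [hs.1, hs.2]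
  have h2 := hmk q (1 / 2) (3 / 2) (C₁ * S) hq (by norm_num) (fun s hs => (h1 s hs).1) s hs'
  have h3 := hmk (derivative q) (1 / 2) (3 / 2) (2 * (C₁ * S)) hqd (by norm_num)
    (fun s hs => (h1 s hs).2) s hs'
  have hp : 0 ≤ C₁ * (C₁ * S) := by positivity
  refine ⟨h2.1.trans ?_, h2.2.trans ?_, h3.2.trans ?_⟩
  · linarith
  · rw [div_le_iff₀ (by norm_num)]
    linarith
  · rw [div_le_iff₀ (by norm_num)]
    linarith

/-- **The relations of one sample.** -/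
theorem samX (d : ℕ) : ∃ K : ℝ, 1 ≤ K ∧ ∀ {Ω Λ E : Type} {D Xd : ℕ} {G : ℝ} {l : Ω → Λ}
    {le : Λ → E} {nP cP : Λ → ℝ[X]} {uc NR CR : E → ℝ[X]} {c0 : Ω → ℝ} {t : Ω → ℤ} {ω : Ω}
    {κ δ Bn Bu εg Y : ℝ}, (nP (l ω)).natDegree ≤ d → (NR (le (l ω))).natDegree ≤ d →
    (uc (le (l ω))).natDegree ≤ d →
    (∀ τ ∈ Set.Icc (0 : ℝ) 1,
      |(nP (l ω)).eval τ - (NR (le (l ω))).eval τ - κ| ≤ δ) →
    (∀ τ ∈ Set.Icc (0 : ℝ) 1, |(nP (l ω)).eval τ| ≤ Bn) →
    (∀ τ ∈ Set.Icc (0 : ℝ) 1, |(uc (le (l ω))).eval τ| ≤ Bu) →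
    K * Bu ≤ 1 → K * 2 ^ Xd * δ ≤ εg → K * 2 ^ Xd * (Bn + δ) ≤ Y →
    SamR (slX D Xd G l le nP cP uc NR CR c0 t) εg Y ω := by
  obtain ⟨K₀, hK₀, hext⟩ := ext4 d
  refine ⟨2 * K₀, by linarith, ?_⟩
  intro Ω Λ E D Xd G l le nP cP uc NR CR c0 t ω κ δ Bn Bu εg Y hn hN hu hcl hbn hbu hB hεg hY
  obtain ⟨x, hx⟩ : ∃ x, x = l ω := ⟨_, rfl⟩
  rw [← hx] at hn hN hu hcl hbn hbu
  have hδ0 : 0 ≤ δ := (abs_nonneg _).trans (hcl 0 ⟨le_rfl, zero_le_one⟩)
  have hBn0 : 0 ≤ Bn := (abs_nonneg _).trans (hbn 0 ⟨le_rfl, zero_le_one⟩)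
  have hBu0 : 0 ≤ Bu := (abs_nonneg _).trans (hbu 0 ⟨le_rfl, zero_le_one⟩)
  have hX0 : (0 : ℝ) < 2 ^ Xd := by positivity
  obtain ⟨P, hP⟩ : ∃ P : ℝ[X], P = nP x - NR (le x) - C κ := ⟨_, rfl⟩
  have hPd : P.natDegree ≤ d := by
    rw [hP]
    exact natDegree_sub_C.le.trans ((natDegree_sub_le _ _).trans (max_le hn hN))
  have hPs := hext P δ hPd (fun τ hτ => by
    rw [hP, eval_sub, eval_sub, eval_C]
    exact hcl τ hτ)
  have hPe : ∀ s, P.eval s = (nP x).eval s - (NR (le x)).eval s - κ := fun s => by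
    rw [hP, eval_sub, eval_sub, eval_C]
  have hns := hext _ _ hn hbn
  have hus := hext _ _ hu hbu
  have hg : ∀ s : ℝ, |s| ≤ 4 → |2 ^ Xd * (nP x).eval s - 2 ^ Xd * (nP x).eval 0 -
      2 ^ Xd * ((NR (le x)).eval s - (NR (le x)).eval 0)| ≤ 2 * K₀ * 2 ^ Xd * δ := by
    intro s hs
    have e1 : 2 ^ Xd * (nP x).eval s - 2 ^ Xd * (nP x).eval 0 -
        2 ^ Xd * ((NR (le x)).eval s - (NR (le x)).eval 0) =
        2 ^ Xd * (P.eval s - P.eval 0) := by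
      rw [hPe, hPe]
      ring
    rw [e1, abs_mul, abs_of_pos hX0]
    have h1 := (hPs s hs).1
    have h2 := (hPs 0 (by rw [abs_zero]; norm_num)).1
    calc 2 ^ Xd * |P.eval s - P.eval 0| ≤ 2 ^ Xd * (K₀ * δ + K₀ * δ) :=
          mul_le_mul_of_nonneg_left ((abs_sub _ _).trans (add_le_add h1 h2)) hX0.le
      _ = _ := by ring
  have eL : ∀ s, ((slX D Xd G l le nP cP uc NR CR c0 t).nL x).eval s =
      2 ^ Xd * (nP x).eval s := fun s => by
    show (C (2 ^ Xd) * nP x).eval s = _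
    rw [eval_mul, eval_C]
  have eG : ∀ s, ((slX D Xd G l le nP cP uc NR CR c0 t).gC (le x)).eval s =
      2 ^ Xd * ((NR (le x)).eval s - (NR (le x)).eval 0) := fun s => by
    show (C (2 ^ Xd) * (NR (le x) - C ((NR (le x)).eval 0))).eval s = _
    rw [eval_mul, eval_C, eval_sub, eval_C]
  have h2X : (2 : ℝ) * K₀ * 2 ^ Xd * (Bn + δ) = 2 * (2 ^ Xd * (K₀ * Bn)) +
      2 * K₀ * 2 ^ Xd * δ := by ring
  have hp1 : 0 ≤ 2 ^ Xd * (K₀ * Bn) := by positivity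
  have hp2 : 0 ≤ 2 * K₀ * 2 ^ Xd * δ := by positivity
  have hnl : ∀ s : ℝ, |s| ≤ 4 → |2 ^ Xd * (nP x).eval s| ≤ 2 ^ Xd * (K₀ * Bn) := fun s hs => by
    rw [abs_mul, abs_of_pos hX0]
    exact mul_le_mul_of_nonneg_left (hns s hs).1 hX0.le
  refine ⟨?_, ?_, ?_, ?_, ?_, ?_⟩
  · show |((⌊2 ^ Xd * (nP (l ω)).eval 0⌋ : ℤ) : ℝ) -
      ((slX D Xd G l le nP cP uc NR CR c0 t).nL (l ω)).eval 0| ≤ 1
    rw [← hx, eL]
    have e1 := Int.floor_le (2 ^ Xd * (nP x).eval 0)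
    have e2 := Int.lt_floor_add_one (2 ^ Xd * (nP x).eval 0)
    rw [abs_le]
    constructor <;> linarith
  · intro s hs
    show |((slX D Xd G l le nP cP uc NR CR c0 t).nL (l ω)).eval s -
      ((slX D Xd G l le nP cP uc NR CR c0 t).nL (l ω)).eval 0 -
      ((slX D Xd G l le nP cP uc NR CR c0 t).gC (le (l ω))).eval s| ≤ εg
    rw [← hx, eL, eL, eG]
    exact (hg s (by linarith)).trans hεg
  · intro s hs
    show |(derivative (C (2 ^ Xd) * nP (l ω))).eval s -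
      (derivative (C (2 ^ Xd) * (NR (le (l ω)) - C ((NR (le (l ω))).eval 0)))).eval s| ≤ εg
    rw [← hx]
    have e1 : (derivative (C (2 ^ Xd) * nP x)).eval s -
        (derivative (C (2 ^ Xd) * (NR (le x) - C ((NR (le x)).eval 0)))).eval s =
        2 ^ Xd * (derivative P).eval s := by
      rw [hP]
      simp only [derivative_C_mul, derivative_sub, derivative_C, sub_zero, eval_mul, eval_C,
        eval_sub]
      ring
    rw [e1, abs_mul, abs_of_pos hX0]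
    have h1 := (hPs s (by linarith)).2.1
    refine le_trans ?_ hεg
    calc 2 ^ Xd * |(derivative P).eval s| ≤ 2 ^ Xd * (K₀ * δ) :=
          mul_le_mul_of_nonneg_left h1 hX0.le
      _ ≤ 2 * K₀ * 2 ^ Xd * δ := by
          have : 0 ≤ 2 ^ Xd * (K₀ * δ) := by positivity
          linarith
  · intro s hs
    show |((slX D Xd G l le nP cP uc NR CR c0 t).nL (l ω)).eval s| ≤ Y
    rw [← hx, eL]
    refine (hnl s hs).trans (le_trans ?_ hY)
    rw [h2X]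
    linarith
  · intro s hs
    show |((slX D Xd G l le nP cP uc NR CR c0 t).gC (le (l ω))).eval s| ≤ Y
    rw [← hx, eG]
    refine le_trans ?_ hY
    rw [h2X]
    have h1 := hg s hs
    have h2 := hnl s hs
    have h3 := hnl 0 (by rw [abs_zero]; norm_num)
    obtain ⟨a, ha⟩ : ∃ a, a = 2 ^ Xd * (nP x).eval s := ⟨_, rfl⟩
    obtain ⟨b, hb⟩ : ∃ b, b = 2 ^ Xd * (nP x).eval 0 := ⟨_, rfl⟩
    obtain ⟨g, hg'⟩ : ∃ g, g = 2 ^ Xd * ((NR (le x)).eval s - (NR (le x)).eval 0) := ⟨_, rfl⟩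
    rw [← ha, ← hb, ← hg'] at h1
    rw [← ha] at h2
    rw [← hb] at h3
    rw [← hg']
    rw [abs_le] at h1 h2 h3 ⊢
    constructor <;> linarith [h1.1, h1.2, h2.1, h2.2, h3.1, h3.2]
  · intro s hs
    show |(uc (le (l ω))).eval s| ≤ 1
    rw [← hx]
    refine (hus s hs).1.trans (le_trans ?_ hB)
    have : 0 ≤ K₀ * Bu := by positivity
    linarith

/-- **The relations of a star.** -/
theorem starX (d : ℕ) : ∃ K : ℝ, 1 ≤ K ∧ ∀ {Ω Λ E : Type} {D Xd : ℕ} {G : ℝ} {l : Ω → Λ}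
    {le : Λ → E} {nP cP : Λ → ℝ[X]} {uc NR CR : E → ℝ[X]} {c0 : Ω → ℝ} {t : Ω → ℤ}
    {v : Fin 2 → Ω} {M : ℕ} {ρ0 x ζ ε₀ εx Bn ε εu δ θ : ℝ},
    (∀ i, (nP (l (v i))).natDegree ≤ d) →
    (slX D Xd G l le nP cP uc NR CR c0 t).tm ρ0 M (v 1) =
      (slX D Xd G l le nP cP uc NR CR c0 t).tm ρ0 M (v 0) →
    |(slX D Xd G l le nP cP uc NR CR c0 t).tm ρ0 M (v 0) - x| ≤ ζ → |x| ≤ 1 → ζ ≤ 1 →
    |(nP (l (v 0))).eval x - (nP (l (v 1))).eval x| ≤ ε₀ →
    (∀ i, ∀ τ ∈ Set.Icc (0 : ℝ) 1, |(nP (l (v i))).eval τ| ≤ Bn) →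
    derivative (derivative (uc (le (l (v 0))) - uc (le (l (v 1))))) = 0 →
    |(uc (le (l (v 0))) - uc (le (l (v 1)))).eval x| ≤ εx →
    δ ≤ θ * |(derivative (uc (le (l (v 0))) - uc (le (l (v 1))))).eval x| →
    |(derivative (uc (le (l (v 0))) - uc (le (l (v 1))))).eval x| ≤ θ * δ →
    2 ^ Xd * (ε₀ + K * Bn * ζ) ≤ ε → εx + θ * δ * ζ ≤ εu →
    StarR (slX D Xd G l le nP cP uc NR CR c0 t) ρ0 M ε εu δ θ v := by
  obtain ⟨K₀, hK₀, hext⟩ := ext4 d
  refine ⟨2 * K₀, by linarith, ?_⟩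
  intro Ω Λ E D Xd G l le nP cP uc NR CR c0 t v M ρ0 x ζ ε₀ εx Bn ε εu δ θ hn ht hx hx1 hζ hv hb
    ha hu hs0 hs1 hε hεu
  obtain ⟨y, hy⟩ : ∃ y, y = (slX D Xd G l le nP cP uc NR CR c0 t).tm ρ0 M (v 0) := ⟨_, rfl⟩
  rw [← hy] at hx
  have hX0 : (0 : ℝ) < 2 ^ Xd := by positivity
  have hζ0 : 0 ≤ ζ := (abs_nonneg _).trans hx
  have hBn0 : 0 ≤ Bn := (abs_nonneg _).trans (hb 0 0 ⟨le_rfl, zero_le_one⟩)
  -- the moved place
  obtain ⟨U, hU⟩ : ∃ U : ℝ[X], U = uc (le (l (v 0))) - uc (le (l (v 1))) := ⟨_, rfl⟩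
  rw [← hU] at ha hu hs0 hs1
  have hUc : ∀ z : ℝ, (derivative U).eval z = (derivative U).eval x := fun z =>
    eval_const ha z x
  have hvU : (slX D Xd G l le nP cP uc NR CR c0 t).vU ρ0 M (v 0) -
      (slX D Xd G l le nP cP uc NR CR c0 t).vU ρ0 M (v 1) = (derivative U).eval x := by
    show (derivative (uc (le (l (v 0))))).eval
        ((slX D Xd G l le nP cP uc NR CR c0 t).tm ρ0 M (v 0)) -
      (derivative (uc (le (l (v 1))))).eval
        ((slX D Xd G l le nP cP uc NR CR c0 t).tm ρ0 M (v 1)) = _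
    rw [ht, ← hUc ((slX D Xd G l le nP cP uc NR CR c0 t).tm ρ0 M (v 0)), hU, derivative_sub,
      eval_sub]
  refine ⟨?_, by rw [hU] at ha; exact ha, ?_, ?_, ?_⟩
  · -- the target
    obtain ⟨P, hP⟩ : ∃ P : ℝ[X], P = nP (l (v 0)) - nP (l (v 1)) := ⟨_, rfl⟩
    have hPd : P.natDegree ≤ d := by
      rw [hP]
      exact (natDegree_sub_le _ _).trans (max_le (hn 0) (hn 1))
    have hPs := hext P (Bn + Bn) hPd (fun τ hτ => by
      rw [hP, eval_sub]
      exact (abs_sub _ _).trans (add_le_add (hb 0 τ hτ) (hb 1 τ hτ)))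
    show |(C (2 ^ Xd) * nP (l (v 0))).eval _ - (C (2 ^ Xd) * nP (l (v 1))).eval _| ≤ ε
    rw [← hy, eval_mul, eval_mul, eval_C, ← mul_sub, abs_mul, abs_of_pos hX0]
    refine le_trans (mul_le_mul_of_nonneg_left ?_ hX0.le) hε
    have e1 : (nP (l (v 0))).eval y - (nP (l (v 1))).eval y = P.eval x +
        (P.eval y - P.eval x) := by
      rw [hP, eval_sub, eval_sub]
      ring
    rw [e1]
    refine (abs_add_le _ _).trans (add_le_add ?_ ?_)
    · rw [hP, eval_sub]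
      exact hv
    · have h1 := mvt P (a := x) (b := y) (M := K₀ * (Bn + Bn)) fun s hs => by
        refine (hPs s ?_).2.1
        have h2 := hs.trans (hx.trans hζ)
        rw [abs_le] at h2 hx1 ⊢
        constructor <;> linarith [h2.1, h2.2, hx1.1, hx1.2]
      refine h1.trans ?_
      calc K₀ * (Bn + Bn) * |y - x| ≤ K₀ * (Bn + Bn) * ζ :=
            mul_le_mul_of_nonneg_left hx (by positivity)
        _ = _ := by ring
  · show |(uc (le (l (v 0))) - uc (le (l (v 1)))).eval _| ≤ εu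
    rw [← hU, ← hy]
    have h1 := mvt U (a := x) (b := y) (M := θ * δ) fun s _ => by
      rw [hUc]
      exact hs1
    have h2 : |U.eval y| ≤ |U.eval x| + |U.eval y - U.eval x| := by
      have := abs_add_le (U.eval x) (U.eval y - U.eval x)
      rwa [add_sub_cancel] at this
    have h3 : 0 ≤ θ * δ := (abs_nonneg _).trans hs1
    have h4 := mul_le_mul_of_nonneg_left hx h3
    linarith
  · rw [hvU]
    exact hs0
  · rw [hvU]
    exact hs1

/-- **The relation of the velocities of a pair.** -/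
theorem natX (d : ℕ) : ∃ K : ℝ, 1 ≤ K ∧ ∀ {Ω Λ E : Type} {D Xd : ℕ} {G : ℝ} {l : Ω → Λ}
    {le : Λ → E} {nP cP : Λ → ℝ[X]} {uc NR CR : E → ℝ[X]} {c0 : Ω → ℝ} {t : Ω → ℤ}
    {v : Fin 2 → Ω} {M : ℕ} {ρ0 x ζ Bn s e : ℝ},
    (∀ i, (nP (l (v i))).natDegree ≤ d) →
    (slX D Xd G l le nP cP uc NR CR c0 t).tm ρ0 M (v 1) =
      (slX D Xd G l le nP cP uc NR CR c0 t).tm ρ0 M (v 0) →
    |(slX D Xd G l le nP cP uc NR CR c0 t).tm ρ0 M (v 0) - x| ≤ ζ → |x| ≤ 1 → ζ ≤ 1 →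
    (∀ i, ∀ τ ∈ Set.Icc (0 : ℝ) 1, |(nP (l (v i))).eval τ| ≤ Bn) →
    derivative (derivative (uc (le (l (v 0))) - uc (le (l (v 1))))) = 0 →
    |((derivative (nP (l (v 1)))).eval x - (derivative (nP (l (v 0)))).eval x) -
      s * ((derivative (uc (le (l (v 1))))).eval x -
        (derivative (uc (le (l (v 0))))).eval x)| ≤ e →
    |(slX D Xd G l le nP cP uc NR CR c0 t).vN ρ0 M (v 1) -
      (slX D Xd G l le nP cP uc NR CR c0 t).vN ρ0 M (v 0) -
      (2 ^ Xd * s) * ((slX D Xd G l le nP cP uc NR CR c0 t).vU ρ0 M (v 1) -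
        (slX D Xd G l le nP cP uc NR CR c0 t).vU ρ0 M (v 0))| ≤ 2 ^ Xd * (e + K * Bn * ζ) ∧
    (slX D Xd G l le nP cP uc NR CR c0 t).vU ρ0 M (v 1) -
        (slX D Xd G l le nP cP uc NR CR c0 t).vU ρ0 M (v 0) =
      (derivative (uc (le (l (v 1))))).eval x - (derivative (uc (le (l (v 0))))).eval x := by
  obtain ⟨K₀, hK₀, hext⟩ := ext4 d
  refine ⟨2 * K₀, by linarith, ?_⟩
  intro Ω Λ E D Xd G l le nP cP uc NR CR c0 t v M ρ0 x ζ Bn s e hn ht hx hx1 hζ hb ha hrel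
  obtain ⟨y, hy⟩ : ∃ y, y = (slX D Xd G l le nP cP uc NR CR c0 t).tm ρ0 M (v 0) := ⟨_, rfl⟩
  rw [← hy] at hx
  have hX0 : (0 : ℝ) < 2 ^ Xd := by positivity
  have hζ0 : 0 ≤ ζ := (abs_nonneg _).trans hx
  have hBn0 : 0 ≤ Bn := (abs_nonneg _).trans (hb 0 0 ⟨le_rfl, zero_le_one⟩)
  have hUc : (derivative (uc (le (l (v 1))))).eval y - (derivative (uc (le (l (v 0))))).eval y =
      (derivative (uc (le (l (v 1))))).eval x - (derivative (uc (le (l (v 0))))).eval x := by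
    have h1 := eval_const ha y x
    rw [derivative_sub, eval_sub, eval_sub] at h1
    linarith
  have hvU : (slX D Xd G l le nP cP uc NR CR c0 t).vU ρ0 M (v 1) -
      (slX D Xd G l le nP cP uc NR CR c0 t).vU ρ0 M (v 0) =
      (derivative (uc (le (l (v 1))))).eval x - (derivative (uc (le (l (v 0))))).eval x := by
    rw [← hUc]
    show (derivative (uc (le (l (v 1))))).eval
        ((slX D Xd G l le nP cP uc NR CR c0 t).tm ρ0 M (v 1)) -
      (derivative (uc (le (l (v 0))))).eval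
        ((slX D Xd G l le nP cP uc NR CR c0 t).tm ρ0 M (v 0)) = _
    rw [ht, ← hy]
  refine ⟨?_, hvU⟩
  rw [hvU]
  obtain ⟨P, hP⟩ : ∃ P : ℝ[X], P = nP (l (v 1)) - nP (l (v 0)) := ⟨_, rfl⟩
  have hPd : P.natDegree ≤ d := by
    rw [hP]
    exact (natDegree_sub_le _ _).trans (max_le (hn 1) (hn 0))
  have hPs := hext P (Bn + Bn) hPd (fun τ hτ => by
    rw [hP, eval_sub]
    exact (abs_sub _ _).trans (add_le_add (hb 1 τ hτ) (hb 0 τ hτ)))
  have hvN : (slX D Xd G l le nP cP uc NR CR c0 t).vN ρ0 M (v 1) -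
      (slX D Xd G l le nP cP uc NR CR c0 t).vN ρ0 M (v 0) =
      2 ^ Xd * (derivative P).eval y := by
    show (derivative (C (2 ^ Xd) * nP (l (v 1)))).eval
        ((slX D Xd G l le nP cP uc NR CR c0 t).tm ρ0 M (v 1)) -
      (derivative (C (2 ^ Xd) * nP (l (v 0)))).eval
        ((slX D Xd G l le nP cP uc NR CR c0 t).tm ρ0 M (v 0)) = _
    rw [ht, ← hy, hP]
    simp only [derivative_C_mul, derivative_sub, eval_mul, eval_C, eval_sub]
    ring
  rw [hvN]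
  obtain ⟨z, hz⟩ : ∃ z, z = (derivative (uc (le (l (v 1))))).eval x -
    (derivative (uc (le (l (v 0))))).eval x := ⟨_, rfl⟩
  rw [← hz] at hrel ⊢
  have e1 : 2 ^ Xd * (derivative P).eval y - 2 ^ Xd * s * z =
      2 ^ Xd * (((derivative (nP (l (v 1)))).eval x - (derivative (nP (l (v 0)))).eval x -
        s * z) + ((derivative P).eval y - (derivative P).eval x)) := by
    rw [hP]
    simp only [derivative_sub, eval_sub]
    ring
  rw [e1, abs_mul, abs_of_pos hX0]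
  refine mul_le_mul_of_nonneg_left ((abs_add_le _ _).trans (add_le_add hrel ?_)) hX0.le
  have h1 := mvt (derivative P) (a := x) (b := y) (M := K₀ * (Bn + Bn)) fun s hs => by
    refine (hPs s ?_).2.2
    have h2 := hs.trans (hx.trans hζ)
    rw [abs_le] at h2 hx1 ⊢
    constructor <;> linarith [h2.1, h2.2, hx1.1, hx1.2]
  refine h1.trans ?_
  calc K₀ * (Bn + Bn) * |y - x| ≤ K₀ * (Bn + Bn) * ζ :=
        mul_le_mul_of_nonneg_left hx (by positivity)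
    _ = _ := by ring

end Pool.NA55
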