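import Pool.Agent.H3.NA9.Chg
import Pool.Agent.H36.NA.Geo
import Pool.Agent.H77.SL.Pol

/-!
# Two lines through one near ball at one time

`star_geo`: two samples of one time and of near heights of the coordinates `c l`, `l ≤ r`, with natural
own paths over the charts of a shorter window `t`: the own paths of `c (r + 1)` over the charts of the
window `w` agree at the time to the natural digits of `t`, and the derivative of their difference is
natural near the time.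
-/

set_option autoImplicit false

namespace Pool.NA55

open Finset Real MvPolynomial
open Pool.Agent.H49.Ent Pool.Agent.H32.Dense Pool.STK Pool.KA Pool.KSAT Pool.K2S Pool.PB Pool.S6C
open Pool.GEN Pool.CHT Pool.D2R Pool.NDD66 Pool.NA3
open Pool.PB.Trl (rt rt_mem t_rt)

/-- **Two lines through one near ball at one time.** -/
theorem star_geo (D r : ℕ) : ∃ C : ℕ, 1 ≤ C ∧ ∀ {m J : ℕ} {F : Fam m J} {c : ℕ → Fin m}
    {w t k q B : ℕ} {gw gt : ℕ → ℕ} {χ ψ : ℕ → MvPolynomial (Option (Fin m)) ℝ} {ω ω' : F.Ω},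
    Set.InjOn c (Set.Iio (r + 1)) → w ≤ t → t ≤ J → (∀ l ≤ r, gt l ≤ gw l + q) →
    (∀ l, (χ l).totalDegree ≤ D) → (∀ l, DepC c l (χ l)) →
    (∀ l, (ψ l).totalDegree ≤ D) → (∀ l, DepC c l (ψ l)) →
    (∀ l ≤ r + 1, ∃ κ : ℝ, ∀ b, NBx c χ gt t (F.t ω) l b →
      |eval b (χ l) - eval b (ψ l) - κ| ≤ 2 ^ k / 2 ^ gw l) →
    (∀ l ≤ r + 1, ∀ s ∈ Set.Icc (0 : ℝ) 1,
      |(op t c χ (slam F t ω) l).eval s| ≤ 2 ^ k / 2 ^ gt l) →
    (∀ l ≤ r + 1, ∀ s ∈ Set.Icc (0 : ℝ) 1,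
      |(op t c χ (slam F t ω') l).eval s| ≤ 2 ^ k / 2 ^ gt l) →
    F.T ω' = F.T ω →
    (∀ l ≤ r, |(F.x ω' (c l) - eval (bt F ω') (ψ l)) - (F.x ω (c l) - eval (bt F ω) (ψ l))| ≤
      1 / 2 ^ (gw l + B)) →
    (r + 1) * (q + C * (k + 1)) ≤ B →
    gt (r + 1) + (r + 1) * (q + C * (k + 1)) ≤ gw (r + 1) + B →
    |(op w c ψ (slam F w ω') (r + 1)).eval (rt F w ω) -
      (op w c ψ (slam F w ω) (r + 1)).eval (rt F w ω)| ≤ 2 ^ (C * (k + 1)) / 2 ^ gt (r + 1) ∧
    ∀ x, |x - rt F w ω| ≤ 1 / 2 ^ (t - w) →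
      |(Polynomial.derivative (op w c ψ (slam F w ω') (r + 1) -
        op w c ψ (slam F w ω) (r + 1))).eval x| ≤
        2 ^ (C * (k + 1)) * 2 ^ (t - w) * (1 / 2 ^ gt (r + 1) + 1 / 2 ^ gw (r + 1)) := by
  obtain ⟨C₁, hC₁, hbx⟩ := pt_box D r
  obtain ⟨C₂, hC₂, hmk⟩ := Pool.SL77.mkv (D + 1)
  obtain ⟨c₂, hc₂⟩ := pow_unbounded_of_one_lt C₂ (one_lt_two (α := ℝ))
  obtain ⟨c₀, D₁, hD₁, hdil⟩ := nbx_dil (r + 2) (fun _ => D)
  obtain ⟨C, hC⟩ : ∃ C : ℕ, C = C₁ + c₂ + c₀ + D₁ + 3 := ⟨_, rfl⟩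
  refine ⟨C, by omega, ?_⟩
  intro m J F c w t k q B gw gt χ ψ ω ω' hc hwt htJ hg hχ hχd hψ hψd hcmp hown hown' hT hnear hB
    hB2
  have hk1 : ∀ n : ℕ, n ≤ n * (k + 1) := fun n => Nat.le_mul_of_pos_right _ (Nat.succ_pos k)
  have hCk : C * (k + 1) = C₁ * (k + 1) + c₂ * (k + 1) + c₀ * (k + 1) + (D₁ * k + D₁) +
      3 * (k + 1) := by
    rw [hC]
    ring
  have h2k := hk1 c₂
  have h3k := hk1 c₀
  have hwJ : w ≤ J := hwt.trans htJ
  have hT1 : (slam F t ω').2.2 = (slam F t ω).2.2 := by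
    show F.T ω' / _ = F.T ω / _
    rw [hT]
  have htt : F.t ω' = F.t ω := by
    unfold Fam.t
    rw [hT]
  obtain ⟨κ₁, hκ₁⟩ := hcmp (r + 1) le_rfl
  obtain ⟨Q, hQ⟩ : ∃ Q, Q = χ (r + 1) - ψ (r + 1) - MvPolynomial.C κ₁ := ⟨_, rfl⟩
  have hQd : Q.totalDegree ≤ D := by
    rw [hQ]
    exact (totalDegree_sub _ _).trans (max_le ((totalDegree_sub _ _).trans
      (max_le (hχ _) (hψ _))) (by rw [totalDegree_C]; exact Nat.zero_le _))
  have hQp : DepC c (r + 1) Q := fun y y' h1 h2 => by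
    rw [hQ, map_sub, map_sub, map_sub, map_sub, hχd _ y y' h1 h2, hψd _ y y' h1 h2, eval_C,
      eval_C]
  have hQe : ∀ b, eval b Q = eval b (χ (r + 1)) - eval b (ψ (r + 1)) - κ₁ := fun b => by
    rw [hQ, map_sub, map_sub, eval_C]
  have hQb : ∀ b, NBx c χ gt t (F.t ω) (r + 1) b → |eval b Q| ≤ 2 ^ k / 2 ^ gw (r + 1) :=
    fun b hb => by
      rw [hQe]
      exact hκ₁ b hb
  have hm1 : (r + 1) * (q + C₁ * (k + 1)) ≤ (r + 1) * (q + C * (k + 1)) :=
    Nat.mul_le_mul_left _ (by omega)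
  have hat : ∀ (ν : F.Ω) (l : ℕ), F.x ν (c l) - eval (bt F ν) (χ l) =
      (op t c χ (slam F t ν) l).eval (rt F t ν) := fun ν l => (op_at htJ c χ ν l).symm
  refine ⟨?_, ?_⟩
  · -- the value at the time
    have h1 := hbx (c := c) (t := t) (k := k) (q := q) (B := B) (gw := gw) (gt := gt)
      (χ := χ) (ψ := ψ) (Q := Q) (M := 2 ^ k / 2 ^ gw (r + 1)) (t₀ := F.t ω) (b := bt F ω)
      (b' := bt F ω') hc hg hχ hχd hψ hψd hQd hQp (by positivity)
      (fun l hl => hcmp l (by omega)) hQb rfl htt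
      (fun l hl => by
        have e1 : (bt F ω) (some (c l)) = F.x ω (c l) := rfl
        rw [e1, hat]
        exact hown l (by omega) _ (rt_mem F t ω))
      hnear (hm1.trans hB)
    have h2 := hown (r + 1) le_rfl _ (rt_mem F t ω)
    have h3 := hown' (r + 1) le_rfl _ (rt_mem F t ω')
    rw [← hat] at h2 h3
    have e1 := op_at (F := F) hwJ c ψ ω (r + 1)
    have e2 := op_at (F := F) hwJ c ψ ω' (r + 1)
    rw [show rt F w ω' = rt F w ω from rt_congr hT] at e2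
    rw [e1, e2]
    rw [hQe, hQe] at h1
    obtain ⟨X', hX'⟩ : ∃ X', X' = F.x ω' (c (r + 1)) := ⟨_, rfl⟩
    obtain ⟨X, hX⟩ : ∃ X, X = F.x ω (c (r + 1)) := ⟨_, rfl⟩
    obtain ⟨a', ha'⟩ : ∃ a', a' = eval (bt F ω') (χ (r + 1)) := ⟨_, rfl⟩
    obtain ⟨a, ha⟩ : ∃ a, a = eval (bt F ω) (χ (r + 1)) := ⟨_, rfl⟩
    obtain ⟨b', hb'⟩ : ∃ b', b' = eval (bt F ω') (ψ (r + 1)) := ⟨_, rfl⟩
    obtain ⟨b, hb⟩ : ∃ b, b = eval (bt F ω) (ψ (r + 1)) := ⟨_, rfl⟩
    rw [← ha', ← ha, ← hb', ← hb] at h1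
    rw [← hX, ← ha] at h2
    rw [← hX', ← ha'] at h3
    rw [← hX', ← hX, ← hb', ← hb]
    have h4 : |X' - b' - (X - b)| ≤ 2 ^ k / 2 ^ gt (r + 1) + 2 ^ k / 2 ^ gt (r + 1) +
        2 ^ (C₁ * (k + 1) + (r + 1) * (q + C₁ * (k + 1))) * (2 ^ k / 2 ^ gw (r + 1)) / 2 ^ B := by
      rw [abs_le] at h1 h2 h3 ⊢
      constructor <;> linarith [h1.1, h1.2, h2.1, h2.2, h3.1, h3.2]
    refine h4.trans ?_
    have h5 : (2 : ℝ) ^ (C₁ * (k + 1) + (r + 1) * (q + C₁ * (k + 1))) * (2 ^ k / 2 ^ gw (r + 1)) /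
        2 ^ B ≤ 2 ^ (C₁ * (k + 1) + k) / 2 ^ gt (r + 1) := by
      rw [mul_div_assoc', div_div, div_le_div_iff₀ (by positivity) (by positivity), ← pow_add,
        ← pow_add, ← pow_add, ← pow_add]
      exact pow_le_pow_right₀ (by norm_num) (by omega)
    have h6 : (2 : ℝ) ^ k / 2 ^ gt (r + 1) ≤ 2 ^ (C₁ * (k + 1) + k) / 2 ^ gt (r + 1) :=
      div_le_div_of_nonneg_right (pow_le_pow_right₀ (by norm_num) (by omega)) (by positivity)
    have h7 : (2 : ℝ) ^ (C₁ * (k + 1) + k) / 2 ^ gt (r + 1) * 4 ≤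
        2 ^ (C * (k + 1)) / 2 ^ gt (r + 1) := by
      rw [div_mul_eq_mul_div]
      refine div_le_div_of_nonneg_right ?_ (by positivity)
      have e4 : (2 : ℝ) ^ (C₁ * (k + 1) + k) * 4 = 2 ^ (C₁ * (k + 1) + k + 2) := by
        rw [pow_add _ _ 2]
        norm_num
      rw [e4]
      exact pow_le_pow_right₀ (by norm_num) (by omega)
    have h8 : (0 : ℝ) ≤ 2 ^ (C₁ * (k + 1) + k) / 2 ^ gt (r + 1) := by positivity
    linarith
  · -- the derivative
    obtain ⟨n, hn⟩ : ∃ n : ℕ, n = (slam F t ω).2.2 := ⟨_, rfl⟩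
    obtain ⟨N, hN⟩ : ∃ N : ℝ, N = 2 ^ (t - w) := ⟨_, rfl⟩
    have hN0 : 0 < N := by rw [hN]; positivity
    obtain ⟨S, hS⟩ : ∃ S : ℝ, S = 2 ^ (c₀ + k * D₁ + k) *
      (1 / 2 ^ gt (r + 1) + 1 / 2 ^ gw (r + 1)) := ⟨_, rfl⟩
    have hpt : ∀ ν : F.Ω, (slam F t ν).2.2 = (slam F t ω).2.2 →
        (∀ l ≤ r + 1, ∀ s ∈ Set.Icc (0 : ℝ) 1,
          |(op t c χ (slam F t ν) l).eval s| ≤ 2 ^ k / 2 ^ gt l) → ∀ s ∈ Set.Icc (0 : ℝ) 1,
        |(op w c ψ (slam F w ν) (r + 1)).eval (stm w t n s) - κ₁| ≤ S := by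
      intro ν hν1 hν2 s hs
      obtain ⟨b, hb⟩ : ∃ b : Option (Fin m) → ℝ, b = fun o => (lc t (slam F t ν) o).eval s :=
        ⟨_, rfl⟩
      have hb0 : |b none - F.t ω| ≤ 1 / 2 ^ t := by
        have e1 : F.t ω = (lc t (slam F t ω) none).eval (rt F t ω) :=
          (eval_lc F htJ ω none).symm
        rw [e1, hb]
        show |(lc t (slam F t ν) none).eval s - _| ≤ _
        rw [eval_lc', eval_lc', hν1]
        have e2 : (((slam F t ω).2.2 : ℝ) + s) / 2 ^ t - (((slam F t ω).2.2 : ℝ) + rt F t ω) /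
            2 ^ t = (s - rt F t ω) / 2 ^ t := by ring
        show |(((slam F t ω).2.2 : ℝ) + s) / 2 ^ t - (((slam F t ω).2.2 : ℝ) + rt F t ω) /
            2 ^ t| ≤ _
        rw [e2, abs_div, abs_of_pos (show (0 : ℝ) < 2 ^ t by positivity)]
        refine div_le_div_of_nonneg_right ?_ (by positivity)
        have h1 := rt_mem F t ω
        rw [abs_le]
        constructor <;> linarith [hs.1, hs.2, h1.1, h1.2]
      have hbl : ∀ l, b (some (c l)) - eval b (χ l) = (op t c χ (slam F t ν) l).eval s :=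
        fun l => by rw [op_eval, hb]
      have h1 := hdil (c := c) (i := r + 1) (G := χ) (Q := Q) (g := gt) (a := t) (t := F.t ω)
        (M := 2 ^ k / 2 ^ gw (r + 1)) k (by omega) hc hχ hχd hQp hQd (by positivity) hQb b hb0
        (fun l hl => by
          rw [hbl]
          exact hν2 l (by omega) s hs)
      have h2 := hν2 (r + 1) le_rfl s hs
      rw [← hbl] at h2
      have e1 := op_fine F hwt htJ c ψ ν (r + 1) s
      rw [hν1, ← hn] at e1
      rw [← e1, op_eval]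
      have e2 : (lc t (slam F t ν) (some (c (r + 1)))).eval s = b (some (c (r + 1))) := by
        rw [hb]
      rw [← hb, e2]
      rw [hQe] at h1
      have e3 : b (some (c (r + 1))) - eval b (ψ (r + 1)) - κ₁ =
          (b (some (c (r + 1))) - eval b (χ (r + 1))) +
            (eval b (χ (r + 1)) - eval b (ψ (r + 1)) - κ₁) := by ring
      rw [e3]
      refine (abs_add_le _ _).trans ((add_le_add h2 h1).trans ?_)
      rw [hS, mul_add]
      refine add_le_add ?_ ?_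
      · rw [mul_one_div]
        exact div_le_div_of_nonneg_right (pow_le_pow_right₀ (by norm_num) (by omega))
          (by positivity)
      · rw [mul_one_div, mul_div_assoc', ← pow_add]
    obtain ⟨P, hP⟩ : ∃ P : Polynomial ℝ, P = op w c ψ (slam F w ω') (r + 1) -
      op w c ψ (slam F w ω) (r + 1) := ⟨_, rfl⟩
    have hPd : P.natDegree ≤ D + 1 := by
      rw [hP]
      exact (Polynomial.natDegree_sub_le _ _).trans (max_le (op_deg w c hψ _ _)
        (op_deg w c hψ _ _))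
    have hPs : ∀ s ∈ Set.Icc (0 : ℝ) 1, |P.eval (stm w t n s)| ≤ 2 * S := by
      intro s hs
      have h1 := hpt ω rfl hown s hs
      have h2 := hpt ω' hT1 hown' s hs
      rw [hP, Polynomial.eval_sub]
      rw [abs_le] at h1 h2 ⊢
      constructor <;> linarith [h1.1, h1.2, h2.1, h2.2]
    obtain ⟨a, ha⟩ : ∃ a : ℝ, a = ((n % 2 ^ (t - w) : ℕ) : ℝ) / N := ⟨_, rfl⟩
    have hst : ∀ s, stm w t n s = a + s / N := fun s => by
      unfold stm
      rw [ha, hN]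
      ring
    have hrt : rt F w ω = a + rt F t ω / N := by
      rw [Pool.NA36.rt_stm F hwt htJ ω, ← hn, hst]
    have hrm := rt_mem F t ω
    intro x hx
    rw [← hN] at hx ⊢
    rw [← hP]
    have h1 := (hmk P (a + 1 / 2 / N) (1 / 2 / N) (2 * S) hPd (by positivity) (fun s hs => by
      have e1 : s = stm w t n ((s - a) * N) := by
        rw [hst]
        field_simp
        ring
      rw [e1]
      refine hPs _ ?_
      rw [abs_le] at hs
      have e2 : (s - a) * N = (s - (a + 1 / 2 / N)) * N + 1 / 2 := by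
        field_simp
        ring
      have e3 : (1 / 2 / N) * N = 1 / 2 := by field_simp
      rw [e2]
      have e4 := mul_le_mul_of_nonneg_right hs.1 hN0.le
      have e5 := mul_le_mul_of_nonneg_right hs.2 hN0.le
      rw [neg_mul, e3] at e4
      rw [e3] at e5
      constructor <;> linarith) x (by
      have e1 : x - (a + 1 / 2 / N) = (x - rt F w ω) + (rt F t ω - 1 / 2) / N := by
        rw [hrt]
        ring
      rw [e1]
      refine (abs_add_le _ _).trans ?_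
      have e2 : |(rt F t ω - 1 / 2) / N| ≤ 1 / 2 / N := by
        rw [abs_div, abs_of_pos hN0]
        refine div_le_div_of_nonneg_right ?_ hN0.le
        rw [abs_le]
        constructor <;> linarith [hrm.1, hrm.2]
      have e3 : 3 * (1 / 2 / N) = 1 / N + 1 / 2 / N := by ring
      rw [e3]
      exact add_le_add hx e2)).2
    refine h1.trans ?_
    have e1 : C₂ * (2 * S) / (1 / 2 / N) = C₂ * 4 * 2 ^ (c₀ + k * D₁ + k) * (N *
        (1 / 2 ^ gt (r + 1) + 1 / 2 ^ gw (r + 1))) := by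
      have e0 : (1 : ℝ) / 2 / N = (2 * N)⁻¹ := by rw [div_div, one_div]
      rw [e0, div_inv_eq_mul, hS]
      ring
    rw [e1, mul_assoc (2 ^ (C * (k + 1)))]
    refine mul_le_mul_of_nonneg_right ?_ (by positivity)
    calc C₂ * 4 * 2 ^ (c₀ + k * D₁ + k) ≤ 2 ^ c₂ * 2 ^ 2 * 2 ^ (c₀ + k * D₁ + k) := by
          refine mul_le_mul_of_nonneg_right ?_ (by positivity)
          norm_num
          linarith
      _ = 2 ^ (c₂ + 2 + (c₀ + k * D₁ + k)) := by rw [pow_add _ (c₂ + 2), pow_add _ c₂ 2]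
      _ ≤ 2 ^ (C * (k + 1)) := by
          refine pow_le_pow_right₀ (by norm_num) ?_
          have : D₁ * k = k * D₁ := Nat.mul_comm _ _
          omega

end Pool.NA55
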